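import Mathlib

/-!
A fractal tile with the full symmetry of the regular hexagon.

The plane is the complex plane with its usual distance.  Write `s` for the square root of three and
`mu = 2 - s`.  With the reflection `M` in the imaginary axis, the reflection `M'` in the line of
direction `π / 3` through the origin, the point reflection `X` in `1 + (2 + s) i` and the similarity
`f z = 4 i - mu e^{i π / 3} z` two curves `A` and `W` satisfy
`A = f (M' W) ∪ f W ∪ f (M A)` and `W = A ∪ X A ∪ g W` where `g = X M f M'`.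
The twelve images of `W` under the dihedral group of order twelve form a Jordan curve; the closed
region bounded by it is the tile.  Its translates by the lattice spanned by `2 + (4 + 2 s) i` and its
rotated copies tile the plane.  Instead of the curves we construct the homeomorphisms of the plane
that straighten them, as limits of compositions of elementary moves.
-/

namespace Pool.Agent.Results.MP_a14c6f_co.FractalTile

open Filter Topology Metric Set

noncomputable section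

/-! ### Statement -/

/-- A tile: a subset of the Euclidean plane homeomorphic to the closed unit disk. -/
def IsTile (T : Set ℂ) : Prop := Nonempty (T ≃ₜ closedBall (0 : ℂ) 1)

/-- Congruent copies of `T` tile the plane. -/
def TilesPlane (T : Set ℂ) : Prop :=
  ∃ φ : ℕ → (ℂ ≃ᵢ ℂ), (⋃ i, φ i '' T) = univ ∧
    ∀ i j, i ≠ j → Disjoint (interior (φ i '' T)) (interior (φ j '' T))

/-- Rotation about `c` by the angle `π / 3`. -/
def rot (c z : ℂ) : ℂ := c + Complex.exp (Real.pi / 3 * Complex.I) * (z - c)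

/-- Reflection in the line through `c` with direction `e^{i θ}`. -/
def refl (c : ℂ) (θ : ℝ) (z : ℂ) : ℂ :=
  c + Complex.exp (2 * θ * Complex.I) * (starRingEnd ℂ) (z - c)

/-- `T` has 6-fold rotational symmetry. -/
def HasSixfold (T : Set ℂ) : Prop := ∃ c, rot c '' T = T

/-- `T` has reflective symmetry. -/
def HasReflection (T : Set ℂ) : Prop := ∃ c θ, refl c θ '' T = T

/-- A closed regular hexagon: the convex hull of the six points `c + e^{i k π / 3} v`. -/
def IsRegularHexagon (H : Set ℂ) : Prop :=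
  ∃ c v : ℂ, v ≠ 0 ∧
    H = convexHull ℝ (Set.range fun k : Fin 6 => c + Complex.exp (Real.pi / 3 * Complex.I) ^ (k : ℕ) * v)

/-- `T` is a finite union of equal regular hexagons with pairwise disjoint interiors. -/
def IsHexagonUnion (T : Set ℂ) : Prop :=
  ∃ (m : ℕ) (H : Fin m → Set ℂ), 1 ≤ m ∧ (∀ i, IsRegularHexagon (H i)) ∧
    (∀ i j, ∃ φ : ℂ ≃ᵢ ℂ, φ '' H i = H j) ∧
    (∀ i j, i ≠ j → Disjoint (interior (H i)) (interior (H j))) ∧ T = ⋃ i, H i

/-! ### Constants and affine maps -/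

/-- The square root of three. -/
def s : ℝ := Real.sqrt 3

theorem s_sq : s * s = 3 := Real.mul_self_sqrt (by norm_num)

theorem s_lo : (1.732 : ℝ) < s := Real.lt_sqrt_of_sq_lt (by norm_num)

theorem s_hi : s < (1.7321 : ℝ) := by
  unfold s
  rw [Real.sqrt_lt' (by norm_num)]
  norm_num

/-- The contraction ratio. -/
def mu : ℝ := 2 - s

theorem mu_pos : 0 < mu := by unfold mu; linarith [s_hi]

theorem mu_lt : mu < (0.2681 : ℝ) := by unfold mu; linarith [s_lo]

/-- A real affine map of the plane in coordinates. -/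
def aff (a b e c d f : ℝ) (z : ℂ) : ℂ :=
  ⟨a * z.re + b * z.im + e, c * z.re + d * z.im + f⟩

@[simp] theorem aff_re (a b e c d f : ℝ) (z : ℂ) : (aff a b e c d f z).re = a * z.re + b * z.im + e := rfl
@[simp] theorem aff_im (a b e c d f : ℝ) (z : ℂ) : (aff a b e c d f z).im = c * z.re + d * z.im + f := rfl

theorem continuous_mkC {u v : ℂ → ℝ} (hu : Continuous u) (hv : Continuous v) :
    Continuous (fun z => (⟨u z, v z⟩ : ℂ)) := by
  have : (fun z => (⟨u z, v z⟩ : ℂ)) = fun z => ((u z : ℂ) + (v z : ℂ) * Complex.I) := by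
    funext z
    apply Complex.ext <;> simp
  rw [this]
  fun_prop

theorem aff_cont (a b e c d f : ℝ) : Continuous (aff a b e c d f) := by
  unfold aff
  apply continuous_mkC <;> fun_prop

theorem aff_norm {a b e c d f r : ℝ} (hr : 0 ≤ r) (h1 : a * a + c * c = r * r)
    (h2 : b * b + d * d = r * r) (h3 : a * b + c * d = 0) (z w : ℂ) :
    ‖aff a b e c d f z - aff a b e c d f w‖ = r * ‖z - w‖ := by
  rw [← abs_of_nonneg (norm_nonneg (aff a b e c d f z - aff a b e c d f w)),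
    ← abs_of_nonneg (mul_nonneg hr (norm_nonneg (z - w))), ← sq_eq_sq_iff_abs_eq_abs, mul_pow,
    Complex.sq_norm, Complex.sq_norm, Complex.normSq_apply, Complex.normSq_apply]
  simp only [Complex.sub_re, Complex.sub_im, aff_re, aff_im]
  linear_combination ((z.re - w.re) ^ 2) * h1 + ((z.im - w.im) ^ 2) * h2 +
    2 * (z.re - w.re) * (z.im - w.im) * h3

/-- Build a homeomorphism of the plane from two inverse continuous maps. -/
def mkH (F G : ℂ → ℂ) (hF : Continuous F) (hG : Continuous G) (h1 : ∀ z, G (F z) = z)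
    (h2 : ∀ z, F (G z) = z) : ℂ ≃ₜ ℂ where
  toFun := F
  invFun := G
  left_inv := h1
  right_inv := h2
  continuous_toFun := hF
  continuous_invFun := hG

/-- Reflection in the vertical line through the origin. -/
def M : ℂ ≃ₜ ℂ :=
  mkH (aff (-1) 0 0 0 1 0) (aff (-1) 0 0 0 1 0) (aff_cont ..) (aff_cont ..)
    (fun z => by apply Complex.ext <;> simp) (fun z => by apply Complex.ext <;> simp)

/-- Point reflection in the origin. -/
def N : ℂ ≃ₜ ℂ :=
  mkH (aff (-1) 0 0 0 (-1) 0) (aff (-1) 0 0 0 (-1) 0) (aff_cont ..) (aff_cont ..)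
    (fun z => by apply Complex.ext <;> simp) (fun z => by apply Complex.ext <;> simp)

/-- Rotation about the origin by `2 π / 3`. -/
def R : ℂ ≃ₜ ℂ :=
  mkH (aff (-1 / 2) (-s / 2) 0 (s / 2) (-1 / 2) 0) (aff (-1 / 2) (s / 2) 0 (-s / 2) (-1 / 2) 0)
    (aff_cont ..) (aff_cont ..)
    (fun z => by
      have := s_sq
      apply Complex.ext <;> simp only [aff_re, aff_im]
      · linear_combination z.re / 4 * this
      · linear_combination z.im / 4 * this)
    (fun z => by
      have := s_sq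
      apply Complex.ext <;> simp only [aff_re, aff_im]
      · linear_combination z.re / 4 * this
      · linear_combination z.im / 4 * this)

/-- Reflection in the line through the origin with direction `π / 3`. -/
def M' : ℂ ≃ₜ ℂ :=
  mkH (aff (-1 / 2) (s / 2) 0 (s / 2) (1 / 2) 0) (aff (-1 / 2) (s / 2) 0 (s / 2) (1 / 2) 0)
    (aff_cont ..) (aff_cont ..)
    (fun z => by
      have := s_sq
      apply Complex.ext <;> simp only [aff_re, aff_im]
      · linear_combination z.re / 4 * this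
      · linear_combination z.im / 4 * this)
    (fun z => by
      have := s_sq
      apply Complex.ext <;> simp only [aff_re, aff_im]
      · linear_combination z.re / 4 * this
      · linear_combination z.im / 4 * this)

/-- Point reflection in `1 + (2 + s) i`. -/
def X : ℂ ≃ₜ ℂ :=
  mkH (aff (-1) 0 2 0 (-1) (4 + 2 * s)) (aff (-1) 0 2 0 (-1) (4 + 2 * s))
    (aff_cont ..) (aff_cont ..)
    (fun z => by apply Complex.ext <;> simp only [aff_re, aff_im] <;> ring)
    (fun z => by apply Complex.ext <;> simp only [aff_re, aff_im] <;> ring)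

/-- The basic contracting similarity `z ↦ 4 i - μ e^{i π / 3} z`. -/
def f : ℂ ≃ₜ ℂ :=
  mkH (aff (-mu / 2) (mu * s / 2) 0 (-(mu * s) / 2) (-mu / 2) 4)
    (aff (-(2 + s) / 2) (-((2 + s) * s) / 2) (2 * (2 + s) * s)
      ((2 + s) * s / 2) (-(2 + s) / 2) (2 * (2 + s)))
    (aff_cont ..) (aff_cont ..)
    (fun z => by
      have := s_sq
      apply Complex.ext <;> simp only [aff_re, aff_im, mu]
      · linear_combination (-(z.re) * (s * s) / 4) * this
      · linear_combination (-(z.im) * (s * s) / 4) * this)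
    (fun z => by
      have := s_sq
      apply Complex.ext <;> simp only [aff_re, aff_im, mu]
      · linear_combination (-(z.re) * (s * s) / 4) * this
      · linear_combination (s * s - (z.im) * (s * s) / 4) * this)

/-- The homothety `z ↦ 2 + 2 s i + μ z`. -/
def g : ℂ ≃ₜ ℂ :=
  mkH (aff mu 0 2 0 mu (2 * s))
    (aff (2 + s) 0 (-(2 + s) * 2) 0 (2 + s) (-(2 + s) * (2 * s)))
    (aff_cont ..) (aff_cont ..)
    (fun z => by
      have := s_sq
      apply Complex.ext <;> simp only [aff_re, aff_im, mu]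
      · linear_combination (-z.re) * this
      · linear_combination (-z.im) * this)
    (fun z => by
      have := s_sq
      apply Complex.ext <;> simp only [aff_re, aff_im, mu]
      · linear_combination (-z.re+2) * this
      · linear_combination (-z.im+2*s) * this)

theorem M_apply (z : ℂ) : M z = aff (-1) 0 0 0 1 0 z := rfl
theorem N_apply (z : ℂ) : N z = aff (-1) 0 0 0 (-1) 0 z := rfl
theorem R_apply (z : ℂ) : R z = aff (-1 / 2) (-s / 2) 0 (s / 2) (-1 / 2) 0 z := rfl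
theorem M'_apply (z : ℂ) : M' z = aff (-1 / 2) (s / 2) 0 (s / 2) (1 / 2) 0 z := rfl
theorem X_apply (z : ℂ) : X z = aff (-1) 0 2 0 (-1) (4 + 2 * s) z := rfl
theorem f_apply (z : ℂ) : f z = aff (-mu / 2) (mu * s / 2) 0 (-(mu * s) / 2) (-mu / 2) 4 z := rfl
theorem g_apply (z : ℂ) : g z = aff mu 0 2 0 mu (2 * s) z := rfl

/-- The rotation `M X M'`. -/
def kap : ℂ ≃ₜ ℂ := M * X * M'

/-- The spiral similarity `X f`. -/
def S : ℂ ≃ₜ ℂ := X * f

theorem kap_g : kap * g = f := by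
  have := s_sq
  refine Homeomorph.ext fun z => Complex.ext ?_ ?_ <;>
    simp only [kap, S, Homeomorph.mul_apply, Homeomorph.one_apply, M_apply, N_apply, R_apply, M'_apply,
      X_apply, f_apply, g_apply, aff_re, aff_im, mu]
  · linear_combination (1) * this
  · linear_combination (0) * this

theorem kap_XfM : kap * X * f * M' = f * M := by
  have := s_sq
  refine Homeomorph.ext fun z => Complex.ext ?_ ?_ <;>
    simp only [kap, S, Homeomorph.mul_apply, Homeomorph.one_apply, M_apply, N_apply, R_apply, M'_apply,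
      X_apply, f_apply, g_apply, aff_re, aff_im, mu]
  · linear_combination (1 + (-1/8)*s*z.re + (1/4)*s*z.im + (-1/8)*s^2*z.im + (1/4)*z.re) * this
  · linear_combination ((1/4)*s*z.re + (1/8)*s*z.im + (-1/8)*s^2*z.re + (-1/4)*z.im) * this

theorem kap_XfMX : kap * X * f * M' * X = X * f * M := by
  have := s_sq
  refine Homeomorph.ext fun z => Complex.ext ?_ ?_ <;>
    simp only [kap, S, Homeomorph.mul_apply, Homeomorph.one_apply, M_apply, N_apply, R_apply, M'_apply,
      X_apply, f_apply, g_apply, aff_re, aff_im, mu]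
  · linear_combination ((3/2) + (-1/4)*s + (1/8)*s*z.re + (-1/4)*s*z.im + (1/8)*s^2*z.im + (-1/4)*s^3 + (-1/4)*z.re) * this
  · linear_combination ((-1) + (1/2)*s + (-1/4)*s*z.re + (-1/8)*s*z.im + (1/8)*s^2*z.re + (1/4)*z.im) * this

theorem kap_XfMg : kap * X * f * M' * g = S * f * M' := by
  have := s_sq
  refine Homeomorph.ext fun z => Complex.ext ?_ ?_ <;>
    simp only [kap, S, Homeomorph.mul_apply, Homeomorph.one_apply, M_apply, N_apply, R_apply, M'_apply,
      X_apply, f_apply, g_apply, aff_re, aff_im, mu]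
  · linear_combination ((3/2) + (-5/4)*s + (1/2)*s^2 + (-1/4)*s^3) * this
  · linear_combination (0) * this

theorem kap_S : kap * S = S * kap := by
  have := s_sq
  refine Homeomorph.ext fun z => Complex.ext ?_ ?_ <;>
    simp only [kap, S, Homeomorph.mul_apply, Homeomorph.one_apply, M_apply, N_apply, R_apply, M'_apply,
      X_apply, f_apply, g_apply, aff_re, aff_im, mu]
  · linear_combination (1 + (-1)*s) * this
  · linear_combination (0) * this

theorem g_eq : g = X * M * f * M' := by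
  have := s_sq
  refine Homeomorph.ext fun z => Complex.ext ?_ ?_ <;>
    simp only [kap, S, Homeomorph.mul_apply, Homeomorph.one_apply, M_apply, N_apply, R_apply, M'_apply,
      X_apply, f_apply, g_apply, aff_re, aff_im, mu]
  · linear_combination ((1/4)*s*z.re + (-1/2)*z.re) * this
  · linear_combination ((1/4)*s*z.im + (-1/2)*z.im) * this

theorem Mp_eq : M' = N * R * M := by
  have := s_sq
  refine Homeomorph.ext fun z => Complex.ext ?_ ?_ <;>
    simp only [kap, S, Homeomorph.mul_apply, Homeomorph.one_apply, M_apply, N_apply, R_apply, M'_apply,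
      X_apply, f_apply, g_apply, aff_re, aff_im, mu]
  · linear_combination (0) * this
  · linear_combination (0) * this

theorem MRMR : M * R * M * R = 1 := by
  have := s_sq
  refine Homeomorph.ext fun z => Complex.ext ?_ ?_ <;>
    simp only [kap, S, Homeomorph.mul_apply, Homeomorph.one_apply, M_apply, N_apply, R_apply, M'_apply,
      X_apply, f_apply, g_apply, aff_re, aff_im, mu]
  · linear_combination ((1/4)*z.re) * this
  · linear_combination ((1/4)*z.im) * this

theorem RRR : R * R * R = 1 := by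
  have := s_sq
  refine Homeomorph.ext fun z => Complex.ext ?_ ?_ <;>
    simp only [kap, S, Homeomorph.mul_apply, Homeomorph.one_apply, M_apply, N_apply, R_apply, M'_apply,
      X_apply, f_apply, g_apply, aff_re, aff_im, mu]
  · linear_combination ((1/8)*s*z.im + (3/8)*z.re) * this
  · linear_combination ((-1/8)*s*z.re + (3/8)*z.im) * this

theorem NR : N * R = R * N := by
  have := s_sq
  refine Homeomorph.ext fun z => Complex.ext ?_ ?_ <;>
    simp only [kap, S, Homeomorph.mul_apply, Homeomorph.one_apply, M_apply, N_apply, R_apply, M'_apply,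
      X_apply, f_apply, g_apply, aff_re, aff_im, mu]
  · linear_combination (0) * this
  · linear_combination (0) * this

theorem NM : N * M = M * N := by
  have := s_sq
  refine Homeomorph.ext fun z => Complex.ext ?_ ?_ <;>
    simp only [kap, S, Homeomorph.mul_apply, Homeomorph.one_apply, M_apply, N_apply, R_apply, M'_apply,
      X_apply, f_apply, g_apply, aff_re, aff_im, mu]
  · linear_combination (0) * this
  · linear_combination (0) * this

theorem MM : M * M = 1 := by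
  have := s_sq
  refine Homeomorph.ext fun z => Complex.ext ?_ ?_ <;>
    simp only [kap, S, Homeomorph.mul_apply, Homeomorph.one_apply, M_apply, N_apply, R_apply, M'_apply,
      X_apply, f_apply, g_apply, aff_re, aff_im, mu]
  · linear_combination (0) * this
  · linear_combination (0) * this

theorem NN : N * N = 1 := by
  have := s_sq
  refine Homeomorph.ext fun z => Complex.ext ?_ ?_ <;>
    simp only [kap, S, Homeomorph.mul_apply, Homeomorph.one_apply, M_apply, N_apply, R_apply, M'_apply,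
      X_apply, f_apply, g_apply, aff_re, aff_im, mu]
  · linear_combination (0) * this
  · linear_combination (0) * this

theorem XX : X * X = 1 := by
  have := s_sq
  refine Homeomorph.ext fun z => Complex.ext ?_ ?_ <;>
    simp only [kap, S, Homeomorph.mul_apply, Homeomorph.one_apply, M_apply, N_apply, R_apply, M'_apply,
      X_apply, f_apply, g_apply, aff_re, aff_im, mu]
  · linear_combination (0) * this
  · linear_combination (0) * this

theorem MpMp : M' * M' = 1 := by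
  have := s_sq
  refine Homeomorph.ext fun z => Complex.ext ?_ ?_ <;>
    simp only [kap, S, Homeomorph.mul_apply, Homeomorph.one_apply, M_apply, N_apply, R_apply, M'_apply,
      X_apply, f_apply, g_apply, aff_re, aff_im, mu]
  · linear_combination ((1/4)*z.re) * this
  · linear_combination ((1/4)*z.im) * this

/-! ### Supports -/

/-- `h` is supported in `U`. -/
def Supp (h : ℂ ≃ₜ ℂ) (U : Set ℂ) : Prop := ∀ z, z ∉ U → h z = z

theorem Supp.mem {h : ℂ ≃ₜ ℂ} {U : Set ℂ} {z : ℂ} (hs : Supp h U) (hz : z ∈ U) : h z ∈ U := by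
  by_contra hn
  have h1 := hs _ hn
  have h2 := h.injective h1
  exact hn (by rw [h2]; exact hz)

theorem Supp.one (U : Set ℂ) : Supp 1 U := fun _ _ => rfl

theorem Supp.inv {h : ℂ ≃ₜ ℂ} {U : Set ℂ} (hs : Supp h U) : Supp h⁻¹ U := by
  intro z hz
  rw [Homeomorph.inv_apply, Homeomorph.symm_apply_eq]
  exact (hs z hz).symm

theorem Supp.mono {h : ℂ ≃ₜ ℂ} {U V : Set ℂ} (hs : Supp h U) (hUV : U ⊆ V) : Supp h V :=
  fun z hz => hs z (fun hm => hz (hUV hm))

theorem Supp.conj {h : ℂ ≃ₜ ℂ} {U : Set ℂ} (hs : Supp h U) (k : ℂ ≃ₜ ℂ) :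
    Supp (k * h * k⁻¹) (k '' U) := by
  intro z hz
  have : k.symm z ∉ U := fun hm => hz ⟨_, hm, k.apply_symm_apply z⟩
  show k (h (k.symm z)) = z
  rw [hs _ this, k.apply_symm_apply]

theorem Supp.mul {h k : ℂ ≃ₜ ℂ} {U V : Set ℂ} (h1 : Supp h U) (h2 : Supp k V) :
    Supp (h * k) (U ∪ V) := by
  intro z hz
  have hU : z ∉ U := fun hm => hz (Or.inl hm)
  have hV : z ∉ V := fun hm => hz (Or.inr hm)
  rw [Homeomorph.mul_apply, h2 z hV, h1 z hU]

theorem Supp.mul_right {h k : ℂ ≃ₜ ℂ} {U V : Set ℂ} {z : ℂ} (h1 : Supp h U) (h2 : Supp k V)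
    (d : Disjoint U V) (hz : z ∈ V) : (h * k) z = k z := by
  rw [Homeomorph.mul_apply]
  exact h1 _ (fun hm => Set.disjoint_left.1 d hm (h2.mem hz))

theorem Supp.mul_left {h k : ℂ ≃ₜ ℂ} {U V : Set ℂ} {z : ℂ} (_ : Supp h U) (h2 : Supp k V)
    (d : Disjoint U V) (hz : z ∈ U) : (h * k) z = h z := by
  rw [Homeomorph.mul_apply, h2 _ (fun hm => Set.disjoint_left.1 d hz hm)]

theorem Supp.commute {h k : ℂ ≃ₜ ℂ} {U V : Set ℂ} (h1 : Supp h U) (h2 : Supp k V)
    (d : Disjoint U V) : Commute h k := by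
  refine Homeomorph.ext fun z => ?_
  by_cases hU : z ∈ U
  · rw [h1.mul_left h2 d hU, h2.mul_right h1 d.symm hU]
  · by_cases hV : z ∈ V
    · rw [h1.mul_right h2 d hV, h2.mul_left h1 d.symm hV]
    · rw [Homeomorph.mul_apply, Homeomorph.mul_apply, h1 z hU, h2 z hV, h1 z hU]

theorem conj_apply (k h : ℂ ≃ₜ ℂ) (z : ℂ) : (k * h * k⁻¹) (k z) = k (h z) := by
  show k (h (k.symm (k z))) = k (h z)
  rw [k.symm_apply_apply]

/-! ### The two open quadrilaterals -/

theorem s3 (t : ℝ) : s * s * t = 3 * t := by rw [s_sq]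

/-- The first open quadrilateral. -/
def UA : Set ℂ :=
  {z | 0 < z.re ∧ s * z.re < z.im ∧ s * z.re + z.im < 2 + 2 * s ∧ z.im < s * z.re + 4}

/-- The second open quadrilateral. -/
def UW : Set ℂ :=
  {z | 0 < z.re ∧ s * z.re < z.im ∧ z.im < s * z.re + 2 + 2 * s ∧ z.im < 4 + 2 * s}

theorem isOpen_UA : IsOpen UA := by
  have h1 : IsOpen {z : ℂ | 0 < z.re} := isOpen_lt (by fun_prop) (by fun_prop)
  have h2 : IsOpen {z : ℂ | s * z.re < z.im} := isOpen_lt (by fun_prop) (by fun_prop)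
  have h3 : IsOpen {z : ℂ | s * z.re + z.im < 2 + 2 * s} := isOpen_lt (by fun_prop) (by fun_prop)
  have h4 : IsOpen {z : ℂ | z.im < s * z.re + 4} := isOpen_lt (by fun_prop) (by fun_prop)
  exact h1.inter (h2.inter (h3.inter h4))

theorem isOpen_UW : IsOpen UW := by
  have h1 : IsOpen {z : ℂ | 0 < z.re} := isOpen_lt (by fun_prop) (by fun_prop)
  have h2 : IsOpen {z : ℂ | s * z.re < z.im} := isOpen_lt (by fun_prop) (by fun_prop)
  have h3 : IsOpen {z : ℂ | z.im < s * z.re + 2 + 2 * s} := isOpen_lt (by fun_prop) (by fun_prop)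
  have h4 : IsOpen {z : ℂ | z.im < 4 + 2 * s} := isOpen_lt (by fun_prop) (by fun_prop)
  exact h1.inter (h2.inter (h3.inter h4))

theorem UA_sub {z : ℂ} (hz : z ∈ UA) : z ∈ UW := by
  obtain ⟨h1, h2, h3, h4⟩ := hz
  have := s_lo
  have := s_hi
  exact ⟨h1, h2, by linarith, by linarith⟩

theorem X_UA {z : ℂ} (hz : z ∈ UA) : X z ∈ UW := by
  obtain ⟨h1, h2, h3, h4⟩ := hz
  have hl := s_lo
  have hh := s_hi
  have hx : z.re < 2 := by
    by_contra hc
    push Not at hc
    nlinarith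
  refine ⟨?_, ?_, ?_, ?_⟩ <;> simp only [X_apply, aff_re, aff_im]
  · linarith
  · nlinarith
  · nlinarith
  · nlinarith

theorem g_UW {z : ℂ} (hz : z ∈ UW) : g z ∈ UW := by
  obtain ⟨h1, h2, h3, h4⟩ := hz
  have hl := s_lo
  have hh := s_hi
  have hm := mu_pos
  have hm2 := mu_lt
  have e2 := mul_pos hm (sub_pos.2 h2)
  have e3 := mul_pos hm (sub_pos.2 h3)
  have e4 := mul_pos hm (sub_pos.2 h4)
  have e5 : mu * s = 2 * s - 3 := by unfold mu; linarith [s_sq]
  refine ⟨?_, ?_, ?_, ?_⟩ <;> simp only [g_apply, aff_re, aff_im]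
  · nlinarith [mul_pos hm h1]
  · nlinarith
  · nlinarith
  · nlinarith

theorem f_UW {z : ℂ} (hz : z ∈ UW) : f z ∈ UA := by
  obtain ⟨h1, h2, h3, h4⟩ := hz
  have hl := s_lo
  have hh := s_hi
  have hm := mu_pos
  have hs := s_sq
  have e0 : 0 < s * z.im - z.re := by nlinarith
  have hy : 0 < z.im := by nlinarith
  have e1 := mul_pos hm e0
  have e3 := mul_pos hm (sub_pos.2 h3)
  have e4 := mul_pos hm (sub_pos.2 h4)
  have e5 := mul_pos hm hy
  unfold mu at e1 e3 e4 e5
  have t1 := s3 z.re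
  have t2 := s3 z.im
  have t3 := s3 (s * z.re)
  have t4 := s3 (s * z.im)
  have t5 := s3 s
  refine ⟨?_, ?_, ?_, ?_⟩ <;> simp only [f_apply, aff_re, aff_im, mu]
  · linarith
  · linarith
  · linarith
  · linarith

theorem fM'_UW {z : ℂ} (hz : z ∈ UW) : f (M' z) ∈ UA := by
  obtain ⟨h1, h2, h3, h4⟩ := hz
  have hl := s_lo
  have hh := s_hi
  have hm := mu_pos
  have hs := s_sq
  have e0 : 0 < s * z.im - z.re := by nlinarith
  have hy : 0 < z.im := by nlinarith
  have e1 := mul_pos hm h1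
  have e2 := mul_pos hm (sub_pos.2 h2)
  have e3 := mul_pos hm (sub_pos.2 h3)
  have e4 := mul_pos hm (sub_pos.2 h4)
  have e5 := mul_pos hm hy
  have e7 := mul_pos hm (mul_pos (show (0:ℝ) < s by linarith) h1)
  unfold mu at e1 e2 e3 e4 e5 e7
  have t1 := s3 z.re
  have t2 := s3 z.im
  have t3 := s3 (s * z.re)
  have t4 := s3 (s * z.im)
  have t5 := s3 s
  have t6 := s3 (s * s * z.re)
  have t7 := s3 (s * s * z.im)
  refine ⟨?_, ?_, ?_, ?_⟩ <;> simp only [f_apply, M'_apply, aff_re, aff_im, mu]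
  · linarith
  · linarith
  · linarith
  · linarith

theorem fM_UA {z : ℂ} (hz : z ∈ UA) : f (M z) ∈ UA := by
  obtain ⟨h1, h2, h3, h4⟩ := hz
  have hl := s_lo
  have hh := s_hi
  have hm := mu_pos
  have hs := s_sq
  have hy : 0 < z.im := by nlinarith
  have hsy : 0 < s * z.im := by positivity
  have e1 := mul_pos hm h1
  have e2 := mul_pos hm (sub_pos.2 h2)
  have e3 := mul_pos hm (sub_pos.2 h3)
  have e4 := mul_pos hm (sub_pos.2 h4)
  have e5 := mul_pos hm hy
  have e6 := mul_pos hm hsy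
  unfold mu at e1 e2 e3 e4 e5 e6
  have t1 := s3 z.re
  have t2 := s3 z.im
  have t3 := s3 (s * z.re)
  have t4 := s3 (s * z.im)
  have t5 := s3 s
  refine ⟨?_, ?_, ?_, ?_⟩ <;> simp only [f_apply, M_apply, aff_re, aff_im, mu]
  · linarith
  · linarith
  · linarith
  · linarith

/-! ### Products with disjoint supports -/

/-- Uniform distance at most `δ`. -/
def Near (h k : ℂ ≃ₜ ℂ) (δ : ℝ) : Prop := ∀ z, ‖h z - k z‖ ≤ δ

/-- Similarity of ratio `r`. -/
def Dil (F : ℂ ≃ₜ ℂ) (r : ℝ) : Prop := ∀ z w, ‖F z - F w‖ = r * ‖z - w‖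

theorem Near.conj {h k F : ℂ ≃ₜ ℂ} {δ r : ℝ} (hr : 0 ≤ r) (hF : Dil F r) (hn : Near h k δ) :
    Near (F * h * F⁻¹) (F * k * F⁻¹) (r * δ) := by
  intro z
  show ‖F (h (F.symm z)) - F (k (F.symm z))‖ ≤ _
  rw [hF]
  exact mul_le_mul_of_nonneg_left (hn _) hr

theorem Dil.mul {F G : ℂ ≃ₜ ℂ} {r t : ℝ} (hF : Dil F r) (hG : Dil G t) : Dil (F * G) (r * t) := by
  intro z w
  rw [Homeomorph.mul_apply, Homeomorph.mul_apply, hF, hG]
  ring

/-- Three homeomorphisms with pairwise disjoint supports. -/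
structure Tri (h1 h2 h3 : ℂ ≃ₜ ℂ) (U1 U2 U3 : Set ℂ) : Prop where
  s1 : Supp h1 U1
  s2 : Supp h2 U2
  s3 : Supp h3 U3
  d12 : Disjoint U1 U2
  d13 : Disjoint U1 U3
  d23 : Disjoint U2 U3

theorem Tri.d1 {h1 h2 h3 : ℂ ≃ₜ ℂ} {U1 U2 U3 : Set ℂ} (t : Tri h1 h2 h3 U1 U2 U3) :
    Disjoint U1 (U2 ∪ U3) := Set.disjoint_union_right.2 ⟨t.d12, t.d13⟩

theorem Tri.ap1 {h1 h2 h3 : ℂ ≃ₜ ℂ} {U1 U2 U3 : Set ℂ} (t : Tri h1 h2 h3 U1 U2 U3) {z : ℂ}
    (hz : z ∈ U1) : (h1 * (h2 * h3)) z = h1 z :=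
  t.s1.mul_left (t.s2.mul t.s3) t.d1 hz

theorem Tri.ap2 {h1 h2 h3 : ℂ ≃ₜ ℂ} {U1 U2 U3 : Set ℂ} (t : Tri h1 h2 h3 U1 U2 U3) {z : ℂ}
    (hz : z ∈ U2) : (h1 * (h2 * h3)) z = h2 z := by
  rw [t.s1.mul_right (t.s2.mul t.s3) t.d1 (Or.inl hz), t.s2.mul_left t.s3 t.d23 hz]

theorem Tri.ap3 {h1 h2 h3 : ℂ ≃ₜ ℂ} {U1 U2 U3 : Set ℂ} (t : Tri h1 h2 h3 U1 U2 U3) {z : ℂ}
    (hz : z ∈ U3) : (h1 * (h2 * h3)) z = h3 z := by
  rw [t.s1.mul_right (t.s2.mul t.s3) t.d1 (Or.inr hz), t.s2.mul_right t.s3 t.d23 hz]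

theorem Tri.supp {h1 h2 h3 : ℂ ≃ₜ ℂ} {U1 U2 U3 : Set ℂ} (t : Tri h1 h2 h3 U1 U2 U3) :
    Supp (h1 * (h2 * h3)) (U1 ∪ (U2 ∪ U3)) := t.s1.mul (t.s2.mul t.s3)

theorem Tri.near {h1 h2 h3 k1 k2 k3 : ℂ ≃ₜ ℂ} {U1 U2 U3 : Set ℂ} (t : Tri h1 h2 h3 U1 U2 U3)
    (u : Tri k1 k2 k3 U1 U2 U3) {δ : ℝ} (hδ : 0 ≤ δ) (n1 : Near h1 k1 δ) (n2 : Near h2 k2 δ)
    (n3 : Near h3 k3 δ) : Near (h1 * (h2 * h3)) (k1 * (k2 * k3)) δ := by
  intro z
  by_cases c1 : z ∈ U1
  · rw [t.ap1 c1, u.ap1 c1]; exact n1 z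
  by_cases c2 : z ∈ U2
  · rw [t.ap2 c2, u.ap2 c2]; exact n2 z
  by_cases c3 : z ∈ U3
  · rw [t.ap3 c3, u.ap3 c3]; exact n3 z
  have : z ∉ U1 ∪ (U2 ∪ U3) := by
    rintro (h | h | h)
    · exact c1 h
    · exact c2 h
    · exact c3 h
  rw [t.supp z this, u.supp z this, sub_self, norm_zero]
  exact hδ

theorem Tri.inv {h1 h2 h3 : ℂ ≃ₜ ℂ} {U1 U2 U3 : Set ℂ} (t : Tri h1 h2 h3 U1 U2 U3) :
    Tri h1⁻¹ h2⁻¹ h3⁻¹ U1 U2 U3 := ⟨t.s1.inv, t.s2.inv, t.s3.inv, t.d12, t.d13, t.d23⟩

theorem Tri.inv_eq {h1 h2 h3 : ℂ ≃ₜ ℂ} {U1 U2 U3 : Set ℂ} (t : Tri h1 h2 h3 U1 U2 U3) :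
    (h1 * (h2 * h3))⁻¹ = h1⁻¹ * (h2⁻¹ * h3⁻¹) := by
  have e23 : Commute h2⁻¹ h3⁻¹ := t.s2.inv.commute t.s3.inv t.d23
  have e1 : Commute h1⁻¹ (h2⁻¹ * h3⁻¹) := t.s1.inv.commute (t.s2.inv.mul t.s3.inv) t.d1
  rw [mul_inv_rev, mul_inv_rev, ← e23.eq, ← e1.eq]

/-! ### Dilations -/

theorem dil_M : Dil M 1 := fun z w => by
  rw [M_apply, M_apply]; exact aff_norm (by norm_num) (by norm_num) (by norm_num) (by norm_num) z w
theorem dil_N : Dil N 1 := fun z w => by
  rw [N_apply, N_apply]; exact aff_norm (by norm_num) (by norm_num) (by norm_num) (by norm_num) z w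
theorem dil_X : Dil X 1 := fun z w => by
  rw [X_apply, X_apply]; exact aff_norm (by norm_num) (by norm_num) (by norm_num) (by norm_num) z w
theorem dil_R : Dil R 1 := fun z w => by
  rw [R_apply, R_apply]
  exact aff_norm (by norm_num) (by linear_combination s_sq / 4) (by linear_combination s_sq / 4)
    (by ring) z w
theorem dil_M' : Dil M' 1 := fun z w => by
  rw [M'_apply, M'_apply]
  exact aff_norm (by norm_num) (by linear_combination s_sq / 4) (by linear_combination s_sq / 4)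
    (by ring) z w
theorem dil_f : Dil f mu := fun z w => by
  rw [f_apply, f_apply]
  exact aff_norm mu_pos.le (by linear_combination mu * mu * s_sq / 4)
    (by linear_combination mu * mu * s_sq / 4) (by ring) z w
theorem dil_g : Dil g mu := fun z w => by
  rw [g_apply, g_apply]
  exact aff_norm mu_pos.le (by ring) (by ring) (by ring) z w
theorem dil_fM : Dil (f * M) mu := by simpa using dil_f.mul dil_M
theorem dil_fM' : Dil (f * M') mu := by simpa using dil_f.mul dil_M'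
theorem dil_S : Dil S mu := by simpa [S] using dil_X.mul dil_f

/-! ### Disjointness of the sub-beads -/

theorem disj_image {F G : ℂ ≃ₜ ℂ} {U V : Set ℂ} (h : ∀ u ∈ U, ∀ v ∈ V, F u ≠ G v) :
    Disjoint (F '' U) (G '' V) := by
  rw [Set.disjoint_left]
  rintro _ ⟨u, hu, rfl⟩ ⟨v, hv, e⟩
  exact h u hu v hv e.symm

theorem UA_re {z : ℂ} (hz : z ∈ UA) : z.re < 2 := by
  obtain ⟨h1, h2, h3, h4⟩ := hz
  have hl := s_lo
  have hh := s_hi
  by_contra hc
  push Not at hc
  nlinarith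

theorem disj12 : Disjoint ((f * M') '' UW) (f '' UW) := by
  refine disj_image fun u hu v hv e => ?_
  have e' : M' u = v := f.injective e
  obtain ⟨h1, h2, h3, h4⟩ := hu
  obtain ⟨k1, k2, k3, k4⟩ := hv
  rw [← e'] at k2
  simp only [M'_apply, aff_re, aff_im] at k2
  nlinarith [s3 u.im, s_lo]

theorem disj13 : Disjoint ((f * M') '' UW) ((f * M) '' UA) := by
  refine disj_image fun u hu v hv e => ?_
  have e' : M' u = M v := f.injective e
  obtain ⟨h1, h2, h3, h4⟩ := hu
  obtain ⟨k1, k2, k3, k4⟩ := hv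
  have := congrArg Complex.re e'
  simp only [M'_apply, M_apply, aff_re] at this
  nlinarith [s3 u.re, s_lo, mul_pos (show (0:ℝ) < s by linarith [s_lo]) (sub_pos.2 h2)]

theorem disj23 : Disjoint (f '' UW) ((f * M) '' UA) := by
  refine disj_image fun u hu v hv e => ?_
  have e' : u = M v := f.injective e
  obtain ⟨h1, h2, h3, h4⟩ := hu
  obtain ⟨k1, k2, k3, k4⟩ := hv
  have := congrArg Complex.re e'
  simp only [M_apply, aff_re] at this
  linarith

theorem disjAX : Disjoint UA (X '' UA) := by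
  rw [Set.disjoint_left]
  rintro _ ⟨h1, h2, h3, h4⟩ ⟨v, ⟨k1, k2, k3, k4⟩, rfl⟩
  simp only [X_apply, aff_re, aff_im] at h3
  nlinarith

theorem disjAg : Disjoint UA (g '' UW) := by
  rw [Set.disjoint_left]
  rintro _ hu ⟨v, ⟨k1, k2, k3, k4⟩, rfl⟩
  have := UA_re hu
  simp only [g_apply, aff_re] at this
  nlinarith [mul_pos mu_pos k1]

theorem disjXg : Disjoint (X '' UA) (g '' UW) := by
  refine disj_image fun u hu v hv e => ?_
  have := congrArg Complex.re e
  simp only [g_apply, X_apply, aff_re] at this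
  nlinarith [mul_pos mu_pos hv.1, hu.1]

/-! ### The two products -/

/-- The product of the conjugates on the three sub-beads of the first bead. -/
def PA (a w : ℂ ≃ₜ ℂ) : ℂ ≃ₜ ℂ :=
  (f * M') * w * (f * M')⁻¹ * (f * w * f⁻¹ * ((f * M) * a * (f * M)⁻¹))

/-- The product of the conjugates on the three sub-beads of the second bead. -/
def PW (a w : ℂ ≃ₜ ℂ) : ℂ ≃ₜ ℂ := a * (X * a * X⁻¹ * (g * w * g⁻¹))

theorem triA {a w : ℂ ≃ₜ ℂ} (ha : Supp a UA) (hw : Supp w UW) :
    Tri ((f * M') * w * (f * M')⁻¹) (f * w * f⁻¹) ((f * M) * a * (f * M)⁻¹)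
      ((f * M') '' UW) (f '' UW) ((f * M) '' UA) :=
  ⟨hw.conj _, hw.conj _, ha.conj _, disj12, disj13, disj23⟩

theorem triW {a w : ℂ ≃ₜ ℂ} (ha : Supp a UA) (hw : Supp w UW) :
    Tri a (X * a * X⁻¹) (g * w * g⁻¹) UA (X '' UA) (g '' UW) :=
  ⟨ha, ha.conj _, hw.conj _, disjAX, disjAg, disjXg⟩

theorem PA_supp {a w : ℂ ≃ₜ ℂ} (ha : Supp a UA) (hw : Supp w UW) : Supp (PA a w) UA := by
  refine (triA ha hw).supp.mono ?_
  rintro _ (⟨u, hu, rfl⟩ | ⟨u, hu, rfl⟩ | ⟨u, hu, rfl⟩)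
  · exact fM'_UW hu
  · exact f_UW hu
  · exact fM_UA hu

theorem PW_supp {a w : ℂ ≃ₜ ℂ} (ha : Supp a UA) (hw : Supp w UW) : Supp (PW a w) UW := by
  refine (triW ha hw).supp.mono ?_
  rintro z (hu | ⟨u, hu, rfl⟩ | ⟨u, hu, rfl⟩)
  · exact UA_sub hu
  · exact X_UA hu
  · exact g_UW hu

theorem PA_near {a w a' w' : ℂ ≃ₜ ℂ} (ha : Supp a UA) (hw : Supp w UW) (ha' : Supp a' UA)
    (hw' : Supp w' UW) {δ : ℝ} (hδ : 0 ≤ δ) (n1 : Near a a' δ) (n2 : Near w w' δ) :
    Near (PA a w) (PA a' w') (mu * δ) :=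
  (triA ha hw).near (triA ha' hw') (mul_nonneg mu_pos.le hδ) (n2.conj mu_pos.le dil_fM')
    (n2.conj mu_pos.le dil_f) (n1.conj mu_pos.le dil_fM)

theorem PA_inv {a w : ℂ ≃ₜ ℂ} (ha : Supp a UA) (hw : Supp w UW) :
    (PA a w)⁻¹ = PA a⁻¹ w⁻¹ := by
  unfold PA
  rw [(triA ha hw).inv_eq]
  group

theorem PW_inv {a w : ℂ ≃ₜ ℂ} (ha : Supp a UA) (hw : Supp w UW) :
    (PW a w)⁻¹ = PW a⁻¹ w⁻¹ := by
  unfold PW
  rw [(triW ha hw).inv_eq]
  group

theorem PW_near {a w a' w' : ℂ ≃ₜ ℂ} (ha : Supp a UA) (hw : Supp w UW) (ha' : Supp a' UA)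
    (hw' : Supp w' UW) {δ : ℝ} (hδ : 0 ≤ δ) (n1 : Near a a' δ) (n2 : Near w w' (δ / mu)) :
    Near (PW a w) (PW a' w') δ := by
  refine (triW ha hw).near (triW ha' hw') hδ n1 ?_ ?_
  · have := n1.conj (r := 1) zero_le_one dil_X
    rwa [one_mul] at this
  · have := n2.conj mu_pos.le dil_g
    rwa [mul_div_cancel₀ _ mu_pos.ne'] at this

/-! ### The elementary move -/

def c1 (z : ℂ) : ℝ := z.re
def c2 (z : ℂ) : ℝ := (z.im - s * z.re) / 2
def c3 (z : ℂ) : ℝ := (2 + 2 * s - s * z.re - z.im) / 2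
def c5 (z : ℂ) : ℝ := (4 * s - z.re - s * z.im) / 2

/-- Distance to the complement of the support of the move. -/
def dd (z : ℂ) : ℝ := max 0 (min (min (c1 z) (c2 z)) (min (c3 z) (c5 z)))

/-- The corresponding function for the inverse move. -/
def de (z : ℂ) : ℝ := max 0 (min (min (2 * c1 z) (2 * mu * c2 z)) (min (c3 z) (2 * c5 z)))

/-- The vector `e^{2 π i / 3}`. -/
def uu : ℂ := ⟨-1 / 2, s / 2⟩

theorem uu_norm : ‖uu‖ = 1 := by
  have : ‖uu‖ ^ 2 = 1 := by
    rw [Complex.sq_norm, Complex.normSq_apply]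
    simp only [uu]
    linear_combination s_sq / 4
  nlinarith [norm_nonneg uu]

def kf (z : ℂ) : ℂ := ⟨z.re - dd z / 2, z.im + s / 2 * dd z⟩
def kg (z : ℂ) : ℂ := ⟨z.re + de z / 2, z.im - s / 2 * de z⟩

theorem cont_c1 : Continuous c1 := by unfold c1; fun_prop
theorem cont_c2 : Continuous c2 := by unfold c2; fun_prop
theorem cont_c3 : Continuous c3 := by unfold c3; fun_prop
theorem cont_c5 : Continuous c5 := by unfold c5; fun_prop

theorem cont_dd : Continuous dd :=
  continuous_const.max ((cont_c1.min cont_c2).min (cont_c3.min cont_c5))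

theorem cont_de : Continuous de :=
  continuous_const.max (((continuous_const.mul cont_c1).min (continuous_const.mul cont_c2)).min
    (cont_c3.min (continuous_const.mul cont_c5)))

theorem dd_nonneg (z : ℂ) : 0 ≤ dd z := le_max_left _ _
theorem de_nonneg (z : ℂ) : 0 ≤ de z := le_max_left _ _

theorem le_dd {z : ℂ} {t : ℝ} (h1 : t ≤ c1 z) (h2 : t ≤ c2 z) (h3 : t ≤ c3 z) (h5 : t ≤ c5 z) :
    t ≤ dd z := le_max_of_le_right (le_min (le_min h1 h2) (le_min h3 h5))

theorem le_de {z : ℂ} {t : ℝ} (h1 : t ≤ 2 * c1 z) (h2 : t ≤ 2 * mu * c2 z) (h3 : t ≤ c3 z)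
    (h5 : t ≤ 2 * c5 z) : t ≤ de z := le_max_of_le_right (le_min (le_min h1 h2) (le_min h3 h5))

theorem dd_pos {z : ℂ} (h : 0 < dd z) :
    dd z ≤ c1 z ∧ dd z ≤ c2 z ∧ dd z ≤ c3 z ∧ dd z ≤ c5 z := by
  have e : dd z = min (min (c1 z) (c2 z)) (min (c3 z) (c5 z)) := by
    unfold dd at h ⊢
    rcases max_choice 0 (min (min (c1 z) (c2 z)) (min (c3 z) (c5 z))) with h' | h'
    · rw [h'] at h; exact absurd h (lt_irrefl _)
    · exact h'
  rw [e]
  simp

theorem de_pos {z : ℂ} (h : 0 < de z) :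
    de z ≤ 2 * c1 z ∧ de z ≤ 2 * mu * c2 z ∧ de z ≤ c3 z ∧ de z ≤ 2 * c5 z := by
  have e : de z = min (min (2 * c1 z) (2 * mu * c2 z)) (min (c3 z) (2 * c5 z)) := by
    unfold de at h ⊢
    rcases max_choice 0 (min (min (2 * c1 z) (2 * mu * c2 z)) (min (c3 z) (2 * c5 z))) with h' | h'
    · rw [h'] at h; exact absurd h (lt_irrefl _)
    · exact h'
  rw [e]
  simp

theorem dd_ex (z : ℂ) : c1 z ≤ dd z ∨ c2 z ≤ dd z ∨ c3 z ≤ dd z ∨ c5 z ≤ dd z := by
  by_contra hc
  push Not at hc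
  obtain ⟨h1, h2, h3, h5⟩ := hc
  have : dd z < min (min (c1 z) (c2 z)) (min (c3 z) (c5 z)) :=
    lt_min (lt_min h1 h2) (lt_min h3 h5)
  exact absurd (le_max_right 0 _) (not_le.2 this)

theorem de_ex (z : ℂ) : 2 * c1 z ≤ de z ∨ 2 * mu * c2 z ≤ de z ∨ c3 z ≤ de z ∨
    2 * c5 z ≤ de z := by
  by_contra hc
  push Not at hc
  obtain ⟨h1, h2, h3, h5⟩ := hc
  have : de z < min (min (2 * c1 z) (2 * mu * c2 z)) (min (c3 z) (2 * c5 z)) :=
    lt_min (lt_min h1 h2) (lt_min h3 h5)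
  exact absurd (le_max_right 0 _) (not_le.2 this)

theorem mu_mul : mu * (2 + s) = 1 := by unfold mu; linear_combination -s_sq

theorem de_kf (z : ℂ) : de (kf z) = dd z := by
  have hm := mu_pos
  have hmm := mu_mul
  have k1 : c1 (kf z) = c1 z - dd z / 2 := rfl
  have k2 : c2 (kf z) = c2 z + s / 2 * dd z := by simp only [c2, kf]; ring
  have k3 : c3 (kf z) = c3 z := by simp only [c3, kf]; ring
  have k5 : c5 (kf z) = c5 z - dd z / 2 := by
    simp only [c5, kf]; linear_combination (-(dd z) / 4) * s_sq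
  apply le_antisymm
  · rcases dd_ex z with h | h | h | h
    · refine max_le (dd_nonneg z) ((min_le_left _ _).trans ((min_le_left _ _).trans ?_))
      rw [k1]; linarith
    · refine max_le (dd_nonneg z) ((min_le_left _ _).trans ((min_le_right _ _).trans ?_))
      rw [k2]
      have := mul_le_mul_of_nonneg_left h hm.le
      have e : mu * (2 + s) * dd z = dd z := by rw [hmm, one_mul]
      nlinarith
    · refine max_le (dd_nonneg z) ((min_le_right _ _).trans ((min_le_left _ _).trans ?_))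
      rw [k3]; exact h
    · refine max_le (dd_nonneg z) ((min_le_right _ _).trans ((min_le_right _ _).trans ?_))
      rw [k5]; linarith
  · rcases (dd_nonneg z).lt_or_eq with h | h
    · obtain ⟨h1, h2, h3, h5⟩ := dd_pos h
      apply le_de
      · rw [k1]; linarith
      · rw [k2]
        have := mul_le_mul_of_nonneg_left h2 hm.le
        nlinarith
      · rw [k3]; exact h3
      · rw [k5]; linarith
    · rw [← h]; exact de_nonneg _

theorem dd_kg (z : ℂ) : dd (kg z) = de z := by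
  have hm := mu_pos
  have hmm := mu_mul
  have k1 : c1 (kg z) = c1 z + de z / 2 := rfl
  have k2 : c2 (kg z) = c2 z - s / 2 * de z := by simp only [c2, kg]; ring
  have k3 : c3 (kg z) = c3 z := by simp only [c3, kg]; ring
  have k5 : c5 (kg z) = c5 z + de z / 2 := by
    simp only [c5, kg]; linear_combination ((de z) / 4) * s_sq
  have hs : (0:ℝ) < 2 + s := by linarith [s_lo]
  apply le_antisymm
  · rcases de_ex z with h | h | h | h
    · refine max_le (de_nonneg z) ((min_le_left _ _).trans ((min_le_left _ _).trans ?_))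
      rw [k1]; linarith
    · refine max_le (de_nonneg z) ((min_le_left _ _).trans ((min_le_right _ _).trans ?_))
      rw [k2]
      have := mul_le_mul_of_nonneg_left h hs.le
      have e : (2 + s) * (2 * mu * c2 z) = 2 * c2 z := by linear_combination (2 * c2 z) * hmm
      nlinarith
    · refine max_le (de_nonneg z) ((min_le_right _ _).trans ((min_le_left _ _).trans ?_))
      rw [k3]; exact h
    · refine max_le (de_nonneg z) ((min_le_right _ _).trans ((min_le_right _ _).trans ?_))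
      rw [k5]; linarith
  · rcases (de_nonneg z).lt_or_eq with h | h
    · obtain ⟨h1, h2, h3, h5⟩ := de_pos h
      apply le_dd
      · rw [k1]; linarith
      · rw [k2]
        have := mul_le_mul_of_nonneg_left h2 hs.le
        nlinarith
      · rw [k3]; exact h3
      · rw [k5]; linarith
    · rw [← h]; exact dd_nonneg _

/-- The elementary move. -/
def kk : ℂ ≃ₜ ℂ :=
  mkH kf kg
    (by
      unfold kf
      have := cont_dd
      apply continuous_mkC <;> fun_prop)
    (by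
      unfold kg
      have := cont_de
      apply continuous_mkC <;> fun_prop)
    (fun z => by
      have h := de_kf z
      apply Complex.ext
      · show (kf z).re + de (kf z) / 2 = z.re
        rw [h]; simp only [kf]; ring
      · show (kf z).im - s / 2 * de (kf z) = z.im
        rw [h]; simp only [kf]; ring)
    (fun z => by
      have h := dd_kg z
      apply Complex.ext
      · show (kg z).re - dd (kg z) / 2 = z.re
        rw [h]; simp only [kg]; ring
      · show (kg z).im + s / 2 * dd (kg z) = z.im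
        rw [h]; simp only [kg]; ring)

theorem kk_apply (z : ℂ) : kk z = ⟨z.re - dd z / 2, z.im + s / 2 * dd z⟩ := rfl

theorem lin_le {a b : ℝ} (h : a * a + b * b = 1) (z w : ℂ) :
    |a * (z.re - w.re) + b * (z.im - w.im)| ≤ ‖z - w‖ := by
  apply abs_le_of_sq_le_sq _ (norm_nonneg _)
  rw [Complex.sq_norm, Complex.normSq_apply]
  simp only [Complex.sub_re, Complex.sub_im]
  have : (z.re - w.re) * (z.re - w.re) + (z.im - w.im) * (z.im - w.im) =
      (a * a + b * b) * ((z.re - w.re) * (z.re - w.re) + (z.im - w.im) * (z.im - w.im)) := by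
    rw [h, one_mul]
  nlinarith [sq_nonneg (a * (z.im - w.im) - b * (z.re - w.re))]

theorem dd_lip (z w : ℂ) : |dd z - dd w| ≤ ‖z - w‖ := by
  have h1 : |c1 z - c1 w| ≤ ‖z - w‖ := by
    have := lin_le (a := 1) (b := 0) (by norm_num) z w
    simpa [c1] using this
  have h2 : |c2 z - c2 w| ≤ ‖z - w‖ := by
    have := lin_le (a := -s / 2) (b := 1 / 2) (by linear_combination s_sq / 4) z w
    have e : c2 z - c2 w = -s / 2 * (z.re - w.re) + 1 / 2 * (z.im - w.im) := by
      simp only [c2]; ring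
    rwa [e]
  have h3 : |c3 z - c3 w| ≤ ‖z - w‖ := by
    have := lin_le (a := -s / 2) (b := -1 / 2) (by linear_combination s_sq / 4) z w
    have e : c3 z - c3 w = -s / 2 * (z.re - w.re) + -1 / 2 * (z.im - w.im) := by
      simp only [c3]; ring
    rwa [e]
  have h5 : |c5 z - c5 w| ≤ ‖z - w‖ := by
    have := lin_le (a := -1 / 2) (b := -s / 2) (by linear_combination s_sq / 4) z w
    have e : c5 z - c5 w = -1 / 2 * (z.re - w.re) + -s / 2 * (z.im - w.im) := by
      simp only [c5]; ring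
    rwa [e]
  unfold dd
  refine (abs_max_sub_max_le_max _ _ _ _).trans (max_le (by simp) ?_)
  refine (abs_min_sub_min_le_max _ _ _ _).trans (max_le ?_ ?_)
  · exact (abs_min_sub_min_le_max _ _ _ _).trans (max_le h1 h2)
  · exact (abs_min_sub_min_le_max _ _ _ _).trans (max_le h3 h5)

theorem kk_lip (z w : ℂ) : ‖kk z - kk w‖ ≤ 2 * ‖z - w‖ := by
  have e : kk z - kk w = (z - w) + (dd z - dd w : ℝ) • uu := by
    apply Complex.ext <;> simp [kk_apply, uu] <;> ring
  rw [e]
  refine (norm_add_le _ _).trans ?_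
  rw [norm_smul, uu_norm, Real.norm_eq_abs]
  linarith [dd_lip z w]

theorem kk_supp : Supp kk UA := by
  intro z hz
  have : dd z = 0 := by
    by_contra hne
    have hpos : 0 < dd z := lt_of_le_of_ne (dd_nonneg z) (Ne.symm hne)
    obtain ⟨h1, h2, h3, h5⟩ := dd_pos hpos
    apply hz
    have hl := s_lo
    have a1 : 0 < z.re := lt_of_lt_of_le hpos h1
    have a2 : 0 < (z.im - s * z.re) / 2 := lt_of_lt_of_le hpos h2
    have a3 : 0 < (2 + 2 * s - s * z.re - z.im) / 2 := lt_of_lt_of_le hpos h3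
    have a5 : 0 < (4 * s - z.re - s * z.im) / 2 := lt_of_lt_of_le hpos h5
    refine ⟨a1, by linarith, by linarith, ?_⟩
    by_contra hc
    push Not at hc
    have := mul_le_mul_of_nonneg_left hc (show (0 : ℝ) ≤ s by linarith)
    nlinarith [s3 z.re]
  rw [kk_apply, this]
  apply Complex.ext <;> simp

/-! ### Limits of homeomorphisms -/

theorem exists_limit (h : ℕ → (ℂ ≃ₜ ℂ)) {c r : ℝ} (hr0 : 0 ≤ r) (hr : r < 1)
    (h1 : ∀ n, Near (h (n + 1)) (h n) (c * r ^ n))
    (h2 : ∀ n, Near (h (n + 1))⁻¹ (h n)⁻¹ (c * r ^ n)) :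
    ∃ H : ℂ ≃ₜ ℂ, (∀ z, Tendsto (fun n => h n z) atTop (𝓝 (H z))) := by
  have key : ∀ u : ℕ → ℂ → ℂ, (∀ n, Continuous (u n)) →
      (∀ n z, ‖u (n + 1) z - u n z‖ ≤ c * r ^ n) →
      ∃ F : ℂ → ℂ, Continuous F ∧ TendstoUniformly u F atTop := by
    intro u hc hu
    have hu' : ∀ z n, dist (u n z) (u (n + 1) z) ≤ c * r ^ n := fun z n => by
      rw [dist_comm, dist_eq_norm]; exact hu n z
    have : ∀ z, ∃ l, Tendsto (fun n => u n z) atTop (𝓝 l) := fun z =>
      cauchySeq_tendsto_of_complete (cauchySeq_of_le_geometric r c hr (hu' z))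
    choose F hF using this
    have hunif : TendstoUniformly u F atTop := by
      rw [Metric.tendstoUniformly_iff]
      intro ε hε
      have hlim : Tendsto (fun n : ℕ => c * r ^ n / (1 - r)) atTop (𝓝 0) := by
        have := ((tendsto_pow_atTop_nhds_zero_of_lt_one hr0 hr).const_mul c).div_const (1 - r)
        simpa using this
      filter_upwards [hlim.eventually (gt_mem_nhds hε)] with n hn z
      rw [dist_comm]
      exact (dist_le_of_le_geometric_of_tendsto r c hr (hu' z) (hF z) n).trans_lt hn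
    exact ⟨F, hunif.continuous (Frequently.of_forall hc), hunif⟩
  obtain ⟨F, hFc, hF⟩ := key (fun n z => h n z) (fun n => (h n).continuous) (fun n z => h1 n z)
  obtain ⟨G, hGc, hG⟩ := key (fun n z => (h n)⁻¹ z) (fun n => (h n)⁻¹.continuous)
    (fun n z => h2 n z)
  have e1 : ∀ z, F (G z) = z := by
    intro z
    have := hF.tendsto_comp (x := G z) hFc.continuousAt (hG.tendsto_at z)
    have h' : (fun n => h n ((h n)⁻¹ z)) = fun _ => z := by
      funext n
      exact (h n).apply_symm_apply z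
    rw [h'] at this
    exact tendsto_nhds_unique this tendsto_const_nhds
  have e2 : ∀ z, G (F z) = z := by
    intro z
    have := hG.tendsto_comp (x := F z) hGc.continuousAt (hF.tendsto_at z)
    have h' : (fun n => (h n)⁻¹ (h n z)) = fun _ => z := by
      funext n
      exact (h n).symm_apply_apply z
    rw [h'] at this
    exact tendsto_nhds_unique this tendsto_const_nhds
  exact ⟨mkH F G hFc hGc e2 e1, fun z => hF.tendsto_at z⟩

/-! ### The approximating sequence -/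

/-- The approximating homeomorphisms on the two beads. -/
def st : ℕ → (ℂ ≃ₜ ℂ) × (ℂ ≃ₜ ℂ)
  | 0 => (1, 1)
  | n + 1 => (kk * PA (st n).1 (st n).2, PW (kk * PA (st n).1 (st n).2) (st n).2)

theorem st_supp (n : ℕ) : Supp (st n).1 UA ∧ Supp (st n).2 UW := by
  induction n with
  | zero => exact ⟨Supp.one _, Supp.one _⟩
  | succ n ih =>
    have h1 : Supp (kk * PA (st n).1 (st n).2) UA := by
      have := kk_supp.mul (PA_supp ih.1 ih.2)
      rwa [Set.union_self] at this
    exact ⟨h1, PW_supp h1 ih.2⟩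

theorem UW_norm {z : ℂ} (hz : z ∈ UW) : ‖z‖ < 9 := by
  obtain ⟨h1, h2, h3, h4⟩ := hz
  have hl := s_lo
  have hh := s_hi
  have hsx : 0 < s * z.re := by positivity
  have e1 : (s * z.re) * (s * z.re) < z.im * z.im := by nlinarith
  have e2 : (s * z.re) * (s * z.re) = 3 * (z.re * z.re) := by linear_combination (z.re * z.re) * s_sq
  have e3 : z.im < 7.4642 := by linarith
  have e4 : z.im * z.im < 7.4642 * 7.4642 := by nlinarith
  have : ‖z‖ ^ 2 < 9 ^ 2 := by
    rw [Complex.sq_norm, Complex.normSq_apply]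
    nlinarith
  nlinarith [norm_nonneg z]

theorem near_one {h : ℂ ≃ₜ ℂ} {U : Set ℂ} (hU : U ⊆ UW) (hs : Supp h U) : Near h 1 18 := by
  intro z
  rw [Homeomorph.one_apply]
  by_cases hz : z ∈ U
  · have h1 := UW_norm (hU hz)
    have h2 := UW_norm (hU (hs.mem hz))
    linarith [norm_sub_le (h z) z]
  · rw [hs z hz, sub_self, norm_zero]; norm_num

theorem Near.mono {h k : ℂ ≃ₜ ℂ} {δ ε : ℝ} (hn : Near h k δ) (hle : δ ≤ ε) : Near h k ε :=
  fun z => (hn z).trans hle

theorem st_near (n : ℕ) :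
    Near (st (n + 1)).1 (st n).1 (18 * (2 * mu) ^ n) ∧
    Near (st (n + 1)).2 (st n).2 (18 * (2 * mu) ^ n) ∧
    Near (st (n + 1)).1⁻¹ (st n).1⁻¹ (18 * (2 * mu) ^ n) ∧
    Near (st (n + 1)).2⁻¹ (st n).2⁻¹ (18 * (2 * mu) ^ n) := by
  have hm := mu_pos
  induction n with
  | zero =>
    have h0 := st_supp 1
    have e : 18 * (2 * mu) ^ 0 = (18 : ℝ) := by simp
    rw [e]
    have i1 : ((st 0).1 : ℂ ≃ₜ ℂ) = 1 := rfl
    have i2 : ((st 0).2 : ℂ ≃ₜ ℂ) = 1 := rfl
    rw [i1, i2, inv_one]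
    exact ⟨near_one (fun _ => UA_sub) h0.1, near_one subset_rfl h0.2,
      near_one (fun _ => UA_sub) h0.1.inv, near_one subset_rfl h0.2.inv⟩
  | succ n ih =>
    obtain ⟨n1, n2, n3, n4⟩ := ih
    have hs0 := st_supp n
    have hs1 := st_supp (n + 1)
    have hs2 := st_supp (n + 2)
    have hδ : (0 : ℝ) ≤ 18 * (2 * mu) ^ n := by positivity
    have e : 18 * (2 * mu) ^ (n + 1) = 2 * (mu * (18 * (2 * mu) ^ n)) := by ring
    have A : Near (st (n + 1 + 1)).1 (st (n + 1)).1 (18 * (2 * mu) ^ (n + 1)) := by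
      intro z
      show ‖kk (PA (st (n + 1)).1 (st (n + 1)).2 z) - kk (PA (st n).1 (st n).2 z)‖ ≤ _
      refine (kk_lip _ _).trans ?_
      rw [e]
      have := PA_near hs1.1 hs1.2 hs0.1 hs0.2 hδ n1 n2 z
      linarith
    have A' : Near (st (n + 1 + 1)).1⁻¹ (st (n + 1)).1⁻¹ (18 * (2 * mu) ^ (n + 1)) := by
      intro z
      have q1 : (st (n + 1 + 1)).1⁻¹ = PA (st (n + 1)).1⁻¹ (st (n + 1)).2⁻¹ * kk⁻¹ := by
        show (kk * PA (st (n + 1)).1 (st (n + 1)).2)⁻¹ = _
        rw [mul_inv_rev, PA_inv hs1.1 hs1.2]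
      have q2 : (st (n + 1)).1⁻¹ = PA (st n).1⁻¹ (st n).2⁻¹ * kk⁻¹ := by
        show (kk * PA (st n).1 (st n).2)⁻¹ = _
        rw [mul_inv_rev, PA_inv hs0.1 hs0.2]
      have := PA_near hs1.1.inv hs1.2.inv hs0.1.inv hs0.2.inv hδ n3 n4 (kk⁻¹ z)
      rw [q2, q1, Homeomorph.mul_apply, Homeomorph.mul_apply]
      rw [e]
      have h0 : 0 ≤ mu * (18 * (2 * mu) ^ n) := mul_nonneg hm.le hδ
      linarith
    have hδ' : (0 : ℝ) ≤ 18 * (2 * mu) ^ (n + 1) := by positivity
    have e' : 18 * (2 * mu) ^ n ≤ 18 * (2 * mu) ^ (n + 1) / mu := by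
      rw [e, le_div_iff₀ hm]
      nlinarith
    have B : Near (st (n + 1 + 1)).2 (st (n + 1)).2 (18 * (2 * mu) ^ (n + 1)) := by
      show Near (PW (st (n + 1 + 1)).1 (st (n + 1)).2) (PW (st (n + 1)).1 (st n).2) _
      exact PW_near hs2.1 hs1.2 hs1.1 hs0.2 hδ' A (n2.mono e')
    have B' : Near (st (n + 1 + 1)).2⁻¹ (st (n + 1)).2⁻¹ (18 * (2 * mu) ^ (n + 1)) := by
      show Near (PW (st (n + 1 + 1)).1 (st (n + 1)).2)⁻¹ (PW (st (n + 1)).1 (st n).2)⁻¹ _
      rw [PW_inv hs2.1 hs1.2, PW_inv hs1.1 hs0.2]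
      exact PW_near hs2.1.inv hs1.2.inv hs1.1.inv hs0.2.inv hδ' A' (n4.mono e')
    exact ⟨A, B, A', B'⟩

/-- The pair of straightening homeomorphisms and their functional equations. -/
structure IsPair (a w : ℂ ≃ₜ ℂ) : Prop where
  sa : Supp a UA
  sw : Supp w UW
  a1 : ∀ z ∈ UW, a (f (M' z)) = kk (f (M' (w z)))
  a2 : ∀ z ∈ UW, a (f z) = kk (f (w z))
  a3 : ∀ z ∈ UA, a (f (M z)) = kk (f (M (a z)))
  a4 : ∀ z, z ∉ (f * M') '' UW → z ∉ f '' UW → z ∉ (f * M) '' UA → a z = kk z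
  w1 : ∀ z ∈ UA, w z = a z
  w2 : ∀ z ∈ UA, w (X z) = X (a z)
  w3 : ∀ z ∈ UW, w (g z) = g (w z)
  w4 : ∀ z, z ∉ UA → z ∉ X '' UA → z ∉ g '' UW → w z = z

theorem exists_pair : ∃ a w : ℂ ≃ₜ ℂ, IsPair a w := by
  have hr0 : 0 ≤ 2 * mu := by have := mu_pos; linarith
  have hr : 2 * mu < 1 := by have := mu_lt; linarith
  obtain ⟨a, ha⟩ := exists_limit (fun n => (st n).1) hr0 hr (fun n => (st_near n).1)
    (fun n => (st_near n).2.2.1)
  obtain ⟨w, hw⟩ := exists_limit (fun n => (st n).2) hr0 hr (fun n => (st_near n).2.1)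
    (fun n => (st_near n).2.2.2)
  have ha' : ∀ z, Tendsto (fun n => (st (n + 1)).1 z) atTop (𝓝 (a z)) := fun z =>
    (ha z).comp (tendsto_add_atTop_nat 1)
  have hw' : ∀ z, Tendsto (fun n => (st (n + 1)).2 z) atTop (𝓝 (w z)) := fun z =>
    (hw z).comp (tendsto_add_atTop_nat 1)
  have T : ∀ {F : ℂ → ℂ}, Continuous F → ∀ {u : ℕ → ℂ} {l : ℂ}, Tendsto u atTop (𝓝 l) →
      Tendsto (fun n => F (u n)) atTop (𝓝 (F l)) := fun hF _ _ hu =>
    (hF.tendsto _).comp hu
  have tA := fun n => triA (st_supp n).1 (st_supp n).2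
  have tW := fun n => triW (st_supp (n + 1)).1 (st_supp n).2
  refine ⟨a, w, ?_, ?_, ?_, ?_, ?_, ?_, ?_, ?_, ?_, ?_⟩
  · intro z hz
    refine tendsto_nhds_unique (ha z) ?_
    have : (fun n => (st n).1 z) = fun _ => z := funext fun n => (st_supp n).1 z hz
    rw [this]; exact tendsto_const_nhds
  · intro z hz
    refine tendsto_nhds_unique (hw z) ?_
    have : (fun n => (st n).2 z) = fun _ => z := funext fun n => (st_supp n).2 z hz
    rw [this]; exact tendsto_const_nhds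
  · intro z hz
    refine tendsto_nhds_unique (ha' _) ?_
    have : (fun n => (st (n + 1)).1 (f (M' z))) = fun n => kk (f (M' ((st n).2 z))) := by
      funext n
      show kk (PA (st n).1 (st n).2 (f (M' z))) = _
      congr 1
      exact ((tA n).ap1 ⟨z, hz, rfl⟩).trans (conj_apply (f * M') _ z)
    rw [this]
    exact T (kk.continuous.comp (f.continuous.comp M'.continuous)) (hw z)
  · intro z hz
    refine tendsto_nhds_unique (ha' _) ?_
    have : (fun n => (st (n + 1)).1 (f z)) = fun n => kk (f ((st n).2 z)) := by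
      funext n
      show kk (PA (st n).1 (st n).2 (f z)) = _
      congr 1
      exact ((tA n).ap2 ⟨z, hz, rfl⟩).trans (conj_apply f _ z)
    rw [this]
    exact T (kk.continuous.comp f.continuous) (hw z)
  · intro z hz
    refine tendsto_nhds_unique (ha' _) ?_
    have : (fun n => (st (n + 1)).1 (f (M z))) = fun n => kk (f (M ((st n).1 z))) := by
      funext n
      show kk (PA (st n).1 (st n).2 (f (M z))) = _
      congr 1
      exact ((tA n).ap3 ⟨z, hz, rfl⟩).trans (conj_apply (f * M) _ z)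
    rw [this]
    exact T (kk.continuous.comp (f.continuous.comp M.continuous)) (ha z)
  · intro z z1 z2 z3
    refine tendsto_nhds_unique (ha' _) ?_
    have : (fun n => (st (n + 1)).1 z) = fun n => kk z := by
      funext n
      show kk (PA (st n).1 (st n).2 z) = _
      congr 1
      refine (tA n).supp z ?_
      rintro (h | h | h)
      · exact z1 h
      · exact z2 h
      · exact z3 h
    rw [this]
    exact tendsto_const_nhds
  · intro z hz
    refine tendsto_nhds_unique (hw' _) ?_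
    have : (fun n => (st (n + 1)).2 z) = fun n => (st (n + 1)).1 z := by
      funext n
      exact (tW n).ap1 hz
    rw [this]
    exact ha' z
  · intro z hz
    refine tendsto_nhds_unique (hw' _) ?_
    have : (fun n => (st (n + 1)).2 (X z)) = fun n => X ((st (n + 1)).1 z) := by
      funext n
      exact ((tW n).ap2 ⟨z, hz, rfl⟩).trans (conj_apply X _ z)
    rw [this]
    exact T X.continuous (ha' z)
  · intro z hz
    refine tendsto_nhds_unique (hw' _) ?_
    have : (fun n => (st (n + 1)).2 (g z)) = fun n => g ((st n).2 z) := by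
      funext n
      exact ((tW n).ap3 ⟨z, hz, rfl⟩).trans (conj_apply g _ z)
    rw [this]
    exact T g.continuous (hw z)
  · intro z z1 z2 z3
    refine tendsto_nhds_unique (hw' _) ?_
    have : (fun n => (st (n + 1)).2 z) = fun n => z := by
      funext n
      refine (tW n).supp z ?_
      rintro (h | h | h)
      · exact z1 h
      · exact z2 h
      · exact z3 h
    rw [this]
    exact tendsto_const_nhds

/-! ### Signs -/

/-- Signed distance to the common chord line. -/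
def lam (z : ℂ) : ℝ := (s * z.im - z.re - 2 * s - 2) / 2

theorem lam_X (z : ℂ) : lam (X z) = -lam z := by
  simp only [lam, X_apply, aff_re, aff_im]
  linear_combination s_sq

theorem lam_g (z : ℂ) : lam (g z) = mu * lam z := by
  simp only [lam, g_apply, aff_re, aff_im, mu]
  ring

theorem lam_fM (z : ℂ) : lam (f (M z)) = -(mu * lam z) := by
  simp only [lam, f_apply, M_apply, aff_re, aff_im, mu]
  linear_combination (1 + (-1/4)*s*z.re + (1/2)*z.re) * s_sq

theorem lam_kk (z : ℂ) : lam (kk z) = lam z + dd z := by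
  simp only [lam, kk_apply]
  linear_combination (dd z / 4) * s_sq

theorem lt_dd {z : ℂ} {t : ℝ} (h1 : t < c1 z) (h2 : t < c2 z) (h3 : t < c3 z) (h5 : t < c5 z) :
    t < dd z := lt_max_of_lt_right (lt_min (lt_min h1 h2) (lt_min h3 h5))

theorem sign_aux {z : ℂ} {L D A1 A2 A3 A5 B1 B2 B3 B5 : ℝ}
    (hD : L ≤ 0 → 0 < D) (hle : lam z + dd z ≤ -(mu * L))
    (e1 : lam z + c1 z = A1 * (-L) + B1 * D) (e2 : lam z + c2 z = A2 * (-L) + B2 * D)
    (e3 : lam z + c3 z = A3 * (-L) + B3 * D) (e5 : lam z + c5 z = A5 * (-L) + B5 * D)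
    (a1 : 0 ≤ A1) (a2 : 0 ≤ A2) (a3 : 0 ≤ A3) (a5 : 0 ≤ A5)
    (b1 : 0 ≤ B1) (b2 : 0 ≤ B2) (b3 : 0 ≤ B3) (b5 : 0 ≤ B5)
    (s1 : 0 < A1 + B1) (s2 : 0 < A2 + B2) (s3 : 0 < A3 + B3) (s5 : 0 < A5 + B5) :
    SignType.sign (lam (kk z)) = -SignType.sign L := by
  have hm := mu_pos
  rw [lam_kk]
  have key : ∀ {A B : ℝ}, 0 ≤ A → 0 ≤ B → 0 < A + B → ∀ {P Q : ℝ}, 0 < P → 0 < Q →
      0 < A * P + B * Q := by
    intro A B hA hB hAB P Q hP hQ
    rcases hA.lt_or_eq with h | h
    · have := mul_pos h hP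
      have := mul_nonneg hB hQ.le
      linarith
    · rw [← h] at hAB ⊢
      have : 0 < B := by linarith
      have := mul_pos this hQ
      linarith
  rcases lt_trichotomy L 0 with hl | hl | hl
  · rw [sign_neg hl, neg_neg]
    apply sign_pos
    have hL : 0 < -L := by linarith
    have hd := hD hl.le
    have q1 := key a1 b1 s1 hL hd
    have q2 := key a2 b2 s2 hL hd
    have q3 := key a3 b3 s3 hL hd
    have q5 := key a5 b5 s5 hL hd
    have : -lam z < dd z := lt_dd (by linarith) (by linarith) (by linarith) (by linarith)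
    linarith
  · rw [hl, sign_zero, neg_zero]
    have hd := hD hl.le
    rw [hl] at e1 e2 e3 e5 hle
    have q1 := mul_nonneg b1 hd.le
    have q2 := mul_nonneg b2 hd.le
    have q3 := mul_nonneg b3 hd.le
    have q5 := mul_nonneg b5 hd.le
    have : -lam z ≤ dd z := le_dd (by linarith) (by linarith) (by linarith) (by linarith)
    have h0 : lam z + dd z = 0 := by linarith
    rw [h0, sign_zero]
  · rw [sign_pos hl]
    apply sign_neg
    have := mul_pos hm hl
    linarith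

theorem D_pos {u : ℂ} (hu : u ∈ UW) (hL : lam u ≤ 0) : 0 < 1 + s - u.re := by
  obtain ⟨h1, h2, h3, h4⟩ := hu
  have hl := s_lo
  have := mul_pos (show (0 : ℝ) < s by linarith) (sub_pos.2 h2)
  unfold lam at hL
  nlinarith [s3 u.re]

theorem sign_f {u : ℂ} (hu : u ∈ UW) :
    SignType.sign (lam (kk (f u))) = -SignType.sign (lam u) := by
  have hl := s_lo
  have hh := s_hi
  have hs0 : 0 < s := by linarith
  have hm := mu_pos
  have hc5 : c5 (f u) = mu * u.re := by
    simp only [c5, f_apply, aff_re, aff_im, mu]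
    linear_combination ((-1/4)*s*u.re + (1/2)*u.re) * s_sq
  have e5 : lam (f u) + c5 (f u) = mu * (-lam u) + 0 * (1 + s - u.re) := by
    simp only [lam, c5, f_apply, aff_re, aff_im, mu]
    linear_combination (1 : ℝ) * s_sq
  have h1 := hu.1
  have hle : dd (f u) ≤ c5 (f u) :=
    max_le (by rw [hc5]; positivity) ((min_le_right _ _).trans (min_le_right _ _))
  have e1 : lam (f u) + c1 (f u) = 0 * (-lam u) + mu * (1 + s - u.re) := by
    simp only [lam, c1, f_apply, aff_re, aff_im, mu]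
    linear_combination (1 + (1/4)*s*u.re + (-1/2)*u.re) * s_sq
  have e2 : lam (f u) + c2 (f u) =
      (1 + s) / 2 * mu * (1 + s / 3) * (-lam u) + (1 + s) / 2 * mu * (2 * s / 3) * (1 + s - u.re) := by
    simp only [lam, c2, f_apply, aff_re, aff_im, mu]
    linear_combination ((1/2)*s + (1/12)*s*u.im + (1/2)*s^2 + (-1/12)*s^2*u.im + (1/6)*u.im) * s_sq
  have e3 : lam (f u) + c3 (f u) =
      mu * ((1 - s / 3 + (1 + s)) / 2) * (-lam u) + (1 - s / 3) * mu * (1 + s - u.re) := by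
    simp only [lam, c3, f_apply, aff_re, aff_im, mu]
    linear_combination (2 + (1/4)*s*u.re + (1/12)*s*u.im + (-1/2)*u.re + (-1/6)*u.im) * s_sq
  have hs3 : 0 < 1 - s / 3 := by linarith
  refine sign_aux (D_pos hu) (by linarith) e1 e2 e3 e5 ?_ ?_ ?_ ?_ ?_ ?_ ?_ ?_ ?_ ?_ ?_ ?_ <;>
    positivity

theorem sign_fM' {u : ℂ} (hu : u ∈ UW) :
    SignType.sign (lam (kk (f (M' u)))) = -SignType.sign (lam u) := by
  have hl := s_lo
  have hh := s_hi
  have hs0 : 0 < s := by linarith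
  have hm := mu_pos
  have hc1 : c1 (f (M' u)) = mu * u.re := by
    simp only [c1, f_apply, M'_apply, aff_re, aff_im, mu]
    linear_combination ((-1/4)*s*u.re + (1/2)*u.re) * s_sq
  have e1 : lam (f (M' u)) + c1 (f (M' u)) = mu * (-lam u) + 0 * (1 + s - u.re) := by
    simp only [lam, c1, f_apply, M'_apply, aff_re, aff_im, mu]
    linear_combination (1 + (-1/8)*s*u.re + (-1/4)*s*u.im + (1/8)*s^2*u.im + (1/4)*u.re) * s_sq
  have h1 := hu.1
  have hle : dd (f (M' u)) ≤ c1 (f (M' u)) :=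
    max_le (by rw [hc1]; positivity) ((min_le_left _ _).trans (min_le_left _ _))
  have e5 : lam (f (M' u)) + c5 (f (M' u)) = 0 * (-lam u) + mu * (1 + s - u.re) := by
    simp only [lam, c5, f_apply, M'_apply, aff_re, aff_im, mu]
    linear_combination (1 + (1/4)*s*u.re + (-1/2)*u.re) * s_sq
  have e2 : lam (f (M' u)) + c2 (f (M' u)) =
      (1 + s) / 2 * mu * (2 * s / 3) * (-lam u) + (1 + s) / 2 * mu * (1 + s / 3) * (1 + s - u.re) := by
    simp only [lam, c2, f_apply, M'_apply, aff_re, aff_im, mu]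
    linear_combination ((1/2)*s + (-1/8)*s*u.re + (1/24)*s*u.im + (1/2)*s^2 + (1/8)*s^2*u.re + (-1/24)*s^2*u.im + (-1/4)*u.re + (1/12)*u.im) * s_sq
  have e3 : lam (f (M' u)) + c3 (f (M' u)) =
      (s - 1) * mu * (s / 3) * (-lam u) + ((s - 1) * mu * (s / 3) + (1 + s) * mu) / 2 * (1 + s - u.re) := by
    simp only [lam, c3, f_apply, M'_apply, aff_re, aff_im, mu]
    linear_combination (1 + (-1/2)*s + (-1/8)*s*u.re + (1/8)*s*u.im + (1/2)*s^2 + (1/8)*s^2*u.re + (-1/24)*s^2*u.im + (-1/4)*u.re + (-1/12)*u.im) * s_sq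
  have hs1 : 0 < s - 1 := by linarith
  refine sign_aux (D_pos hu) (by linarith) e1 e2 e3 e5 ?_ ?_ ?_ ?_ ?_ ?_ ?_ ?_ ?_ ?_ ?_ ?_ <;>
    positivity

theorem sign_fM {u : ℂ} (hu : u ∈ UA) :
    SignType.sign (lam (kk (f (M u)))) = -SignType.sign (lam u) := by
  have hm := mu_pos
  have h5 : c5 (f (M u)) = -(mu * u.re) := by
    simp only [c5, f_apply, M_apply, aff_re, aff_im, mu]
    linear_combination ((1/4)*s*u.re + (-1/2)*u.re) * s_sq
  have h1 := hu.1
  have h0 : dd (f (M u)) = 0 := by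
    by_contra hne
    have hpos : 0 < dd (f (M u)) := lt_of_le_of_ne (dd_nonneg _) (Ne.symm hne)
    have := (dd_pos hpos).2.2.2
    rw [h5] at this
    have := mul_pos hm h1
    linarith
  rw [lam_kk, h0, add_zero, lam_fM]
  rcases lt_trichotomy (lam u) 0 with hl | hl | hl
  · rw [sign_neg hl, neg_neg]; apply sign_pos; nlinarith
  · rw [hl]; simp
  · rw [sign_pos hl]; apply sign_neg; nlinarith

/-! ### The sign functions of a pair -/

/-- Side of the first curve. -/
def sA (a : ℂ ≃ₜ ℂ) (z : ℂ) : SignType := SignType.sign (lam (a z))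

theorem IsPair.R1 {a w : ℂ ≃ₜ ℂ} (p : IsPair a w) {z : ℂ} (hz : z ∈ UA) : sA w z = sA a z := by
  unfold sA; rw [p.w1 z hz]

theorem IsPair.R2 {a w : ℂ ≃ₜ ℂ} (p : IsPair a w) {z : ℂ} (hz : z ∈ UA) :
    sA w (X z) = -sA a z := by
  unfold sA; rw [p.w2 z hz, lam_X, Left.sign_neg]

theorem IsPair.R3 {a w : ℂ ≃ₜ ℂ} (p : IsPair a w) {z : ℂ} (hz : z ∈ UW) :
    sA w (g z) = sA w z := by
  unfold sA; rw [p.w3 z hz, lam_g, sign_mul, sign_pos mu_pos, one_mul]

theorem IsPair.R4 {a w : ℂ ≃ₜ ℂ} (p : IsPair a w) {z : ℂ} (hz : z ∈ UW) :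
    sA a (f z) = -sA w z := by
  unfold sA; rw [p.a2 z hz, sign_f (p.sw.mem hz)]

theorem IsPair.R5 {a w : ℂ ≃ₜ ℂ} (p : IsPair a w) {z : ℂ} (hz : z ∈ UW) :
    sA a (f (M' z)) = -sA w z := by
  unfold sA; rw [p.a1 z hz, sign_fM' (p.sw.mem hz)]

theorem IsPair.R6 {a w : ℂ ≃ₜ ℂ} (p : IsPair a w) {z : ℂ} (hz : z ∈ UA) :
    sA a (f (M z)) = -sA a z := by
  unfold sA; rw [p.a3 z hz, sign_fM (p.sa.mem hz)]

/-! ### The symmetric extension -/

/-- Conjugation. -/
def cj (k h : ℂ ≃ₜ ℂ) : ℂ ≃ₜ ℂ := k * h * k⁻¹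

theorem cj_mul (k h1 h2 : ℂ ≃ₜ ℂ) : cj k (h1 * h2) = cj k h1 * cj k h2 := by
  unfold cj; group
theorem cj_cj (k l h : ℂ ≃ₜ ℂ) : cj k (cj l h) = cj (k * l) h := by
  unfold cj; group
theorem cj_one (h : ℂ ≃ₜ ℂ) : cj 1 h = h := by
  unfold cj; group
theorem cj_comm {k h : ℂ ≃ₜ ℂ} (e : cj k h = h) (z : ℂ) : h (k z) = k (h z) := by
  have : k * h = h * k := by
    have e' : k * h * k⁻¹ = h := e
    calc k * h = k * h * k⁻¹ * k := by group
      _ = h * k := by rw [e']
  exact (DFunLike.congr_fun this z).symm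

def B0 (w : ℂ ≃ₜ ℂ) : ℂ ≃ₜ ℂ := w * cj M w
def B1 (w : ℂ ≃ₜ ℂ) : ℂ ≃ₜ ℂ := B0 w * cj N (B0 w)
def B2 (w : ℂ ≃ₜ ℂ) : ℂ ≃ₜ ℂ := B1 w * (cj R (B1 w) * cj (R * R) (B1 w))

/-- The open upper sector. -/
def V0 : Set ℂ := {z | s * z.re < z.im ∧ -(s * z.re) < z.im}
/-- The open double sector. -/
def VV : Set ℂ := {z | 3 * (z.re * z.re) < z.im * z.im}

theorem dM : Disjoint UW (M '' UW) := by
  rw [Set.disjoint_left]
  rintro _ ⟨h1, h2, h3, h4⟩ ⟨v, ⟨k1, k2, k3, k4⟩, rfl⟩
  simp only [M_apply, aff_re] at h1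
  linarith

theorem UW_V0 {z : ℂ} (hz : z ∈ UW) : z ∈ V0 := by
  obtain ⟨h1, h2, h3, h4⟩ := hz
  have hl := s_lo
  have : 0 < s * z.re := by positivity
  exact ⟨h2, by linarith⟩

theorem suppB0 {w : ℂ ≃ₜ ℂ} (hw : Supp w UW) : Supp (B0 w) V0 := by
  refine (hw.mul (hw.conj M)).mono ?_
  rintro _ (h | ⟨v, ⟨k1, k2, k3, k4⟩, rfl⟩)
  · exact UW_V0 h
  · have hl := s_lo
    have : 0 < s * v.re := by positivity
    refine ⟨?_, ?_⟩ <;> simp only [M_apply, aff_re, aff_im] <;> linarith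

theorem dN : Disjoint V0 (N '' V0) := by
  rw [Set.disjoint_left]
  rintro _ ⟨h1, h2⟩ ⟨v, ⟨k1, k2⟩, rfl⟩
  simp only [N_apply, aff_re, aff_im] at h1 h2
  linarith

theorem V0_VV {z : ℂ} (hz : z ∈ V0) : z ∈ VV := by
  obtain ⟨h1, h2⟩ := hz
  show 3 * (z.re * z.re) < z.im * z.im
  have e : (z.im - s * z.re) * (z.im - -(s * z.re)) = z.im * z.im - 3 * (z.re * z.re) := by
    linear_combination (-(z.re * z.re)) * s_sq
  have := mul_pos (sub_pos.2 h1) (sub_pos.2 h2)
  linarith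

theorem suppB1 {w : ℂ ≃ₜ ℂ} (hw : Supp w UW) : Supp (B1 w) VV := by
  refine ((suppB0 hw).mul ((suppB0 hw).conj N)).mono ?_
  rintro _ (h | ⟨v, k, rfl⟩)
  · exact V0_VV h
  · have := V0_VV k
    show 3 * ((N v).re * (N v).re) < (N v).im * (N v).im
    simp only [N_apply, aff_re, aff_im]
    have h' : 3 * (v.re * v.re) < v.im * v.im := this
    linarith

theorem dR : Disjoint VV (R '' VV) := by
  rw [Set.disjoint_left]
  rintro _ h ⟨v, k, rfl⟩
  have h' : 3 * ((R v).re * (R v).re) < (R v).im * (R v).im := h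
  have k' : 3 * (v.re * v.re) < v.im * v.im := k
  simp only [R_apply, aff_re, aff_im] at h'
  have t1 := s3 (v.re * v.re)
  have t2 := s3 (v.im * v.im)
  nlinarith [sq_nonneg (v.im + s * v.re)]

theorem dRR : Disjoint VV ((R * R) '' VV) := by
  rw [Set.disjoint_left]
  rintro _ h ⟨v, k, rfl⟩
  have h' : 3 * ((R (R v)).re * (R (R v)).re) < (R (R v)).im * (R (R v)).im := h
  have k' : 3 * (v.re * v.re) < v.im * v.im := k
  have e1 : (R (R v)).re = -1 / 2 * v.re + s / 2 * v.im := by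
    simp only [R_apply, aff_re, aff_im]; linear_combination (-v.re / 4) * s_sq
  have e2 : (R (R v)).im = -s / 2 * v.re - 1 / 2 * v.im := by
    simp only [R_apply, aff_re, aff_im]; linear_combination (-v.im / 4) * s_sq
  rw [e1, e2] at h'
  have t1 := s3 (v.re * v.re)
  have t2 := s3 (v.im * v.im)
  nlinarith [sq_nonneg (v.im - s * v.re)]

theorem dRRR : Disjoint (R '' VV) ((R * R) '' VV) := by
  have : (R * R) '' VV = R '' (R '' VV) := by
    rw [Set.image_image]; rfl
  rw [this]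
  exact (Set.disjoint_image_iff R.injective).2 dR

theorem triR {w : ℂ ≃ₜ ℂ} (hw : Supp w UW) :
    Tri (B1 w) (cj R (B1 w)) (cj (R * R) (B1 w)) VV (R '' VV) ((R * R) '' VV) :=
  ⟨suppB1 hw, (suppB1 hw).conj _, (suppB1 hw).conj _, dR, dRR, dRRR⟩

theorem cjM_B0 {w : ℂ ≃ₜ ℂ} (hw : Supp w UW) : cj M (B0 w) = B0 w := by
  have c : Commute w (cj M w) := hw.commute (hw.conj M) dM
  unfold B0
  rw [cj_mul, cj_cj, MM, cj_one, c.eq]

theorem cjN_B1 {w : ℂ ≃ₜ ℂ} (hw : Supp w UW) : cj N (B1 w) = B1 w := by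
  have c : Commute (B0 w) (cj N (B0 w)) := (suppB0 hw).commute ((suppB0 hw).conj N) dN
  unfold B1
  rw [cj_mul, cj_cj, NN, cj_one, c.eq]

theorem cjM_B1 {w : ℂ ≃ₜ ℂ} (hw : Supp w UW) : cj M (B1 w) = B1 w := by
  unfold B1
  rw [cj_mul, cj_cj, ← NM, ← cj_cj, cjM_B0 hw]

theorem cjR_B2 {w : ℂ ≃ₜ ℂ} (hw : Supp w UW) : cj R (B2 w) = B2 w := by
  have t := triR hw
  have c : Commute (B1 w) (cj R (B1 w) * cj (R * R) (B1 w)) := t.s1.commute (t.s2.mul t.s3) t.d1
  unfold B2
  rw [cj_mul, cj_mul, cj_cj, cj_cj, ← mul_assoc R R R, RRR, cj_one, ← mul_assoc, c.eq]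

theorem cjN_B2 {w : ℂ ≃ₜ ℂ} (hw : Supp w UW) : cj N (B2 w) = B2 w := by
  unfold B2
  rw [cj_mul, cj_mul, cj_cj, cj_cj, ← mul_assoc N R R, NR, mul_assoc R N R, NR, ← mul_assoc R R N,
    ← cj_cj R N, ← cj_cj (R * R) N, cjN_B1 hw]

theorem MR : M * R = R * R * M := by
  have h := MRMR
  have h2 := RRR
  have h3 := MM
  calc M * R = (M * R * M * R) * R⁻¹ * M⁻¹ := by group
    _ = R⁻¹ * M⁻¹ := by rw [h]; group
    _ = (R * R * R) * R⁻¹ * M⁻¹ := by rw [h2]; group
    _ = R * R * M⁻¹ := by group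
    _ = R * R * (M * M) * M⁻¹ := by rw [h3]; group
    _ = R * R * M := by group

theorem cjM_B2 {w : ℂ ≃ₜ ℂ} (hw : Supp w UW) : cj M (B2 w) = B2 w := by
  have t := triR hw
  have c : Commute (cj R (B1 w)) (cj (R * R) (B1 w)) := t.s2.commute t.s3 t.d23
  have e1 : M * (R * R) = R * M := by
    calc M * (R * R) = (M * R) * R := by rw [mul_assoc]
      _ = R * R * M * R := by rw [MR]
      _ = R * R * (M * R) := by rw [mul_assoc]
      _ = R * R * (R * R * M) := by rw [MR]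
      _ = (R * R * R) * R * M := by simp only [mul_assoc]
      _ = R * M := by rw [RRR, one_mul]
  unfold B2
  rw [cj_mul, cj_mul, cj_cj, cj_cj, e1, MR, ← cj_cj R M, ← cj_cj (R * R) M, cjM_B1 hw, c.eq]

theorem B2_UW {w : ℂ ≃ₜ ℂ} (hw : Supp w UW) {z : ℂ} (hz : z ∈ UW) : B2 w z = w z := by
  have t := triR hw
  have h0 := UW_V0 hz
  have h1 := V0_VV h0
  have a1 : B2 w z = B1 w z := t.ap1 h1
  have a2 : B1 w z = B0 w z := (suppB0 hw).mul_left ((suppB0 hw).conj N) dN h0
  have a3 : B0 w z = w z := hw.mul_left (hw.conj M) dM hz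
  rw [a1, a2, a3]

/-- Induction over the symmetry group of order twelve. -/
theorem fold_ind {P : ℂ → Prop} (hM : ∀ z, P (M z) → P z) (hN : ∀ z, P (N z) → P z)
    (hR : ∀ z, P (R z) → P z) (hQ : ∀ z : ℂ, 0 ≤ z.re → s * z.re ≤ z.im → P z) : ∀ z, P z := by
  have hl := s_lo
  have h1 : ∀ z : ℂ, 3 * (z.re * z.re) ≤ z.im * z.im → 0 ≤ z.im → 0 ≤ z.re → P z := by
    intro z h hi hr
    apply hQ z hr
    by_contra hc
    push Not at hc
    nlinarith [s3 (z.re * z.re)]
  have h2 : ∀ z : ℂ, 3 * (z.re * z.re) ≤ z.im * z.im → 0 ≤ z.im → P z := by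
    intro z h hi
    rcases le_total 0 z.re with hr | hr
    · exact h1 z h hi hr
    · apply hM
      apply h1 <;> simp only [M_apply, aff_re, aff_im] <;> nlinarith
  have h3 : ∀ z : ℂ, 3 * (z.re * z.re) ≤ z.im * z.im → P z := by
    intro z h
    rcases le_total 0 z.im with hr | hr
    · exact h2 z h hr
    · apply hN
      apply h2 <;> simp only [N_apply, aff_re, aff_im] <;> nlinarith
  intro z
  by_cases h : 3 * (z.re * z.re) ≤ z.im * z.im
  · exact h3 z h
  push Not at h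
  have key : (z.im * (z.im + s * z.re)) * (z.im * (z.im - s * z.re)) ≤ 0 := by
    have : (z.im * (z.im + s * z.re)) * (z.im * (z.im - s * z.re)) =
        z.im * z.im * (z.im * z.im - 3 * (z.re * z.re)) := by
      linear_combination (-(z.im * z.im * (z.re * z.re))) * s_sq
    rw [this]
    exact mul_nonpos_of_nonneg_of_nonpos (mul_self_nonneg _) (by linarith)
  rcases mul_nonpos_iff.1 key with ⟨_, k⟩ | ⟨k, _⟩
  · apply hR
    apply hR
    apply h3
    have e1 : (R (R z)).re = -1 / 2 * z.re + s / 2 * z.im := by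
      simp only [R_apply, aff_re, aff_im]; linear_combination (-z.re / 4) * s_sq
    have e2 : (R (R z)).im = -s / 2 * z.re - 1 / 2 * z.im := by
      simp only [R_apply, aff_re, aff_im]; linear_combination (-z.im / 4) * s_sq
    rw [e1, e2]
    nlinarith [s3 (z.re * z.re), s3 (z.im * z.im)]
  · apply hR
    apply h3
    simp only [R_apply, aff_re, aff_im]
    nlinarith [s3 (z.re * z.re), s3 (z.im * z.im)]

/-! ### The hexagram -/

/-- The gauge function of the hexagram. -/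
def phi (z : ℂ) : ℝ :=
  min (max ((s * z.im - z.re) / 2) (max (-(z.re + s * z.im) / 2) z.re))
    (max (-((s * z.im - z.re) / 2)) (max (-(-(z.re + s * z.im) / 2)) (-z.re)))

theorem phi_M (z : ℂ) : phi (M z) = phi z := by
  unfold phi
  simp only [M_apply, aff_re, aff_im]
  have e1 : (s * (0 * z.re + 1 * z.im + 0) - (-1 * z.re + 0 * z.im + 0)) / 2 =
      -(-(z.re + s * z.im) / 2) := by ring
  have e2 : -(-1 * z.re + 0 * z.im + 0 + s * (0 * z.re + 1 * z.im + 0)) / 2 =
      -((s * z.im - z.re) / 2) := by ring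
  have e3 : -1 * z.re + 0 * z.im + 0 = -z.re := by ring
  rw [e1, e2, e3, neg_neg, neg_neg, neg_neg, min_comm]
  congr 1
  · rw [max_left_comm]
  · rw [max_left_comm]

theorem phi_N (z : ℂ) : phi (N z) = phi z := by
  unfold phi
  simp only [N_apply, aff_re, aff_im]
  have e1 : (s * (0 * z.re + -1 * z.im + 0) - (-1 * z.re + 0 * z.im + 0)) / 2 =
      -((s * z.im - z.re) / 2) := by ring
  have e2 : -(-1 * z.re + 0 * z.im + 0 + s * (0 * z.re + -1 * z.im + 0)) / 2 =
      -(-(z.re + s * z.im) / 2) := by ring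
  have e3 : -1 * z.re + 0 * z.im + 0 = -z.re := by ring
  rw [e1, e2, e3, neg_neg, neg_neg, neg_neg, min_comm]

theorem phi_R (z : ℂ) : phi (R z) = phi z := by
  unfold phi
  simp only [R_apply, aff_re, aff_im]
  have e1 : (s * (s / 2 * z.re + -1 / 2 * z.im + 0) - (-1 / 2 * z.re + -s / 2 * z.im + 0)) / 2 =
      z.re := by linear_combination (z.re / 4) * s_sq
  have e2 : -(-1 / 2 * z.re + -s / 2 * z.im + 0 + s * (s / 2 * z.re + -1 / 2 * z.im + 0)) / 2 =
      (s * z.im - z.re) / 2 := by linear_combination (-z.re / 4) * s_sq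
  have e3 : -1 / 2 * z.re + -s / 2 * z.im + 0 = -(z.re + s * z.im) / 2 := by ring
  rw [e1, e2, e3]
  congr 1
  · rw [max_left_comm, max_comm z.re]
  · rw [max_left_comm, max_comm (-z.re)]

theorem phi_Q {z : ℂ} (h1 : 0 ≤ z.re) (h2 : s * z.re ≤ z.im) : phi z = (s * z.im - z.re) / 2 := by
  have hl := s_lo
  have hs : 0 < s := by linarith
  have h3 := mul_le_mul_of_nonneg_left h2 hs.le
  have t := s3 z.re
  unfold phi
  rw [max_eq_left (a := (s * z.im - z.re) / 2)]
  · rw [min_eq_left]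
    refine le_max_of_le_right (le_max_of_le_left ?_)
    nlinarith
  · apply max_le <;> nlinarith

/-! ### The sign function of the tile -/

def sP (w : ℂ ≃ₜ ℂ) (z : ℂ) : SignType := SignType.sign (phi (B2 w z) - (1 + s))

theorem sP_M {w : ℂ ≃ₜ ℂ} (hw : Supp w UW) (z : ℂ) : sP w (M z) = sP w z := by
  unfold sP; rw [cj_comm (cjM_B2 hw), phi_M]
theorem sP_N {w : ℂ ≃ₜ ℂ} (hw : Supp w UW) (z : ℂ) : sP w (N z) = sP w z := by
  unfold sP; rw [cj_comm (cjN_B2 hw), phi_N]
theorem sP_R {w : ℂ ≃ₜ ℂ} (hw : Supp w UW) (z : ℂ) : sP w (R z) = sP w z := by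
  unfold sP; rw [cj_comm (cjR_B2 hw), phi_R]
theorem sP_M' {w : ℂ ≃ₜ ℂ} (hw : Supp w UW) (z : ℂ) : sP w (M' z) = sP w z := by
  rw [Mp_eq]
  show sP w (N (R (M z))) = _
  rw [sP_N hw, sP_R hw, sP_M hw]

theorem sP_UW {w : ℂ ≃ₜ ℂ} (hw : Supp w UW) {z : ℂ} (hz : z ∈ UW) : sP w z = sA w z := by
  unfold sP sA
  rw [B2_UW hw hz]
  have h := hw.mem hz
  rw [phi_Q h.1.le h.2.1.le]
  congr 1
  unfold lam
  ring

/-! ### Special points and the exceptional set -/

def pC : ℂ := ⟨1, 2 + s⟩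
def pm : ℂ := ⟨0, 2 + 2 * s / 3⟩
def pm' : ℂ := ⟨1 + s, 3 + s⟩
def pK : ℂ := ⟨2 * s / 3, 2 + 4 * s / 3⟩

theorem S_K : S pK = pK := by
  apply Complex.ext <;>
    simp only [S, Homeomorph.mul_apply, X_apply, f_apply, aff_re, aff_im, pK, mu]
  · linear_combination (-2 / 3 + 2 / 3 * s) * s_sq
  · linear_combination (-1 / 3 * s) * s_sq

def gen : Fin 5 → (ℂ ≃ₜ ℂ) := ![M, N, R, X, f]

def word (l : List (Fin 5)) : ℂ ≃ₜ ℂ := l.foldr (fun i h => gen i * h) 1

def base : Set ℂ := {pC, pm, pm', pK}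

/-- The countable exceptional set. -/
def EE : Set ℂ := Set.range (fun p : List (Fin 5) × base => word p.1 (p.2 : ℂ))

theorem EE_countable : EE.Countable := by
  have : Countable base := (Set.Finite.countable (by unfold base; simp)).to_subtype
  exact Set.countable_range _

theorem EE_gen (i : Fin 5) {z : ℂ} (hz : z ∈ EE) : gen i z ∈ EE := by
  obtain ⟨⟨l, c⟩, rfl⟩ := hz
  exact ⟨⟨i :: l, c⟩, rfl⟩

theorem EE_M {z : ℂ} (hz : z ∈ EE) : M z ∈ EE := EE_gen 0 hz
theorem EE_N {z : ℂ} (hz : z ∈ EE) : N z ∈ EE := EE_gen 1 hz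
theorem EE_R {z : ℂ} (hz : z ∈ EE) : R z ∈ EE := EE_gen 2 hz
theorem EE_X {z : ℂ} (hz : z ∈ EE) : X z ∈ EE := EE_gen 3 hz
theorem EE_f {z : ℂ} (hz : z ∈ EE) : f z ∈ EE := EE_gen 4 hz
theorem EE_M' {z : ℂ} (hz : z ∈ EE) : M' z ∈ EE := by
  rw [Mp_eq]; exact EE_N (EE_R (EE_M hz))
theorem EE_g {z : ℂ} (hz : z ∈ EE) : g z ∈ EE := by
  rw [g_eq]; exact EE_X (EE_M (EE_f (EE_M' hz)))
theorem EE_S {z : ℂ} (hz : z ∈ EE) : S z ∈ EE := EE_X (EE_f hz)
theorem EE_C : pC ∈ EE := ⟨⟨[], ⟨pC, by simp [base]⟩⟩, rfl⟩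
theorem EE_m : pm ∈ EE := ⟨⟨[], ⟨pm, by simp [base]⟩⟩, rfl⟩
theorem EE_m' : pm' ∈ EE := ⟨⟨[], ⟨pm', by simp [base]⟩⟩, rfl⟩
theorem EE_K : pK ∈ EE := ⟨⟨[], ⟨pK, by simp [base]⟩⟩, rfl⟩

/-! ### The chord line -/

theorem chord_im {z : ℂ} (h : lam z = 0) : z.im = s * z.re / 3 + 2 * s / 3 + 2 := by
  unfold lam at h
  have : s * (s * z.im) = s * (z.re + 2 * s + 2) := by
    have : s * z.im = z.re + 2 * s + 2 := by linarith
    rw [this]
  linear_combination (1 / 3 : ℝ) * this + (2 / 3 - z.im / 3) * s_sq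

theorem chord_UW {z : ℂ} (h : lam z = 0) (h1 : 0 < z.re) (h2 : z.re < 1 + s) : z ∈ UW := by
  have e := chord_im h
  have hl := s_lo
  have hh := s_hi
  have p1 := mul_pos (show (0 : ℝ) < s by linarith) (sub_pos.2 h2)
  have p2 := mul_pos (show (0 : ℝ) < s by linarith) h1
  have := s_sq
  refine ⟨h1, ?_, ?_, ?_⟩ <;> rw [e] <;> nlinarith

theorem chord_UA {z : ℂ} (h : lam z = 0) (h1 : 0 < z.re) (h2 : z.re < 1) : z ∈ UA := by
  have e := chord_im h
  have hl := s_lo
  have hh := s_hi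
  have p1 := mul_pos (show (0 : ℝ) < s by linarith) (sub_pos.2 h2)
  have p2 := mul_pos (show (0 : ℝ) < s by linarith) h1
  have := s_sq
  refine ⟨h1, ?_, ?_, ?_⟩ <;> rw [e] <;> nlinarith

theorem chord_ext {z c : ℂ} (h : lam z = 0) (hc : lam c = 0) (e : z.re = c.re) : z = c := by
  apply Complex.ext e
  rw [chord_im h, chord_im hc, e]

theorem lam_C : lam pC = 0 := by
  simp only [lam, pC]; linear_combination (1 / 2 : ℝ) * s_sq
theorem lam_m : lam pm = 0 := by
  simp only [lam, pm]; linear_combination (1 / 3 : ℝ) * s_sq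
theorem lam_m' : lam pm' = 0 := by
  simp only [lam, pm']; linear_combination (1 / 2 : ℝ) * s_sq

/-- Classification of the points of the second curve. -/
theorem IsPair.class_W {a w : ℂ ≃ₜ ℂ} (p : IsPair a w) {z : ℂ} (hz : z ∈ UW) (h0 : sA w z = 0)
    (hE : z ∉ EE) : z ∈ UA ∨ z ∈ X '' UA ∨ z ∈ g '' UW := by
  by_contra hc
  push Not at hc
  obtain ⟨n1, n2, n3⟩ := hc
  have hl := s_lo
  have hh := s_hi
  have hw := p.w4 z n1 n2 n3
  unfold sA at h0
  rw [hw, sign_eq_zero_iff] at h0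
  have him := chord_im h0
  obtain ⟨h1, h2, h3, h4⟩ := hz
  have hlt : z.re < 1 + s := by
    rw [him] at h2
    nlinarith [s_sq]
  rcases lt_trichotomy z.re 1 with h | h | h
  · exact n1 (chord_UA h0 h1 h)
  · exact hE (by rw [chord_ext h0 lam_C h]; exact EE_C)
  rcases lt_trichotomy z.re 2 with h' | h' | h'
  · apply n2
    have e : X (X z) = z := DFunLike.congr_fun XX z
    refine ⟨X z, chord_UA (by rw [lam_X, h0, neg_zero]) ?_ ?_, e⟩ <;>
      simp only [X_apply, aff_re] <;> linarith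
  · apply hE
    have e : z = X pm := by
      apply chord_ext h0 (by rw [lam_X, lam_m, neg_zero])
      rw [h']; simp [X_apply, pm]
    rw [e]; exact EE_X EE_m
  · apply n3
    have e : g (g.symm z) = z := g.apply_symm_apply z
    have hr : (g.symm z).re = (z.re - 2) * (2 + s) := by
      show (2 + s) * z.re + 0 * z.im + -(2 + s) * 2 = _
      ring
    refine ⟨g.symm z, chord_UW ?_ ?_ ?_, e⟩
    · have := lam_g (g.symm z)
      rw [e, h0] at this
      have hm := mu_pos.ne'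
      rcases mul_eq_zero.1 this.symm with h | h
      · exact absurd h hm
      · exact h
    · rw [hr]; nlinarith
    · rw [hr]; nlinarith [s_sq]

/-! ### The sign identity on closed wedges -/

theorem sign_fQ {u : ℂ} (h1 : 0 ≤ u.re) (hD : lam u ≤ 0 → 0 < 1 + s - u.re) :
    SignType.sign (lam (kk (f u))) = -SignType.sign (lam u) := by
  have hl := s_lo
  have hh := s_hi
  have hs0 : 0 < s := by linarith
  have hm := mu_pos
  have hc5 : c5 (f u) = mu * u.re := by
    simp only [c5, f_apply, aff_re, aff_im, mu]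
    linear_combination ((-1/4)*s*u.re + (1/2)*u.re) * s_sq
  have e5 : lam (f u) + c5 (f u) = mu * (-lam u) + 0 * (1 + s - u.re) := by
    simp only [lam, c5, f_apply, aff_re, aff_im, mu]
    linear_combination (1 : ℝ) * s_sq
  have hle : dd (f u) ≤ c5 (f u) :=
    max_le (by rw [hc5]; positivity) ((min_le_right _ _).trans (min_le_right _ _))
  have e1 : lam (f u) + c1 (f u) = 0 * (-lam u) + mu * (1 + s - u.re) := by
    simp only [lam, c1, f_apply, aff_re, aff_im, mu]
    linear_combination (1 + (1/4)*s*u.re + (-1/2)*u.re) * s_sq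
  have e2 : lam (f u) + c2 (f u) =
      (1 + s) / 2 * mu * (1 + s / 3) * (-lam u) + (1 + s) / 2 * mu * (2 * s / 3) * (1 + s - u.re) := by
    simp only [lam, c2, f_apply, aff_re, aff_im, mu]
    linear_combination ((1/2)*s + (1/12)*s*u.im + (1/2)*s^2 + (-1/12)*s^2*u.im + (1/6)*u.im) * s_sq
  have e3 : lam (f u) + c3 (f u) =
      mu * ((1 - s / 3 + (1 + s)) / 2) * (-lam u) + (1 - s / 3) * mu * (1 + s - u.re) := by
    simp only [lam, c3, f_apply, aff_re, aff_im, mu]
    linear_combination (2 + (1/4)*s*u.re + (1/12)*s*u.im + (-1/2)*u.re + (-1/6)*u.im) * s_sq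
  have hs3 : 0 < 1 - s / 3 := by linarith
  refine sign_aux hD (by linarith) e1 e2 e3 e5 ?_ ?_ ?_ ?_ ?_ ?_ ?_ ?_ ?_ ?_ ?_ ?_ <;>
    positivity

theorem sign_fM'Q {u : ℂ} (h1 : 0 ≤ u.re) (hD : lam u ≤ 0 → 0 < 1 + s - u.re) :
    SignType.sign (lam (kk (f (M' u)))) = -SignType.sign (lam u) := by
  have hl := s_lo
  have hh := s_hi
  have hs0 : 0 < s := by linarith
  have hm := mu_pos
  have hc1 : c1 (f (M' u)) = mu * u.re := by
    simp only [c1, f_apply, M'_apply, aff_re, aff_im, mu]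
    linear_combination ((-1/4)*s*u.re + (1/2)*u.re) * s_sq
  have e1 : lam (f (M' u)) + c1 (f (M' u)) = mu * (-lam u) + 0 * (1 + s - u.re) := by
    simp only [lam, c1, f_apply, M'_apply, aff_re, aff_im, mu]
    linear_combination (1 + (-1/8)*s*u.re + (-1/4)*s*u.im + (1/8)*s^2*u.im + (1/4)*u.re) * s_sq
  have hle : dd (f (M' u)) ≤ c1 (f (M' u)) :=
    max_le (by rw [hc1]; positivity) ((min_le_left _ _).trans (min_le_left _ _))
  have e5 : lam (f (M' u)) + c5 (f (M' u)) = 0 * (-lam u) + mu * (1 + s - u.re) := by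
    simp only [lam, c5, f_apply, M'_apply, aff_re, aff_im, mu]
    linear_combination (1 + (1/4)*s*u.re + (-1/2)*u.re) * s_sq
  have e2 : lam (f (M' u)) + c2 (f (M' u)) =
      (1 + s) / 2 * mu * (2 * s / 3) * (-lam u) + (1 + s) / 2 * mu * (1 + s / 3) * (1 + s - u.re) := by
    simp only [lam, c2, f_apply, M'_apply, aff_re, aff_im, mu]
    linear_combination ((1/2)*s + (-1/8)*s*u.re + (1/24)*s*u.im + (1/2)*s^2 + (1/8)*s^2*u.re + (-1/24)*s^2*u.im + (-1/4)*u.re + (1/12)*u.im) * s_sq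
  have e3 : lam (f (M' u)) + c3 (f (M' u)) =
      (s - 1) * mu * (s / 3) * (-lam u) + ((s - 1) * mu * (s / 3) + (1 + s) * mu) / 2 * (1 + s - u.re) := by
    simp only [lam, c3, f_apply, M'_apply, aff_re, aff_im, mu]
    linear_combination (1 + (-1/2)*s + (-1/8)*s*u.re + (1/8)*s*u.im + (1/2)*s^2 + (1/8)*s^2*u.re + (-1/24)*s^2*u.im + (-1/4)*u.re + (-1/12)*u.im) * s_sq
  have hs1 : 0 < s - 1 := by linarith
  refine sign_aux hD (by linarith) e1 e2 e3 e5 ?_ ?_ ?_ ?_ ?_ ?_ ?_ ?_ ?_ ?_ ?_ ?_ <;>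
    positivity

theorem D_pos' {u : ℂ} (h1 : 0 ≤ u.re) (h2 : s * u.re < u.im) (hL : lam u ≤ 0) :
    0 < 1 + s - u.re := by
  have hl := s_lo
  have := mul_pos (show (0 : ℝ) < s by linarith) (sub_pos.2 h2)
  unfold lam at hL
  nlinarith [s3 u.re]

theorem f_inj_eq {t z : ℂ} : f (f.symm z) = z := f.apply_symm_apply z

theorem f_m' : M' pm' = pm' := by
  apply Complex.ext <;> simp only [M'_apply, aff_re, aff_im, pm']
  · linear_combination (1 / 2 : ℝ) * s_sq
  · linear_combination (1 / 2 : ℝ) * s_sq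

theorem c1_fM' (u : ℂ) : c1 (f (M' u)) = mu * u.re := by
  simp only [c1, f_apply, M'_apply, aff_re, aff_im, mu]
  linear_combination ((-1/4)*s*u.re + (1/2)*u.re) * s_sq

/-- Classification of the points of the first curve. -/
theorem IsPair.class_A {a w : ℂ ≃ₜ ℂ} (p : IsPair a w) {z : ℂ} (hz : z ∈ UA) (h0 : sA a z = 0)
    (hE : z ∉ EE) : z ∈ (f * M') '' UW ∨ z ∈ f '' UW ∨ z ∈ (f * M) '' UA := by
  by_contra hc
  push Not at hc
  obtain ⟨n1, n2, n3⟩ := hc
  have hl := s_lo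
  have hh := s_hi
  have hm := mu_pos
  have ha := p.a4 z n1 n2 n3
  unfold sA at h0
  rw [ha] at h0
  have hz0 := hz
  obtain ⟨h1, h2, h3, h4⟩ := hz
  set t := f.symm z with ht
  have hft : f t = z := f.apply_symm_apply z
  rw [← hft] at h0
  rcases lt_trichotomy t.re 0 with hr | hr | hr
  · -- the right mirror side
    have hc5 : c5 (f t) = mu * t.re := by
      simp only [c5, f_apply, aff_re, aff_im, mu]
      linear_combination ((-1/4)*s*t.re + (1/2)*t.re) * s_sq
    have hd : dd (f t) = 0 := by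
      by_contra hne
      have hpos : 0 < dd (f t) := lt_of_le_of_ne (dd_nonneg _) (Ne.symm hne)
      have := (dd_pos hpos).2.2.2
      rw [hc5] at this
      nlinarith
    rw [lam_kk, hd, add_zero, sign_eq_zero_iff] at h0
    apply n3
    have hMt : M (M t) = t := DFunLike.congr_fun MM t
    have e : (f * M) (M t) = z := by
      show f (M (M t)) = z
      rw [hMt, hft]
    have hlam : lam (M t) = 0 := by
      have := lam_fM (M t)
      rw [hMt, h0] at this
      have h' : mu * lam (M t) = 0 := by linarith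
      rcases mul_eq_zero.1 h' with h | h
      · exact absurd h hm.ne'
      · exact h
    refine ⟨M t, chord_UA hlam ?_ ?_, e⟩
    · simp only [M_apply, aff_re]; linarith
    · -- `z.re < 1`
      have hzre : z.re < 1 := by
        have him := chord_im (z := z) (by rw [← hft]; exact h0)
        rw [him] at h3
        nlinarith [s_sq]
      have him := chord_im hlam
      have hre : (f (M (M t))).re = z.re := by rw [hMt, hft]
      simp only [f_apply, aff_re] at hre
      simp only [M_apply, aff_re, aff_im] at hre him ⊢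
      by_contra hc
      push Not at hc
      have e3 : mu * s = 2 * s - 3 := by unfold mu; linarith [s_sq]
      rw [show (0 : ℝ) * t.re + 1 * t.im + 0 = t.im by ring] at him
      rw [him] at hre
      have e4 : mu * s * s = 6 - 3 * s := by unfold mu; linear_combination (2 - s) * s_sq
      unfold mu at hre
      nlinarith [s_sq, s3 t.re]
  · -- the point `f m`
    have hc5 : c5 (f t) = mu * t.re := by
      simp only [c5, f_apply, aff_re, aff_im, mu]
      linear_combination ((-1/4)*s*t.re + (1/2)*t.re) * s_sq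
    have hd : dd (f t) = 0 := by
      by_contra hne
      have hpos : 0 < dd (f t) := lt_of_le_of_ne (dd_nonneg _) (Ne.symm hne)
      have := (dd_pos hpos).2.2.2
      rw [hc5, hr] at this
      linarith
    rw [lam_kk, hd, add_zero, sign_eq_zero_iff] at h0
    have e5 : lam (f t) + c5 (f t) = mu * (-lam t) + 0 * (1 + s - t.re) := by
      simp only [lam, c5, f_apply, aff_re, aff_im, mu]
      linear_combination (1 : ℝ) * s_sq
    rw [h0, hc5, hr] at e5
    have hlt : lam t = 0 := by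
      have h' : mu * lam t = 0 := by linarith
      rcases mul_eq_zero.1 h' with h | h
      · exact absurd h hm.ne'
      · exact h
    apply hE
    have : t = pm := chord_ext hlt lam_m (by rw [hr]; rfl)
    rw [← hft, this]
    exact EE_f EE_m
  · rcases lt_trichotomy t.im (s * t.re) with hi | hi | hi
    · -- left part
      have hMt : M' (M' t) = t := DFunLike.congr_fun MpMp t
      have hre : 0 < (M' t).re := by
        have e1 := c1_fM' (M' t)
        rw [hMt, hft] at e1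
        have : 0 < mu * (M' t).re := by rw [← e1]; exact h1
        exact (mul_pos_iff_of_pos_left hm).1 this
      have him : s * (M' t).re < (M' t).im := by
        simp only [M'_apply, aff_re, aff_im]
        nlinarith [s3 t.im]
      have hD := D_pos' hre.le him
      have := sign_fM'Q hre.le hD
      rw [hMt, h0] at this
      have hL : lam (M' t) = 0 := by
        rw [← sign_eq_zero_iff]
        have h' := congrArg (fun x => -x) this
        simpa using h'.symm
      apply n1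
      refine ⟨M' t, chord_UW hL hre (by linarith [hD hL.le]), ?_⟩
      show f (M' (M' t)) = z
      rw [hMt, hft]
    · -- the mirror line
      have hlam : lam t = t.re - (1 + s) := by
        unfold lam; rw [hi]; linear_combination (t.re / 2) * s_sq
      by_cases hD : lam t ≤ 0 → 0 < 1 + s - t.re
      · have := sign_fQ hr.le hD
        rw [h0] at this
        have hL : lam t = 0 := by
          rw [← sign_eq_zero_iff]
          have h' := congrArg (fun x => -x) this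
          simpa using h'.symm
        have := hD hL.le
        linarith
      · push Not at hD
        obtain ⟨q1, q2⟩ := hD
        have hre : t.re = 1 + s := by linarith
        apply hE
        have : t = pm' := by
          apply Complex.ext
          · rw [hre]; rfl
          · rw [hi, hre]; show s * (1 + s) = 3 + s; linarith [s_sq]
        rw [← hft, this]
        exact EE_f EE_m'
    · -- middle part
      have hD := D_pos' hr.le hi
      have := sign_fQ hr.le hD
      rw [h0] at this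
      have hL : lam t = 0 := by
        rw [← sign_eq_zero_iff]
        have h' := congrArg (fun x => -x) this
        simpa using h'.symm
      apply n2
      exact ⟨t, chord_UW hL hr (by linarith [hD hL.le]), hft⟩

/-! ### The rotation `kap` -/

theorem S_UW {z : ℂ} (hz : z ∈ UW) : S z ∈ UW := X_UA (f_UW hz)

theorem IsPair.sS {a w : ℂ ≃ₜ ℂ} (p : IsPair a w) {z : ℂ} (hz : z ∈ UW) : sA w (S z) = sA w z := by
  show sA w (X (f z)) = _
  rw [p.R2 (f_UW hz), p.R4 hz, neg_neg]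

/-- The good set at level zero. -/
def KZ : Set ℂ := g '' UW ∪ ((X * f * M') '' UA ∪ ((X * f * M' * X) '' UA ∪ (X * f * M' * g) '' UW))

def KS (n : ℕ) : Set ℂ := (S ^ n) '' KZ

theorem isOpen_KS (n : ℕ) : IsOpen (KS n) := by
  refine (S ^ n).isOpenMap _ ?_
  refine (g.isOpenMap _ isOpen_UW).union (((X * f * M').isOpenMap _ isOpen_UA).union
    (((X * f * M' * X).isOpenMap _ isOpen_UA).union ((X * f * M' * g).isOpenMap _ isOpen_UW)))

theorem IsPair.KZ_prop {a w : ℂ ≃ₜ ℂ} (p : IsPair a w) {u : ℂ} (hu : u ∈ KZ) :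
    u ∈ UW ∧ kap u ∈ UW ∧ sA w (kap u) = -sA w u := by
  rcases hu with ⟨t, ht, rfl⟩ | ⟨t, ht, rfl⟩ | ⟨t, ht, rfl⟩ | ⟨t, ht, rfl⟩
  · have e : kap (g t) = f t := DFunLike.congr_fun kap_g t
    rw [e]
    refine ⟨g_UW ht, UA_sub (f_UW ht), ?_⟩
    rw [p.R1 (f_UW ht), p.R4 ht, p.R3 ht]
  · have e : kap ((X * f * M') t) = f (M t) := DFunLike.congr_fun kap_XfM t
    rw [e]
    have ht' := UA_sub ht
    refine ⟨X_UA (fM'_UW ht'), UA_sub (fM_UA ht), ?_⟩
    show _ = -sA w (X (f (M' t)))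
    rw [p.R1 (fM_UA ht), p.R6 ht, p.R2 (fM'_UW ht'), p.R5 ht', p.R1 ht, neg_neg]
  · have e : kap ((X * f * M' * X) t) = X (f (M t)) := DFunLike.congr_fun kap_XfMX t
    rw [e]
    have ht' := X_UA ht
    refine ⟨X_UA (fM'_UW ht'), X_UA (fM_UA ht), ?_⟩
    show _ = -sA w (X (f (M' (X t))))
    rw [p.R2 (fM_UA ht), p.R6 ht, p.R2 (fM'_UW ht'), p.R5 ht', p.R2 ht, neg_neg, neg_neg]
  · have e : kap ((X * f * M' * g) t) = S (f (M' t)) := DFunLike.congr_fun kap_XfMg t
    rw [e]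
    have ht' := g_UW ht
    have h3 := fM'_UW ht
    refine ⟨X_UA (fM'_UW ht'), S_UW (UA_sub h3), ?_⟩
    show _ = -sA w (X (f (M' (g t))))
    rw [p.sS (UA_sub h3), p.R1 h3, p.R5 ht, p.R2 (fM'_UW ht'), p.R5 ht', p.R3 ht, neg_neg]

theorem KS_succ (n : ℕ) : KS (n + 1) = S '' KS n := by
  unfold KS
  rw [pow_succ', Set.image_image]
  rfl

theorem IsPair.KS_prop {a w : ℂ ≃ₜ ℂ} (p : IsPair a w) (n : ℕ) : ∀ u ∈ KS n,
    u ∈ UW ∧ kap u ∈ UW ∧ sA w (kap u) = -sA w u := by
  induction n with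
  | zero =>
    intro u hu
    have : KS 0 = KZ := by unfold KS; simp
    rw [this] at hu
    exact p.KZ_prop hu
  | succ n ih =>
    intro u hu
    rw [KS_succ] at hu
    obtain ⟨t, ht, rfl⟩ := hu
    obtain ⟨h1, h2, h3⟩ := ih t ht
    have e : kap (S t) = S (kap t) := DFunLike.congr_fun kap_S t
    rw [e]
    exact ⟨S_UW h1, S_UW h2, by rw [p.sS h2, p.sS h1, h3]⟩

def Good (z : ℂ) : Prop := z ∈ (f * M') '' UW ∨ (∃ n, z ∈ KS n) ∨ (∃ n, z ∈ kap '' KS n)

theorem KS_zero : KS 0 = KZ := by unfold KS; simp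

theorem IsPair.good0 {a w : ℂ ≃ₜ ℂ} (p : IsPair a w) {z : ℂ} (hz : z ∈ UW) (h0 : sA w z = 0)
    (hE : z ∉ EE) (hS : z ∉ S '' UW) : Good z := by
  rcases p.class_W hz h0 hE with h | ⟨y, hy, rfl⟩ | h
  · have h0' : sA a z = 0 := by rw [← p.R1 h]; exact h0
    rcases p.class_A h h0' hE with h' | ⟨t, ht, rfl⟩ | ⟨t, ht, rfl⟩
    · exact Or.inl h'
    · refine Or.inr (Or.inr ⟨0, g t, ?_, DFunLike.congr_fun kap_g t⟩)
      rw [KS_zero]; exact Or.inl ⟨t, ht, rfl⟩
    · refine Or.inr (Or.inr ⟨0, (X * f * M') t, ?_, DFunLike.congr_fun kap_XfM t⟩)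
      rw [KS_zero]; exact Or.inr (Or.inl ⟨t, ht, rfl⟩)
  · have h0' : sA a y = 0 := by
      have := p.R2 hy
      rw [h0] at this
      have h' := congrArg (fun x => -x) this
      simpa using h'.symm
    have hE' : y ∉ EE := fun h => hE (EE_X h)
    rcases p.class_A hy h0' hE' with ⟨t, ht, rfl⟩ | ⟨t, ht, rfl⟩ | ⟨t, ht, rfl⟩
    · have h0t : sA w t = 0 := by
        have := p.R5 ht
        have h0'' : sA a (f (M' t)) = 0 := h0'
        rw [h0''] at this
        have h' := congrArg (fun x => -x) this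
        simpa using h'.symm
      have hEt : t ∉ EE := fun h => hE' (EE_f (EE_M' h))
      refine Or.inr (Or.inl ⟨0, ?_⟩)
      rw [KS_zero]
      rcases p.class_W ht h0t hEt with h | ⟨r, hr, rfl⟩ | ⟨r, hr, rfl⟩
      · exact Or.inr (Or.inl ⟨t, h, rfl⟩)
      · exact Or.inr (Or.inr (Or.inl ⟨r, hr, rfl⟩))
      · exact Or.inr (Or.inr (Or.inr ⟨r, hr, rfl⟩))
    · exact absurd ⟨t, ht, rfl⟩ hS
    · refine Or.inr (Or.inr ⟨0, (X * f * M' * X) t, ?_, DFunLike.congr_fun kap_XfMX t⟩)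
      rw [KS_zero]; exact Or.inr (Or.inr (Or.inl ⟨t, ht, rfl⟩))
  · refine Or.inr (Or.inl ⟨0, ?_⟩)
    rw [KS_zero]; exact Or.inl h

theorem good_S {t : ℂ} (h : Good t) : Good (S t) := by
  rcases h with ⟨r, hr, rfl⟩ | ⟨n, hn⟩ | ⟨n, u, hu, rfl⟩
  · refine Or.inr (Or.inr ⟨0, (X * f * M' * g) r, ?_, DFunLike.congr_fun kap_XfMg r⟩)
    rw [KS_zero]; exact Or.inr (Or.inr (Or.inr ⟨r, hr, rfl⟩))
  · exact Or.inr (Or.inl ⟨n + 1, by rw [KS_succ]; exact ⟨t, hn, rfl⟩⟩)
  · refine Or.inr (Or.inr ⟨n + 1, S u, ?_, DFunLike.congr_fun kap_S u⟩)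
    rw [KS_succ]; exact ⟨u, hu, rfl⟩

theorem IsPair.good {a w : ℂ ≃ₜ ℂ} (p : IsPair a w) {z : ℂ} (hz : z ∈ UW) (h0 : sA w z = 0)
    (hE : z ∉ EE) : Good z := by
  by_contra hg
  have key : ∀ n : ℕ, ∃ t ∈ UW, sA w t = 0 ∧ t ∉ EE ∧ ¬ Good t ∧ (S ^ n) t = z := by
    intro n
    induction n with
    | zero => exact ⟨z, hz, h0, hE, hg, rfl⟩
    | succ n ih =>
      obtain ⟨t, ht, t0, tE, tg, e⟩ := ih
      have : t ∈ S '' UW := by
        by_contra hc
        exact tg (p.good0 ht t0 tE hc)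
      obtain ⟨r, hr, rfl⟩ := this
      refine ⟨r, hr, by rw [← p.sS hr]; exact t0, fun h => tE (EE_S h),
        fun h => tg (good_S h), ?_⟩
      rw [pow_succ]
      exact e
  have hK : ∀ n : ℕ, (S ^ n) pK = pK := by
    intro n
    induction n with
    | zero => rfl
    | succ n ih =>
      rw [pow_succ]
      show (S ^ n) (S pK) = pK
      rw [S_K, ih]
  have hdist : ∀ n : ℕ, ∀ x y : ℂ, ‖(S ^ n) x - (S ^ n) y‖ = mu ^ n * ‖x - y‖ := by
    intro n
    induction n with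
    | zero => intro x y; simp
    | succ n ih =>
      intro x y
      rw [pow_succ]
      show ‖(S ^ n) (S x) - (S ^ n) (S y)‖ = _
      rw [ih, dil_S, pow_succ]
      ring
  have hle : ∀ n : ℕ, ‖z - pK‖ ≤ mu ^ n * (9 + ‖pK‖) := by
    intro n
    obtain ⟨t, ht, -, -, -, e⟩ := key n
    have := hdist n t pK
    rw [e, hK] at this
    rw [this]
    have h9 := UW_norm ht
    exact mul_le_mul_of_nonneg_left ((norm_sub_le _ _).trans (by linarith))
      (pow_nonneg mu_pos.le n)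
  have hlim : Tendsto (fun n : ℕ => mu ^ n * (9 + ‖pK‖)) atTop (𝓝 0) := by
    have := (tendsto_pow_atTop_nhds_zero_of_lt_one mu_pos.le
      (by have := mu_lt; linarith : mu < 1)).mul_const (9 + ‖pK‖)
    simpa using this
  have : ‖z - pK‖ ≤ 0 := ge_of_tendsto' hlim hle
  have hzK : z = pK := by
    rw [← sub_eq_zero]; exact norm_le_zero_iff.1 this
  exact hE (hzK ▸ EE_K)

/-! ### Neighbours -/

def v0 : ℂ := ⟨2, 4 + 2 * s⟩

/-- The six neighbour vectors. -/
def Nb : Set ℂ :=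
  {v | v = v0 ∨ v = N v0 ∨ v = R v0 ∨ v = N (R v0) ∨ v = R (R v0) ∨ v = N (R (R v0))}

theorem lin_N (u v : ℂ) : N (u - v) = N u - N v := by
  apply Complex.ext <;> simp only [N_apply, aff_re, aff_im, Complex.sub_re, Complex.sub_im] <;> ring
theorem lin_R (u v : ℂ) : R (u - v) = R u - R v := by
  apply Complex.ext <;> simp only [R_apply, aff_re, aff_im, Complex.sub_re, Complex.sub_im] <;> ring
theorem lin_M (u v : ℂ) : M (u - v) = M u - M v := by
  apply Complex.ext <;> simp only [M_apply, aff_re, aff_im, Complex.sub_re, Complex.sub_im] <;> ring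
theorem lin_M' (u v : ℂ) : M' (u - v) = M' u - M' v := by
  apply Complex.ext <;> simp only [M'_apply, aff_re, aff_im, Complex.sub_re, Complex.sub_im] <;> ring

theorem N_N (z : ℂ) : N (N z) = z := DFunLike.congr_fun NN z
theorem M_M (z : ℂ) : M (M z) = z := DFunLike.congr_fun MM z
theorem M'_M' (z : ℂ) : M' (M' z) = z := DFunLike.congr_fun MpMp z
theorem X_X (z : ℂ) : X (X z) = z := DFunLike.congr_fun XX z
theorem R_R_R (z : ℂ) : R (R (R z)) = z := DFunLike.congr_fun RRR z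
theorem N_R (z : ℂ) : N (R z) = R (N z) := DFunLike.congr_fun NR z
theorem N_M (z : ℂ) : N (M z) = M (N z) := DFunLike.congr_fun NM z
theorem M_R (z : ℂ) : M (R z) = R (R (M z)) := DFunLike.congr_fun MR z

theorem X_eq (u : ℂ) : X u = N (u - v0) := by
  apply Complex.ext <;>
    simp only [X_apply, N_apply, aff_re, aff_im, Complex.sub_re, Complex.sub_im, v0] <;> ring

theorem sP_v0 {w : ℂ ≃ₜ ℂ} (hw : Supp w UW) (u : ℂ) : sP w (u - v0) = sP w (X u) := by
  rw [X_eq, sP_N hw]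

def Part (w : ℂ ≃ₜ ℂ) (z : ℂ) : Prop :=
  ∃ v ∈ Nb, ∀ᶠ u in 𝓝 z, sP w (u - v) = -sP w u

theorem part_N {w : ℂ ≃ₜ ℂ} (hw : Supp w UW) {z : ℂ} (h : Part w (N z)) : Part w z := by
  obtain ⟨v, hv, h⟩ := h
  refine ⟨N v, ?_, ?_⟩
  · rcases hv with rfl | rfl | rfl | rfl | rfl | rfl
    · exact Or.inr (Or.inl rfl)
    · rw [N_N]; exact Or.inl rfl
    · exact Or.inr (Or.inr (Or.inr (Or.inl rfl)))
    · rw [N_N]; exact Or.inr (Or.inr (Or.inl rfl))
    · exact Or.inr (Or.inr (Or.inr (Or.inr (Or.inr rfl))))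
    · rw [N_N]; exact Or.inr (Or.inr (Or.inr (Or.inr (Or.inl rfl))))
  · have ht : Tendsto (fun u => N u) (𝓝 z) (𝓝 (N z)) := N.continuous.tendsto z
    filter_upwards [ht.eventually h] with u hu
    have e : u - N v = N (N u - v) := by rw [lin_N, N_N]
    rw [e, sP_N hw, hu, sP_N hw]

theorem part_R {w : ℂ ≃ₜ ℂ} (hw : Supp w UW) {z : ℂ} (h : Part w (R z)) : Part w z := by
  obtain ⟨v, hv, h⟩ := h
  refine ⟨R (R v), ?_, ?_⟩
  · rcases hv with rfl | rfl | rfl | rfl | rfl | rfl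
    · exact Or.inr (Or.inr (Or.inr (Or.inr (Or.inl rfl))))
    · rw [← N_R, ← N_R]; exact Or.inr (Or.inr (Or.inr (Or.inr (Or.inr rfl))))
    · rw [R_R_R]; exact Or.inl rfl
    · rw [← N_R, ← N_R, R_R_R]; exact Or.inr (Or.inl rfl)
    · rw [R_R_R]; exact Or.inr (Or.inr (Or.inl rfl))
    · rw [← N_R, ← N_R, R_R_R]; exact Or.inr (Or.inr (Or.inr (Or.inl rfl)))
  · have ht : Tendsto (fun u => R u) (𝓝 z) (𝓝 (R z)) := R.continuous.tendsto z
    filter_upwards [ht.eventually h] with u hu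
    have e : R (u - R (R v)) = R u - v := by rw [lin_R, R_R_R]
    rw [← sP_R hw (u - R (R v)), e, hu, sP_R hw]

theorem B2_Q {w : ℂ ≃ₜ ℂ} (hw : Supp w UW) {z : ℂ} (h1 : 0 ≤ z.re) (h2 : s * z.re ≤ z.im)
    (h3 : z ∉ UW) : B2 w z = z := by
  have t := triR hw
  have hl := s_lo
  have hh := s_hi
  have hx : 0 ≤ s * z.re := by positivity
  have hge : 3 * (z.re * z.re) ≤ z.im * z.im := by nlinarith [s3 (z.re * z.re)]
  by_cases hV : z ∈ VV
  · have hV' : 3 * (z.re * z.re) < z.im * z.im := hV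
    have hlt : s * z.re < z.im := by
      by_contra hc
      push Not at hc
      have : z.im = s * z.re := le_antisymm hc h2
      rw [this] at hV'
      nlinarith [s3 (z.re * z.re)]
    have h0 : z ∈ V0 := ⟨hlt, by linarith⟩
    have a1 : B2 w z = B1 w z := t.ap1 hV
    have a2 : B1 w z = B0 w z := (suppB0 hw).mul_left ((suppB0 hw).conj N) dN h0
    have a3 : B0 w z = z := by
      refine (hw.mul (hw.conj M)) z ?_
      rintro (h | ⟨v, ⟨k1, k2, k3, k4⟩, rfl⟩)
      · exact h3 h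
      · simp only [M_apply, aff_re] at h1
        linarith
    rw [a1, a2, a3]
  · refine t.supp z ?_
    rintro (h | ⟨v, k, rfl⟩ | ⟨v, k, rfl⟩)
    · exact hV h
    · have k' : 3 * (v.re * v.re) < v.im * v.im := k
      simp only [R_apply, aff_re, aff_im] at hge
      have t1 := s3 (v.re * v.re)
      have t2 := s3 (v.im * v.im)
      nlinarith [sq_nonneg (v.im + s * v.re)]
    · have k' : 3 * (v.re * v.re) < v.im * v.im := k
      have e1 : (R (R v)).re = -1 / 2 * v.re + s / 2 * v.im := by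
        simp only [R_apply, aff_re, aff_im]; linear_combination (-v.re / 4) * s_sq
      have e2 : (R (R v)).im = -s / 2 * v.re - 1 / 2 * v.im := by
        simp only [R_apply, aff_re, aff_im]; linear_combination (-v.im / 4) * s_sq
      have hge' : 3 * ((R (R v)).re * (R (R v)).re) ≤ (R (R v)).im * (R (R v)).im := hge
      rw [e1, e2] at hge'
      have t1 := s3 (v.re * v.re)
      have t2 := s3 (v.im * v.im)
      nlinarith [sq_nonneg (v.im - s * v.re)]

theorem mem_UW_of {w : ℂ ≃ₜ ℂ} (hw : Supp w UW) {z : ℂ} (h1 : 0 ≤ z.re) (h2 : s * z.re ≤ z.im)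
    (h0 : sP w z = 0) (hE : z ∉ EE) : z ∈ UW := by
  by_contra hc
  have hB := B2_Q hw h1 h2 hc
  unfold sP at h0
  rw [hB, sign_eq_zero_iff, phi_Q h1 h2] at h0
  have hl : lam z = 0 := by unfold lam; linarith
  have him := chord_im hl
  have hle : z.re ≤ 1 + s := by
    rw [him] at h2
    nlinarith [s_sq, s_lo, s_hi]
  rcases h1.lt_or_eq with h | h
  · rcases hle.lt_or_eq with h' | h'
    · exact hc (chord_UW hl h h')
    · exact hE (by rw [chord_ext hl lam_m' (by rw [h']; rfl)]; exact EE_m')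
  · exact hE (by rw [chord_ext hl lam_m (by rw [← h]; rfl)]; exact EE_m)

/-- Opposite signs across the point reflection. -/
theorem IsPair.oppX {a w : ℂ ≃ₜ ℂ} (p : IsPair a w) {u : ℂ}
    (hu : u ∈ UA ∪ (X '' UA ∪ g '' UW)) : sP w (X u) = -sP w u := by
  have hw := p.sw
  rcases hu with h | ⟨t, h, rfl⟩ | ⟨t, h, rfl⟩
  · rw [sP_UW hw (X_UA h), sP_UW hw (UA_sub h), p.R2 h, p.R1 h]
  · rw [X_X, sP_UW hw (X_UA h), sP_UW hw (UA_sub h), p.R2 h, p.R1 h, neg_neg]
  · have e : X (g t) = M (f (M' t)) := by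
      rw [g_eq]
      show X (X (M (f (M' t)))) = _
      rw [X_X]
    rw [e, sP_M hw, sP_UW hw (UA_sub (fM'_UW h)), sP_UW hw (g_UW h), p.R1 (fM'_UW h), p.R5 h,
      p.R3 h]

theorem IsPair.partQ {a w : ℂ ≃ₜ ℂ} (p : IsPair a w) {z : ℂ} (hz : z ∈ UW) (h0 : sA w z = 0)
    (hE : z ∉ EE) : Part w z ∧ Part w (M z) := by
  have hw := p.sw
  constructor
  · refine ⟨v0, Or.inl rfl, ?_⟩
    have hO : IsOpen (UA ∪ (X '' UA ∪ g '' UW)) :=
      isOpen_UA.union ((X.isOpenMap _ isOpen_UA).union (g.isOpenMap _ isOpen_UW))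
    have hm : z ∈ UA ∪ (X '' UA ∪ g '' UW) := by
      rcases p.class_W hz h0 hE with h | h | h
      · exact Or.inl h
      · exact Or.inr (Or.inl h)
      · exact Or.inr (Or.inr h)
    filter_upwards [hO.mem_nhds hm] with u hu
    rw [sP_v0 hw, p.oppX hu]
  · rcases p.good hz h0 hE with h | ⟨n, h⟩ | ⟨n, h⟩
    · refine ⟨v0, Or.inl rfl, ?_⟩
      have hO : IsOpen (M '' ((f * M') '' UW)) :=
        M.isOpenMap _ ((f * M').isOpenMap _ isOpen_UW)
      filter_upwards [hO.mem_nhds ⟨z, h, rfl⟩] with u hu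
      obtain ⟨_, ⟨t, ht, rfl⟩, rfl⟩ := hu
      have e : X (M ((f * M') t)) = g t := by rw [g_eq]; rfl
      rw [sP_v0 hw, e, sP_M hw]
      show _ = -sP w (f (M' t))
      rw [sP_UW hw (g_UW ht), sP_UW hw (UA_sub (fM'_UW ht)), p.R3 ht, p.R1 (fM'_UW ht), p.R5 ht,
        neg_neg]
    · refine ⟨N (R (R v0)), Or.inr (Or.inr (Or.inr (Or.inr (Or.inr rfl)))), ?_⟩
      have hO : IsOpen (M '' KS n) := M.isOpenMap _ (isOpen_KS n)
      filter_upwards [hO.mem_nhds ⟨z, h, rfl⟩] with u hu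
      obtain ⟨t, ht, rfl⟩ := hu
      obtain ⟨q1, q2, q3⟩ := p.KS_prop n t ht
      have e0 : M (M' v0) = N (R (R v0)) := by
        rw [Mp_eq]
        show M (N (R (M v0))) = _
        rw [← N_M, M_R, M_M]
      have e1 : sP w (M t - N (R (R v0))) = sP w (kap t) := by
        rw [← e0, ← lin_M, sP_M hw]
        show _ = sP w (M (X (M' t)))
        rw [sP_M hw, X_eq, sP_N hw, ← sP_M' hw (t - M' v0), lin_M', M'_M']
      rw [e1, sP_M hw, sP_UW hw q2, sP_UW hw q1, q3]
    · refine ⟨v0, Or.inl rfl, ?_⟩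
      have hO : IsOpen (M '' (kap '' KS n)) := M.isOpenMap _ (kap.isOpenMap _ (isOpen_KS n))
      filter_upwards [hO.mem_nhds ⟨z, h, rfl⟩] with u hu
      obtain ⟨_, ⟨t, ht, rfl⟩, rfl⟩ := hu
      obtain ⟨q1, q2, q3⟩ := p.KS_prop n t ht
      have e : X (M (kap t)) = M' t := by
        show X (M (M (X (M' t)))) = M' t
        rw [M_M, X_X]
      rw [sP_v0 hw, e, sP_M' hw, sP_M hw, sP_UW hw q2, sP_UW hw q1, q3, neg_neg]

theorem IsPair.partner {a w : ℂ ≃ₜ ℂ} (p : IsPair a w) {z : ℂ} (h0 : sP w z = 0)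
    (hE : z ∉ EE) : Part w z := by
  have hw := p.sw
  have key : ∀ z : ℂ, sP w z = 0 → z ∉ EE → (Part w z ∧ Part w (M z)) := by
    apply fold_ind
    · intro z ih h0 hE
      have := ih (by rw [sP_M hw]; exact h0) (fun h => hE (by have := EE_M h; rwa [M_M] at this))
      rw [M_M] at this
      exact this.symm
    · intro z ih h0 hE
      have := ih (by rw [sP_N hw]; exact h0) (fun h => hE (by have := EE_N h; rwa [N_N] at this))
      rw [← N_M] at this
      exact ⟨part_N hw this.1, part_N hw this.2⟩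
    · intro z ih h0 hE
      have := ih (by rw [sP_R hw]; exact h0)
        (fun h => hE (by have := EE_R (EE_R h); rwa [R_R_R] at this))
      rw [M_R] at this
      exact ⟨part_R hw this.1, part_R hw (part_R hw this.2)⟩
    · intro z h1 h2 h0 hE
      have hz := mem_UW_of hw h1 h2 h0 hE
      exact p.partQ hz (by rw [← sP_UW hw hz]; exact h0) hE
  exact (key z h0 hE).1

/-! ### A radial homeomorphism -/

theorem exists_radial (φ : ℂ → ℝ) (hc : Continuous φ)
    (hh : ∀ (t : ℝ) (z : ℂ), 0 ≤ t → φ (t • z) = t * φ z) {c C : ℝ} (c0 : 0 < c)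
    (h1 : ∀ z, c * ‖z‖ ≤ φ z) (h2 : ∀ z, φ z ≤ C * ‖z‖) :
    ∃ e : ℂ ≃ₜ ℂ, ∀ z, ‖e z‖ = φ z := by
  have hpos : ∀ z, z ≠ 0 → 0 < φ z := fun z hz =>
    lt_of_lt_of_le (mul_pos c0 (norm_pos_iff.2 hz)) (h1 z)
  have hnn : ∀ z, 0 ≤ φ z := fun z => (mul_nonneg c0.le (norm_nonneg z)).trans (h1 z)
  have n1 : ∀ z, ‖(φ z / ‖z‖) • z‖ = φ z := by
    intro z
    by_cases hz : z = 0
    · subst hz
      have := h2 0
      have h0 := hnn 0
      rw [norm_zero, mul_zero] at this
      simp [le_antisymm this h0]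
    · have : 0 < ‖z‖ := norm_pos_iff.2 hz
      rw [norm_smul, Real.norm_eq_abs, abs_of_nonneg (div_nonneg (hnn z) this.le)]
      field_simp
  have l1 : ∀ z, (‖(φ z / ‖z‖) • z‖ / φ ((φ z / ‖z‖) • z)) • ((φ z / ‖z‖) • z) = z := by
    intro z
    by_cases hz : z = 0
    · subst hz; simp
    · have hn : 0 < ‖z‖ := norm_pos_iff.2 hz
      have hp := hpos z hz
      rw [n1, hh _ _ (div_nonneg hp.le hn.le), smul_smul]
      have : φ z / (φ z / ‖z‖ * φ z) * (φ z / ‖z‖) = 1 := by field_simp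
      rw [this, one_smul]
  have l2 : ∀ z, (φ ((‖z‖ / φ z) • z) / ‖(‖z‖ / φ z) • z‖) • ((‖z‖ / φ z) • z) = z := by
    intro z
    by_cases hz : z = 0
    · subst hz; simp
    · have hn : 0 < ‖z‖ := norm_pos_iff.2 hz
      have hp := hpos z hz
      have hq : 0 ≤ ‖z‖ / φ z := div_nonneg hn.le hp.le
      rw [hh _ _ hq, norm_smul, Real.norm_eq_abs, abs_of_nonneg hq, smul_smul]
      have : ‖z‖ / φ z * φ z / (‖z‖ / φ z * ‖z‖) * (‖z‖ / φ z) = 1 := by field_simp
      rw [this, one_smul]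
  have k1 : Continuous fun z : ℂ => (φ z / ‖z‖) • z := by
    rw [continuous_iff_continuousAt]
    intro z
    by_cases hz : z = 0
    · subst hz
      rw [ContinuousAt, smul_zero, tendsto_zero_iff_norm_tendsto_zero]
      have : (fun z : ℂ => ‖(φ z / ‖z‖) • z‖) = φ := funext n1
      rw [this]
      have h0 : φ 0 = 0 := le_antisymm (by have := h2 0; simpa using this) (hnn 0)
      have := hc.tendsto 0
      rwa [h0] at this
    · have hn : ‖z‖ ≠ 0 := (norm_pos_iff.2 hz).ne'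
      exact ((hc.continuousAt).div continuous_norm.continuousAt hn).smul continuousAt_id
  have k2 : Continuous fun z : ℂ => (‖z‖ / φ z) • z := by
    rw [continuous_iff_continuousAt]
    intro z
    by_cases hz : z = 0
    · subst hz
      rw [ContinuousAt, smul_zero, tendsto_zero_iff_norm_tendsto_zero]
      have hlim : Tendsto (fun z : ℂ => 1 / c * ‖z‖) (𝓝 0) (𝓝 0) := by
        have := (continuous_norm.tendsto (0 : ℂ)).const_mul (1 / c)
        simpa using this
      refine squeeze_zero (fun _ => norm_nonneg _) (fun z => ?_) hlim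
      by_cases hz : z = 0
      · subst hz; simp
      · have hn : 0 < ‖z‖ := norm_pos_iff.2 hz
        have hp := hpos z hz
        rw [norm_smul, Real.norm_eq_abs, abs_of_nonneg (div_nonneg hn.le hp.le)]
        have : ‖z‖ / φ z ≤ 1 / c := by
          rw [div_le_div_iff₀ hp c0]
          have := h1 z
          linarith
        exact mul_le_mul_of_nonneg_right this hn.le
    · have hp := (hpos z hz).ne'
      exact ((continuous_norm.continuousAt).div hc.continuousAt hp).smul continuousAt_id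
  exact ⟨mkH _ _ k1 k2 l1 l2, fun z => n1 z⟩

/-! ### Estimates for `phi` -/

theorem phi_cont : Continuous phi := by
  unfold phi
  fun_prop

theorem phi_hom (t : ℝ) (z : ℂ) (ht : 0 ≤ t) : phi (t • z) = t * phi z := by
  unfold phi
  simp only [Complex.smul_re, Complex.smul_im, smul_eq_mul]
  rw [mul_min_of_nonneg _ _ ht, mul_max_of_nonneg _ _ ht, mul_max_of_nonneg _ _ ht,
    mul_max_of_nonneg _ _ ht, mul_max_of_nonneg _ _ ht]
  have e1 : (s * (t * z.im) - t * z.re) / 2 = t * ((s * z.im - z.re) / 2) := by ring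
  have e2 : -(t * z.re + s * (t * z.im)) / 2 = t * (-(z.re + s * z.im) / 2) := by ring
  rw [e1, e2, mul_neg, mul_neg, mul_neg]

theorem phi_low_aux {x y P : ℝ} (h1 : (s * y - x) / 2 ≤ P) (h2 : -(x + s * y) / 2 ≤ P)
    (h3 : x ≤ P) : x * x + y * y ≤ 4 * (P * P) ∧ 0 ≤ P := by
  have hsy := sq_le_sq' (show -(2 * P + x) ≤ s * y by linarith) (show s * y ≤ 2 * P + x by linarith)
  have e : (s * y) ^ 2 = 3 * (y * y) := by linear_combination (y * y) * s_sq
  have hx : 0 ≤ x + 2 * P := by linarith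
  rw [e] at hsy
  exact ⟨by nlinarith [mul_nonneg (sub_nonneg.2 h3) hx], by linarith⟩

theorem phi_low (z : ℂ) : 1 / 2 * ‖z‖ ≤ phi z := by
  have key : ∀ P : ℝ, z.re * z.re + z.im * z.im ≤ 4 * (P * P) → 0 ≤ P → 1 / 2 * ‖z‖ ≤ P := by
    intro P h hP
    have e : ‖z‖ ^ 2 = z.re * z.re + z.im * z.im := by
      rw [Complex.sq_norm, Complex.normSq_apply]
    rw [← e] at h
    nlinarith [norm_nonneg z]
  unfold phi
  apply le_min
  · obtain ⟨h, hP⟩ := phi_low_aux (x := z.re) (y := z.im)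
      (P := max ((s * z.im - z.re) / 2) (max (-(z.re + s * z.im) / 2) z.re))
      (le_max_left _ _) (le_max_of_le_right (le_max_left _ _))
      (le_max_of_le_right (le_max_right _ _))
    exact key _ h hP
  · obtain ⟨h, hP⟩ := phi_low_aux (x := -z.re) (y := -z.im)
      (P := max (-((s * z.im - z.re) / 2)) (max (-(-(z.re + s * z.im) / 2)) (-z.re)))
      (le_trans (by linarith) (le_max_left _ _))
      (le_trans (by linarith) (le_max_of_le_right (le_max_left _ _)))
      (le_max_of_le_right (le_max_right _ _))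
    exact key _ (by linarith) hP

theorem phi_up (z : ℂ) : phi z ≤ 1 * ‖z‖ := by
  rw [one_mul]
  have a1 : |(s * z.im - z.re) / 2| ≤ ‖z‖ := by
    have := lin_le (a := -1 / 2) (b := s / 2) (by linear_combination s_sq / 4) z 0
    simp only [Complex.zero_re, Complex.zero_im, sub_zero] at this
    rwa [show (s * z.im - z.re) / 2 = -1 / 2 * z.re + s / 2 * z.im by ring]
  have a2 : |-(z.re + s * z.im) / 2| ≤ ‖z‖ := by
    have := lin_le (a := -1 / 2) (b := -s / 2) (by linear_combination s_sq / 4) z 0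
    simp only [Complex.zero_re, Complex.zero_im, sub_zero] at this
    rwa [show -(z.re + s * z.im) / 2 = -1 / 2 * z.re + -s / 2 * z.im by ring]
  have a3 : |z.re| ≤ ‖z‖ := Complex.abs_re_le_norm z
  unfold phi
  refine (min_le_left _ _).trans (max_le ((le_abs_self _).trans a1)
    (max_le ((le_abs_self _).trans a2) ((le_abs_self _).trans a3)))

/-! ### The tile -/

def Tile (w : ℂ ≃ₜ ℂ) : Set ℂ := {z | sP w z ≤ 0}

theorem exists_G {w : ℂ ≃ₜ ℂ} (hw : Supp w UW) :
    ∃ G : ℂ ≃ₜ ℂ, ∀ z, sP w z = SignType.sign (‖G z‖ - 1) := by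
  have hs : 0 < 1 + s := by linarith [s_lo]
  obtain ⟨e, he⟩ := exists_radial (fun z => phi z / (1 + s)) (phi_cont.div_const _)
    (fun t z ht => by rw [phi_hom t z ht]; ring) (c := 1 / 2 / (1 + s)) (C := 1 / (1 + s))
    (by positivity)
    (fun z => by
      have := div_le_div_of_nonneg_right (phi_low z) hs.le
      calc 1 / 2 / (1 + s) * ‖z‖ = 1 / 2 * ‖z‖ / (1 + s) := by ring
        _ ≤ _ := this)
    (fun z => by
      have := div_le_div_of_nonneg_right (phi_up z) hs.le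
      calc _ ≤ 1 * ‖z‖ / (1 + s) := this
        _ = 1 / (1 + s) * ‖z‖ := by ring)
  refine ⟨e * B2 w, fun z => ?_⟩
  have h1 : ‖(e * B2 w) z‖ = phi (B2 w z) / (1 + s) := he (B2 w z)
  have h2 : phi (B2 w z) - (1 + s) = (1 + s) * (‖(e * B2 w) z‖ - 1) := by
    rw [h1]; field_simp
  unfold sP
  rw [h2, sign_mul, sign_pos hs, one_mul]

theorem tile_eq {w G : ℂ ≃ₜ ℂ} (hG : ∀ z, sP w z = SignType.sign (‖G z‖ - 1)) :
    Tile w = G ⁻¹' closedBall 0 1 := by
  ext z
  show sP w z ≤ 0 ↔ G z ∈ closedBall (0 : ℂ) 1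
  rw [mem_closedBall_zero_iff, hG, sign_nonpos_iff, sub_nonpos]

theorem tile_closed {w : ℂ ≃ₜ ℂ} (hw : Supp w UW) : IsClosed (Tile w) := by
  obtain ⟨G, hG⟩ := exists_G hw
  rw [tile_eq hG]
  exact isClosed_closedBall.preimage G.continuous

theorem tile_interior {w G : ℂ ≃ₜ ℂ} (hG : ∀ z, sP w z = SignType.sign (‖G z‖ - 1)) :
    interior (Tile w) = G ⁻¹' ball 0 1 := by
  rw [tile_eq hG, ← G.preimage_interior, interior_closedBall _ one_ne_zero]

theorem tile_interior_mem {w : ℂ ≃ₜ ℂ} (hw : Supp w UW) {z : ℂ} :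
    z ∈ interior (Tile w) ↔ sP w z = -1 := by
  obtain ⟨G, hG⟩ := exists_G hw
  rw [tile_interior hG, hG, Set.mem_preimage, mem_ball_zero_iff, sign_eq_neg_one_iff, sub_neg]

theorem tile_norm {w : ℂ ≃ₜ ℂ} (hw : Supp w UW) {z : ℂ} (hz : z ∈ Tile w) : ‖z‖ < 9 := by
  have nM : ∀ z, ‖M z‖ = ‖z‖ := fun z => by
    have := dil_M z 0
    have e : M 0 = 0 := by apply Complex.ext <;> simp [M_apply]
    rwa [e, sub_zero, sub_zero, one_mul] at this
  have nN : ∀ z, ‖N z‖ = ‖z‖ := fun z => by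
    have := dil_N z 0
    have e : N 0 = 0 := by apply Complex.ext <;> simp [N_apply]
    rwa [e, sub_zero, sub_zero, one_mul] at this
  have nR : ∀ z, ‖R z‖ = ‖z‖ := fun z => by
    have := dil_R z 0
    have e : R 0 = 0 := by apply Complex.ext <;> simp [R_apply]
    rwa [e, sub_zero, sub_zero, one_mul] at this
  have key : ∀ z, sP w z ≤ 0 → ‖z‖ < 9 := by
    apply fold_ind
    · intro z ih h; rw [← nM]; exact ih (by rwa [sP_M hw])
    · intro z ih h; rw [← nN]; exact ih (by rwa [sP_N hw])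
    · intro z ih h; rw [← nR]; exact ih (by rwa [sP_R hw])
    · intro z h1 h2 h
      by_cases hz : z ∈ UW
      · exact UW_norm hz
      · unfold sP at h
        rw [B2_Q hw h1 h2 hz, sign_nonpos_iff] at h
        have := phi_low z
        linarith [s_hi]
  exact key z hz

theorem tile_disk {w : ℂ ≃ₜ ℂ} (hw : Supp w UW) :
    Nonempty (Tile w ≃ₜ closedBall (0 : ℂ) 1) := by
  obtain ⟨G, hG⟩ := exists_G hw
  have : ∀ x, x ∈ Tile w ↔ G x ∈ closedBall (0 : ℂ) 1 := fun x => by rw [tile_eq hG]; rfl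
  exact ⟨G.subtype this⟩

/-! ### The lattice -/

def Lat (p : ℤ × ℤ) : ℂ := p.1 • v0 + p.2 • R v0

theorem Rv0 : R v0 = ⟨-(4 + 2 * s), -2⟩ := by
  apply Complex.ext <;> simp only [R_apply, aff_re, aff_im, v0]
  · linear_combination (-1 : ℝ) * s_sq
  · ring

theorem Lat_add (p q : ℤ × ℤ) : Lat (p + q) = Lat p + Lat q := by
  unfold Lat; simp only [Prod.fst_add, Prod.snd_add, add_smul]; abel

theorem Lat_neg (p : ℤ × ℤ) : Lat (-p) = -Lat p := by
  unfold Lat; simp only [Prod.fst_neg, Prod.snd_neg, neg_smul]; abel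

theorem Lat_re (p : ℤ × ℤ) : (Lat p).re = 2 * p.1 - (4 + 2 * s) * p.2 := by
  unfold Lat
  rw [Rv0]
  simp [v0]
  ring

theorem Lat_im (p : ℤ × ℤ) : (Lat p).im = (4 + 2 * s) * p.1 - 2 * p.2 := by
  unfold Lat
  rw [Rv0]
  simp [v0]
  ring

theorem Lat_norm (p : ℤ × ℤ) : ‖Lat p‖ ^ 2 =
    (32 + 16 * s) * ((p.1 : ℝ) ^ 2 - p.1 * p.2 + (p.2 : ℝ) ^ 2) := by
  rw [Complex.sq_norm, Complex.normSq_apply, Lat_re, Lat_im]
  linear_combination (4 * (p.1 : ℝ) ^ 2 + 4 * (p.2 : ℝ) ^ 2) * s_sq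

theorem Lat_finite (K : ℝ) : {p : ℤ × ℤ | ‖Lat p‖ ≤ K}.Finite := by
  apply (((Set.finite_Icc (-⌈|K|⌉) ⌈|K|⌉)).prod (Set.finite_Icc (-⌈|K|⌉) ⌈|K|⌉)).subset
  intro p hp
  have hK : ‖Lat p‖ ≤ |K| := le_trans hp (le_abs_self K)
  have hn := Lat_norm p
  have hs := s_lo
  have h1 : |(p.1 : ℝ)| ≤ |K| := by
    apply le_trans _ hK
    apply abs_le_of_sq_le_sq _ (norm_nonneg _)
    rw [hn]
    nlinarith [sq_nonneg ((p.1 : ℝ) - 2 * p.2), sq_nonneg (p.1 : ℝ),
      mul_nonneg (show (0:ℝ) ≤ s by linarith) (show (0:ℝ) ≤ (p.1 : ℝ) ^ 2 - p.1 * p.2 + (p.2 : ℝ) ^ 2 by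
        nlinarith [sq_nonneg ((p.1 : ℝ) - 2 * p.2), sq_nonneg (p.1 : ℝ)])]
  have h2 : |(p.2 : ℝ)| ≤ |K| := by
    apply le_trans _ hK
    apply abs_le_of_sq_le_sq _ (norm_nonneg _)
    rw [hn]
    nlinarith [sq_nonneg ((p.2 : ℝ) - 2 * p.1), sq_nonneg (p.2 : ℝ),
      mul_nonneg (show (0:ℝ) ≤ s by linarith) (show (0:ℝ) ≤ (p.1 : ℝ) ^ 2 - p.1 * p.2 + (p.2 : ℝ) ^ 2 by
        nlinarith [sq_nonneg ((p.2 : ℝ) - 2 * p.1), sq_nonneg (p.2 : ℝ)])]
  have c1 : |p.1| ≤ ⌈|K|⌉ := by
    have : ((|p.1| : ℤ) : ℝ) ≤ |K| := by rw [Int.cast_abs]; exact h1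
    exact_mod_cast this.trans (Int.le_ceil _)
  have c2 : |p.2| ≤ ⌈|K|⌉ := by
    have : ((|p.2| : ℤ) : ℝ) ≤ |K| := by rw [Int.cast_abs]; exact h2
    exact_mod_cast this.trans (Int.le_ceil _)
  exact ⟨⟨(abs_le.1 c1).1, (abs_le.1 c1).2⟩, ⟨(abs_le.1 c2).1, (abs_le.1 c2).2⟩⟩

theorem Nb_Lat {v : ℂ} (hv : v ∈ Nb) : ∃ q : ℤ × ℤ, Lat q = v := by
  rcases hv with rfl | rfl | rfl | rfl | rfl | rfl
  · exact ⟨(1, 0), by simp [Lat]⟩
  · refine ⟨(-1, 0), ?_⟩
    apply Complex.ext
    · rw [Lat_re]; simp [N_apply, v0]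
    · rw [Lat_im]; simp [N_apply, v0]
  · exact ⟨(0, 1), by simp [Lat]⟩
  · refine ⟨(0, -1), ?_⟩
    apply Complex.ext
    · rw [Lat_re, Rv0]; simp [N_apply]
    · rw [Lat_im, Rv0]; simp [N_apply]
  · refine ⟨(-1, -1), ?_⟩
    apply Complex.ext
    · rw [Lat_re, Rv0]; simp [R_apply]; ring
    · rw [Lat_im, Rv0]; simp [R_apply]; linear_combination s_sq
  · refine ⟨(1, 1), ?_⟩
    apply Complex.ext
    · rw [Lat_re, Rv0]; simp [R_apply, N_apply]; ring
    · rw [Lat_im, Rv0]; simp [R_apply, N_apply]; linear_combination -s_sq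

/-! ### The exceptional set is invariant under the lattice -/

def TrE : AddSubgroup ℂ where
  carrier := {t | ∀ z ∈ EE, z + t ∈ EE ∧ z - t ∈ EE}
  zero_mem' := fun z hz => by simpa using hz
  add_mem' := by
    intro a b ha hb z hz
    have e1 : z + (a + b) = (z + a) + b := by ring
    have e2 : z - (a + b) = (z - a) - b := by ring
    rw [e1, e2]
    exact ⟨(hb _ (ha z hz).1).1, (hb _ (ha z hz).2).2⟩
  neg_mem' := by
    intro a ha z hz
    rw [← sub_eq_add_neg, sub_neg_eq_add]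
    exact ⟨(ha z hz).2, (ha z hz).1⟩

theorem EE_v0 {z : ℂ} (hz : z ∈ EE) : z - v0 ∈ EE := by
  have := EE_N (EE_X hz)
  rwa [X_eq, N_N] at this

theorem EE_v0' {z : ℂ} (hz : z ∈ EE) : z + v0 ∈ EE := by
  have h := EE_N (EE_v0 (EE_N hz))
  have e : N (N z - v0) = z + v0 := by
    rw [lin_N, N_N]
    apply Complex.ext <;> simp [N_apply]
  rwa [e] at h

theorem v0_TrE : v0 ∈ TrE := fun _ hz => ⟨EE_v0' hz, EE_v0 hz⟩

theorem Rv0_TrE : R v0 ∈ TrE := by
  intro z hz
  have h1 := EE_R (EE_v0' (EE_R (EE_R hz)))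
  have h2 := EE_R (EE_v0 (EE_R (EE_R hz)))
  have e2 : R (R (R z) - v0) = z - R v0 := by rw [lin_R, R_R_R]
  have e1 : R (R (R z) + v0) = z + R v0 := by
    have : R (R z) + v0 = R (R z) - N v0 := by
      apply Complex.ext <;> simp [N_apply]
    rw [this, lin_R, R_R_R, ← N_R]
    apply Complex.ext <;> simp [N_apply]
  rw [e1] at h1
  rw [e2] at h2
  exact ⟨h1, h2⟩

theorem EE_Lat {z : ℂ} (p : ℤ × ℤ) (hz : z - Lat p ∈ EE) : z ∈ EE := by
  have h : Lat p ∈ TrE := TrE.add_mem (TrE.zsmul_mem v0_TrE _) (TrE.zsmul_mem Rv0_TrE _)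
  have := (h _ hz).1
  rwa [sub_add_cancel] at this

/-! ### Local finiteness -/

/-- The translated tile. -/
def Tp (w : ℂ ≃ₜ ℂ) (p : ℤ × ℤ) : Set ℂ := {z | z - Lat p ∈ Tile w}

theorem Tp_closed {w : ℂ ≃ₜ ℂ} (hw : Supp w UW) (p : ℤ × ℤ) : IsClosed (Tp w p) :=
  (tile_closed hw).preimage (continuous_id.sub continuous_const)

theorem Tp_locallyFinite {w : ℂ ≃ₜ ℂ} (hw : Supp w UW) : LocallyFinite (Tp w) := by
  intro x
  refine ⟨ball x 1, ball_mem_nhds x one_pos, (Lat_finite (‖x‖ + 1 + 9)).subset ?_⟩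
  rintro p ⟨z, hz, hzx⟩
  have h1 := tile_norm (z := z - Lat p) hw hz
  rw [mem_ball, dist_eq_norm] at hzx
  show ‖Lat p‖ ≤ _
  have e : Lat p = x + (z - x) - (z - Lat p) := by ring
  rw [e]
  calc ‖x + (z - x) - (z - Lat p)‖ ≤ ‖x + (z - x)‖ + ‖z - Lat p‖ := norm_sub_le _ _
    _ ≤ ‖x‖ + ‖z - x‖ + ‖z - Lat p‖ := by gcongr; exact norm_add_le _ _
    _ ≤ _ := by linarith

/-- Union of a subfamily. -/
def ZZ (w : ℂ ≃ₜ ℂ) (P : Set (ℤ × ℤ)) : Set ℂ := ⋃ p : P, Tp w p

theorem ZZ_closed {w : ℂ ≃ₜ ℂ} (hw : Supp w UW) (P : Set (ℤ × ℤ)) : IsClosed (ZZ w P) :=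
  ((Tp_locallyFinite hw).comp_injective Subtype.val_injective).isClosed_iUnion
    (fun p => Tp_closed hw p)

theorem mem_ZZ {w : ℂ ≃ₜ ℂ} {P : Set (ℤ × ℤ)} {z : ℂ} {p : ℤ × ℤ} (hp : p ∈ P)
    (hz : z - Lat p ∈ Tile w) : z ∈ ZZ w P := Set.mem_iUnion.2 ⟨⟨p, hp⟩, hz⟩

/-- Local structure at a non-exceptional point of a translated tile. -/
theorem IsPair.local_struct {a w : ℂ ≃ₜ ℂ} (p : IsPair a w) {z : ℂ} {q : ℤ × ℤ}
    (hz : z - Lat q ∈ Tile w) (hE : z ∉ EE) :
    (∀ᶠ u in 𝓝 z, u - Lat q ∈ Tile w) ∨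
    ∃ r : ℤ × ℤ, sP w (z - Lat r) = 0 ∧ ∀ᶠ u in 𝓝 z, u - Lat q ∈ Tile w ∨ u - Lat r ∈ Tile w := by
  have hw := p.sw
  have hE' : z - Lat q ∉ EE := fun h => hE (EE_Lat q h)
  have ht : Tendsto (fun u => u - Lat q) (𝓝 z) (𝓝 (z - Lat q)) :=
    (continuous_id.sub continuous_const).tendsto z
  have hle : sP w (z - Lat q) ≤ 0 := hz
  rcases hle.lt_or_eq with h | h
  · left
    have hi : z - Lat q ∈ interior (Tile w) := by
      rw [tile_interior_mem hw]
      revert h
      generalize sP w (z - Lat q) = x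
      revert x
      decide
    have := ht.eventually (isOpen_interior.mem_nhds hi)
    filter_upwards [this] with u hu
    exact interior_subset hu
  · right
    obtain ⟨v, hv, hev⟩ := p.partner h hE'
    obtain ⟨r, rfl⟩ := Nb_Lat hv
    have e : ∀ u : ℂ, u - Lat (q + r) = u - Lat q - Lat r := fun u => by rw [Lat_add]; ring
    refine ⟨q + r, ?_, ?_⟩
    · rw [e, hev.self_of_nhds, h, neg_zero]
    · filter_upwards [ht.eventually hev] with u hu
      show sP w (u - Lat q) ≤ 0 ∨ sP w (u - Lat (q + r)) ≤ 0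
      rw [e, hu]
      generalize sP w (u - Lat q) = x
      revert x
      decide

theorem rank_C : 1 < Module.rank ℝ ℂ := by
  rw [Complex.rank_real_complex]; norm_num

theorem EE_compl_dense : Dense EEᶜ := EE_countable.dense_compl ℝ

theorem exists_not_EE {U : Set ℂ} (hU : IsOpen U) (hne : U.Nonempty) : ∃ z ∈ U, z ∉ EE := by
  obtain ⟨z, hz, h⟩ := EE_compl_dense.inter_open_nonempty U hU hne
  exact ⟨z, hz, h⟩

theorem zero_tile {w : ℂ ≃ₜ ℂ} (hw : Supp w UW) : sP w 0 = -1 := by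
  have h0 : (0 : ℂ) ∉ UW := fun h => lt_irrefl _ h.1
  unfold sP
  rw [B2_Q hw (by simp) (by simp) h0, phi_Q (by simp) (by simp)]
  apply sign_neg
  simp
  linarith [s_lo]

theorem IsPair.cover {a w : ℂ ≃ₜ ℂ} (p : IsPair a w) : ZZ w univ = univ := by
  have hw := p.sw
  have hcl := ZZ_closed hw univ
  have hpre : IsPreconnected EEᶜ :=
    (EE_countable.isConnected_compl_of_one_lt_rank rank_C).isPreconnected
  have hsub : EEᶜ ⊆ interior (ZZ w univ) := by
    refine hpre.subset_left_of_subset_union isOpen_interior hcl.isOpen_compl ?_ ?_ ?_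
    · exact Set.disjoint_left.2 fun z h1 h2 => h2 (interior_subset h1)
    · intro z hz
      by_cases h : z ∈ ZZ w univ
      · left
        obtain ⟨⟨q, hq0⟩, hq⟩ := Set.mem_iUnion.1 h
        rw [mem_interior_iff_mem_nhds]
        rcases p.local_struct (q := q) (z := z) hq hz with h' | ⟨r, -, h'⟩
        · filter_upwards [h'] with u hu
          exact mem_ZZ (mem_univ _) hu
        · filter_upwards [h'] with u hu
          rcases hu with hu | hu
          · exact mem_ZZ (mem_univ _) hu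
          · exact mem_ZZ (mem_univ _) hu
      · exact Or.inr h
    · have h0 : (0 : ℂ) ∈ interior (Tile w) := (tile_interior_mem hw).2 (zero_tile hw)
      obtain ⟨z, hz, hE⟩ := exists_not_EE isOpen_interior ⟨0, h0⟩
      refine ⟨z, hE, ?_⟩
      refine interior_mono ?_ hz
      intro u hu
      refine mem_ZZ (p := 0) (mem_univ _) ?_
      simpa [Lat] using hu
  have hd : closure EEᶜ ⊆ ZZ w univ := hcl.closure_subset_iff.2 (hsub.trans interior_subset)
  rw [EE_compl_dense.closure_eq] at hd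
  exact Set.univ_subset_iff.1 hd

theorem int_cases {a b : ℤ} (h0 : (a, b) ≠ 0) (h : a ^ 2 - a * b + b ^ 2 < 2) :
    (a, b) = (1, 0) ∨ (a, b) = (-1, 0) ∨ (a, b) = (0, 1) ∨ (a, b) = (0, -1) ∨
    (a, b) = (1, 1) ∨ (a, b) = (-1, -1) := by
  have ha1 : a ≤ 1 := by nlinarith [sq_nonneg (a - 2 * b), sq_nonneg (a - 1)]
  have ha2 : -1 ≤ a := by nlinarith [sq_nonneg (a - 2 * b), sq_nonneg (a + 1)]
  have hb1 : b ≤ 1 := by nlinarith [sq_nonneg (b - 2 * a), sq_nonneg (b - 1)]
  have hb2 : -1 ≤ b := by nlinarith [sq_nonneg (b - 2 * a), sq_nonneg (b + 1)]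
  interval_cases a <;> interval_cases b <;> simp_all

theorem Nb_pos {w : ℂ ≃ₜ ℂ} (hw : Supp w UW) {v : ℂ} (hv : v ∈ Nb) : sP w v = 1 := by
  have hl := s_lo
  have h0 : sP w v0 = 1 := by
    have hn : v0 ∉ UW := fun h => lt_irrefl _ h.2.2.2
    have h1 : 0 ≤ v0.re := by simp [v0]
    have h2 : s * v0.re ≤ v0.im := by simp only [v0]; linarith
    unfold sP
    rw [B2_Q hw h1 h2 hn, phi_Q h1 h2]
    apply sign_pos
    simp only [v0]
    nlinarith [s_sq]
  rcases hv with rfl | rfl | rfl | rfl | rfl | rfl <;>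
    simp only [sP_N hw, sP_R hw, h0]

theorem neg_Lat_pos {w : ℂ ≃ₜ ℂ} (hw : Supp w UW) {p : ℤ × ℤ} (hp : p ≠ 0) :
    (0 : ℂ) - Lat p ∉ Tile w := by
  intro hmem
  have h9 := tile_norm hw hmem
  rw [zero_sub, norm_neg] at h9
  have hn := Lat_norm p
  have hl := s_lo
  obtain ⟨a, b⟩ := p
  have hlt : ((a : ℝ) ^ 2 - a * b + (b : ℝ) ^ 2) < 2 := by
    by_contra hc
    push Not at hc
    have h1 : ‖Lat (a, b)‖ ^ 2 < 81 := by nlinarith [norm_nonneg (Lat (a, b))]
    rw [hn] at h1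
    simp only at h1
    nlinarith
  have hlt' : a ^ 2 - a * b + b ^ 2 < 2 := by exact_mod_cast hlt
  have hN : (0 : ℂ) - Lat (a, b) ∈ Nb := by
    have e : (0 : ℂ) - Lat (a, b) = N (Lat (a, b)) := by
      apply Complex.ext <;> simp [N_apply]
    rw [e]
    have eN : ∀ q : ℤ × ℤ, N (Lat q) = Lat (-q) := fun q => by
      rw [Lat_neg]; apply Complex.ext <;> simp [N_apply]
    have l10 : Lat (1, 0) = v0 := by simp [Lat]
    have l01 : Lat (0, 1) = R v0 := by simp [Lat]
    have l11 : Lat (-1, -1) = R (R v0) := by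
      apply Complex.ext
      · rw [Lat_re, Rv0]; simp [R_apply]; ring
      · rw [Lat_im, Rv0]; simp [R_apply]; linear_combination s_sq
    rcases int_cases hp hlt' with h | h | h | h | h | h <;> rw [h]
    · rw [l10]; exact Or.inr (Or.inl rfl)
    · rw [eN]
      have : -((-1 : ℤ), (0 : ℤ)) = (1, 0) := by simp
      rw [this, l10]; exact Or.inl rfl
    · rw [l01]; exact Or.inr (Or.inr (Or.inr (Or.inl rfl)))
    · rw [eN]
      have : -((0 : ℤ), (-1 : ℤ)) = (0, 1) := by simp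
      rw [this, l01]; exact Or.inr (Or.inr (Or.inl rfl))
    · rw [eN]
      have : -((1 : ℤ), (1 : ℤ)) = (-1, -1) := by simp
      rw [this, l11]; exact Or.inr (Or.inr (Or.inr (Or.inr (Or.inl rfl))))
    · rw [l11]; exact Or.inr (Or.inr (Or.inr (Or.inr (Or.inr rfl))))
  have h1 := Nb_pos hw hN
  have h2 : sP w (0 - Lat (a, b)) ≤ 0 := hmem
  rw [h1] at h2
  exact absurd h2 (by decide)

theorem interior_preconn {w : ℂ ≃ₜ ℂ} (hw : Supp w UW) :
    IsPreconnected (interior (Tile w) \ EE) := by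
  obtain ⟨G, hG⟩ := exists_G hw
  have hi := tile_interior hG
  let Θ : ℂ → ℂ := fun z => G.symm (Homeomorph.unitBall z : ℂ)
  have hΘc : Continuous Θ :=
    G.symm.continuous.comp (continuous_subtype_val.comp Homeomorph.unitBall.continuous)
  have hΘi : Function.Injective Θ := by
    intro x y hxy
    have h1 : (Homeomorph.unitBall x : ℂ) = (Homeomorph.unitBall y : ℂ) := G.symm.injective hxy
    exact Homeomorph.unitBall.injective (Subtype.ext h1)
  have hcount : (Θ ⁻¹' EE).Countable := EE_countable.preimage hΘi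
  have hconn := (hcount.isConnected_compl_of_one_lt_rank rank_C).isPreconnected
  have := hconn.image Θ hΘc.continuousOn
  have e : Θ '' (Θ ⁻¹' EE)ᶜ = interior (Tile w) \ EE := by
    ext z
    constructor
    · rintro ⟨x, hx, rfl⟩
      refine ⟨?_, hx⟩
      rw [hi]
      show G (G.symm _) ∈ ball (0 : ℂ) 1
      rw [G.apply_symm_apply]
      exact (Homeomorph.unitBall x).2
    · rintro ⟨h1, h2⟩
      rw [hi] at h1
      refine ⟨Homeomorph.unitBall.symm ⟨G z, h1⟩, ?_, ?_⟩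
      · show Θ _ ∉ EE
        show G.symm (Homeomorph.unitBall (Homeomorph.unitBall.symm ⟨G z, h1⟩) : ℂ) ∉ EE
        rw [Homeomorph.apply_symm_apply]
        show G.symm (G z) ∉ EE
        rwa [G.symm_apply_apply]
      · show G.symm (Homeomorph.unitBall (Homeomorph.unitBall.symm ⟨G z, h1⟩) : ℂ) = z
        rw [Homeomorph.apply_symm_apply]
        show G.symm (G z) = z
        rw [G.symm_apply_apply]
  rw [e] at this
  exact this

theorem IsPair.disj0 {a w : ℂ ≃ₜ ℂ} (p : IsPair a w) {q : ℤ × ℤ} (hq : q ≠ 0) :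
    Disjoint (interior (Tile w)) (interior (Tp w q)) := by
  have hw := p.sw
  set P : Set (ℤ × ℤ) := {r | r ≠ 0} with hP
  have hcl := ZZ_closed hw P
  have h0int : (0 : ℂ) ∈ interior (Tile w) := (tile_interior_mem hw).2 (zero_tile hw)
  have h0 : (0 : ℂ) ∉ ZZ w P := by
    intro h
    obtain ⟨⟨r, hr⟩, hr'⟩ := Set.mem_iUnion.1 h
    exact neg_Lat_pos hw hr hr'
  have hsub : interior (Tile w) \ EE ⊆ (ZZ w P)ᶜ := by
    refine (interior_preconn hw).subset_left_of_subset_union hcl.isOpen_compl isOpen_interior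
      ?_ ?_ ?_ (v := interior (ZZ w P))
    · exact Set.disjoint_left.2 fun z h1 h2 => h1 (interior_subset h2)
    · rintro z ⟨hz, hE⟩
      by_cases h : z ∈ ZZ w P
      · right
        obtain ⟨⟨r, hr⟩, hr'⟩ := Set.mem_iUnion.1 h
        rw [mem_interior_iff_mem_nhds]
        rcases p.local_struct (q := r) (z := z) hr' hE with h' | ⟨t, ht, h'⟩
        · filter_upwards [h'] with u hu
          exact mem_ZZ hr hu
        · have ht0 : t ≠ 0 := by
            rintro rfl
            have e : z - Lat 0 = z := by simp [Lat]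
            rw [e, (tile_interior_mem hw).1 hz] at ht
            exact absurd ht (by decide)
          filter_upwards [h'] with u hu
          rcases hu with hu | hu
          · exact mem_ZZ hr hu
          · exact mem_ZZ ht0 hu
      · exact Or.inl h
    · obtain ⟨z, ⟨hz1, hz2⟩, hE⟩ := exists_not_EE (isOpen_interior.inter hcl.isOpen_compl)
        ⟨0, h0int, h0⟩
      exact ⟨z, ⟨hz1, hE⟩, hz2⟩
  rw [Set.disjoint_iff_inter_eq_empty]
  by_contra hne
  obtain ⟨z, ⟨hz1, hz2⟩, hE⟩ := exists_not_EE (isOpen_interior.inter isOpen_interior)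
    (Set.nonempty_iff_ne_empty.2 hne)
  exact hsub ⟨hz1, hE⟩ (mem_ZZ (p := q) hq (interior_subset hz2 : z ∈ Tp w q))

/-! ### The tile is not a finite union of convex sets -/

def ray (t : ℝ) : ℂ := ⟨1 + s - t * s, 3 + s - t⟩

theorem g_ray (t : ℝ) : g (ray t) = ray (mu * t) := by
  apply Complex.ext <;> simp only [g_apply, aff_re, aff_im, ray, mu]
  · linear_combination (-1 : ℝ) * s_sq
  · linear_combination (-1 : ℝ) * s_sq

def p0 : ℂ := ⟨(s - 1) / 2, (5 + s) / 2⟩

theorem p0_ray : p0 = ray ((1 + s) / 2) := by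
  apply Complex.ext <;> simp only [p0, ray]
  · linear_combination (1 / 2 : ℝ) * s_sq
  · ring

theorem Xp0_ray : X p0 = ray ((3 - s) / 2) := by
  apply Complex.ext <;> simp only [X_apply, aff_re, aff_im, p0, ray]
  · linear_combination (-1 / 2 : ℝ) * s_sq
  · ring

theorem p0_UA : p0 ∈ UA := by
  have hl := s_lo
  have hh := s_hi
  have := s_sq
  refine ⟨?_, ?_, ?_, ?_⟩ <;> simp only [p0] <;> nlinarith

theorem IsPair.p0_pos {a w : ℂ ≃ₜ ℂ} (p : IsPair a w) : sA w p0 = 1 := by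
  have hl := s_lo
  have hh := s_hi
  have hm := mu_pos
  have n1 : p0 ∉ (f * M') '' UW := by
    rintro ⟨t, ⟨h1, h2, h3, h4⟩, e⟩
    have e' : f (M' t) = p0 := e
    have q : (f (M' t)).im + s * (f (M' t)).re - 4 = -(mu * (t.im - s * t.re)) := by
      simp only [f_apply, M'_apply, aff_re, aff_im, mu]
      linear_combination ((1/2)*s*t.re + (1/4)*s*t.im + (-1/4)*s^2*t.re + (-1/2)*t.im) * s_sq
    rw [e'] at q
    have q0 : p0.im + s * p0.re - 4 = 0 := by
      simp only [p0]; linear_combination (1 / 2 : ℝ) * s_sq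
    rw [q0] at q
    have := mul_pos hm (sub_pos.2 h2)
    linarith
  have n2 : p0 ∉ f '' UW := by
    rintro ⟨t, ⟨h1, h2, h3, h4⟩, e⟩
    have q : (f t).im + s * (f t).re - 4 = mu * (t.im - s * t.re) := by
      simp only [f_apply, aff_re, aff_im, mu]
      linear_combination ((-1/2)*s*t.im + t.im) * s_sq
    rw [e] at q
    have q0 : p0.im + s * p0.re - 4 = 0 := by
      simp only [p0]; linear_combination (1 / 2 : ℝ) * s_sq
    rw [q0] at q
    have := mul_pos hm (sub_pos.2 h2)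
    linarith
  have n3 : p0 ∉ (f * M) '' UA := by
    rintro ⟨t, ht, e⟩
    have e' : f (M t) = p0 := e
    have h5 : c5 (f (M t)) = -(mu * t.re) := by
      simp only [c5, f_apply, M_apply, aff_re, aff_im, mu]
      linear_combination ((1/4)*s*t.re + (-1/2)*t.re) * s_sq
    rw [e'] at h5
    have h5' : c5 p0 = (s - 1) / 2 := by
      simp only [c5, p0]; linear_combination (-1 / 4 : ℝ) * s_sq
    have := mul_pos hm ht.1
    linarith
  rw [p.R1 p0_UA]
  unfold sA
  rw [p.a4 p0 n1 n2 n3, lam_kk]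
  apply sign_pos
  have e0 : lam p0 = 0 := by
    simp only [lam, p0]; linear_combination (1 / 4 : ℝ) * s_sq
  rw [e0, zero_add]
  apply lt_dd
  · simp only [c1, p0]; linarith
  · simp only [c2, p0]; nlinarith [s_sq]
  · simp only [c3, p0]; nlinarith [s_sq]
  · simp only [c5, p0]; nlinarith [s_sq]

theorem IsPair.ray_out {a w : ℂ ≃ₜ ℂ} (p : IsPair a w) (n : ℕ) :
    ray (mu ^ n * ((1 + s) / 2)) ∈ UW ∧ sA w (ray (mu ^ n * ((1 + s) / 2))) = 1 := by
  induction n with
  | zero =>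
    rw [pow_zero, one_mul, ← p0_ray]
    exact ⟨UA_sub p0_UA, p.p0_pos⟩
  | succ n ih =>
    have e : ray (mu ^ (n + 1) * ((1 + s) / 2)) = g (ray (mu ^ n * ((1 + s) / 2))) := by
      rw [g_ray]; congr 1; ring
    rw [e]
    exact ⟨g_UW ih.1, by rw [p.R3 ih.1]; exact ih.2⟩

theorem IsPair.ray_in {a w : ℂ ≃ₜ ℂ} (p : IsPair a w) (n : ℕ) :
    ray (mu ^ n * ((3 - s) / 2)) ∈ UW ∧ sA w (ray (mu ^ n * ((3 - s) / 2))) = -1 := by
  induction n with
  | zero =>
    rw [pow_zero, one_mul, ← Xp0_ray]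
    refine ⟨X_UA p0_UA, ?_⟩
    rw [p.R2 p0_UA, ← p.R1 p0_UA, p.p0_pos]
  | succ n ih =>
    have e : ray (mu ^ (n + 1) * ((3 - s) / 2)) = g (ray (mu ^ n * ((3 - s) / 2))) := by
      rw [g_ray]; congr 1; ring
    rw [e]
    exact ⟨g_UW ih.1, by rw [p.R3 ih.1]; exact ih.2⟩

theorem ray_convex {H : Set ℂ} (hH : Convex ℝ H) {t1 t2 t : ℝ} (h1 : ray t1 ∈ H) (h2 : ray t2 ∈ H)
    (l1 : t1 < t) (l2 : t < t2) : ray t ∈ H := by
  have hpos : 0 < t2 - t1 := by linarith
  have ha : 0 ≤ (t2 - t) / (t2 - t1) := div_nonneg (by linarith) hpos.le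
  have hb : 0 ≤ (t - t1) / (t2 - t1) := div_nonneg (by linarith) hpos.le
  have hab : (t2 - t) / (t2 - t1) + (t - t1) / (t2 - t1) = 1 := by field_simp; ring
  have := hH h1 h2 ha hb hab
  have e : ((t2 - t) / (t2 - t1)) • ray t1 + ((t - t1) / (t2 - t1)) • ray t2 = ray t := by
    apply Complex.ext <;>
      simp only [Complex.add_re, Complex.add_im, Complex.smul_re, Complex.smul_im, ray, smul_eq_mul]
    · field_simp; ring
    · field_simp; ring
  rwa [e] at this

theorem IsPair.not_convex {a w : ℂ ≃ₜ ℂ} (p : IsPair a w) (m : ℕ) (H : Fin m → Set ℂ)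
    (hH : ∀ i, Convex ℝ (H i)) : Tile w ≠ ⋃ i, H i := by
  intro hT
  have hw := p.sw
  have hm := mu_pos
  have hm2 := mu_lt
  have hl := s_lo
  have hh := s_hi
  have hin : ∀ n : ℕ, ∃ i, ray (mu ^ n * ((3 - s) / 2)) ∈ H i := by
    intro n
    have h := p.ray_in n
    have : ray (mu ^ n * ((3 - s) / 2)) ∈ Tile w := by
      show sP w _ ≤ 0
      rw [sP_UW hw h.1, h.2]; decide
    rw [hT] at this
    exact Set.mem_iUnion.1 this
  choose i hi using hin
  obtain ⟨j, k, hjk, hij⟩ := Finite.exists_ne_map_eq_of_infinite i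
  wlog hlt : j < k generalizing j k
  · exact this k j hjk.symm hij.symm (lt_of_le_of_ne (not_lt.1 hlt) hjk.symm)
  have hk := hi k
  rw [← hij] at hk
  have hpk : 0 < mu ^ k := pow_pos hm k
  have hle : mu ^ k ≤ mu ^ (j + 1) := pow_le_pow_of_le_one hm.le (by linarith) hlt
  have hpj : 0 < mu ^ j := pow_pos hm j
  have l1 : mu ^ k * ((3 - s) / 2) < mu ^ k * ((1 + s) / 2) :=
    mul_lt_mul_of_pos_left (by linarith) hpk
  have l2 : mu ^ k * ((1 + s) / 2) < mu ^ j * ((3 - s) / 2) := by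
    calc mu ^ k * ((1 + s) / 2) ≤ mu ^ (j + 1) * ((1 + s) / 2) :=
          mul_le_mul_of_nonneg_right hle (by linarith)
      _ = mu ^ j * (mu * ((1 + s) / 2)) := by ring
      _ < mu ^ j * ((3 - s) / 2) := by
          apply mul_lt_mul_of_pos_left _ hpj
          nlinarith
  have hmem := ray_convex (hH (i j)) hk (hi j) l1 l2
  have hout := p.ray_out k
  have hT' : ray (mu ^ k * ((1 + s) / 2)) ∈ Tile w := by
    rw [hT]; exact Set.mem_iUnion.2 ⟨_, hmem⟩
  have h' : sP w (ray (mu ^ k * ((1 + s) / 2))) ≤ 0 := hT'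
  rw [sP_UW hw hout.1, hout.2] at h'
  exact absurd h' (by decide)

theorem exp_eq : Complex.exp (Real.pi / 3 * Complex.I) = ⟨1 / 2, s / 2⟩ := by
  have e : (Real.pi / 3 * Complex.I : ℂ) = ((Real.pi / 3 : ℝ) : ℂ) * Complex.I := by push_cast; ring
  rw [e, Complex.exp_mul_I, ← Complex.ofReal_cos, ← Complex.ofReal_sin, Real.cos_pi_div_three,
    Real.sin_pi_div_three]
  apply Complex.ext <;> simp [s]

theorem rot_eq (z : ℂ) : rot 0 z = R (R (N z)) := by
  unfold rot
  rw [exp_eq]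
  apply Complex.ext
  · simp only [R_apply, N_apply, aff_re, aff_im, zero_add, sub_zero, Complex.mul_re]
    linear_combination (-z.re / 4) * s_sq
  · simp only [R_apply, N_apply, aff_re, aff_im, zero_add, sub_zero, Complex.mul_im]
    linear_combination (-z.im / 4) * s_sq

theorem refl_eq (z : ℂ) : refl 0 (Real.pi / 2) z = M z := by
  unfold refl
  have e : (2 * ((Real.pi / 2 : ℝ) : ℂ) * Complex.I) = Real.pi * Complex.I := by push_cast; ring
  rw [e, Complex.exp_pi_mul_I]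
  apply Complex.ext <;> simp [M_apply]

theorem tile_sixfold {w : ℂ ≃ₜ ℂ} (hw : Supp w UW) : HasSixfold (Tile w) := by
  refine ⟨0, ?_⟩
  ext z
  constructor
  · rintro ⟨u, hu, rfl⟩
    show sP w (rot 0 u) ≤ 0
    rw [rot_eq, sP_R hw, sP_R hw, sP_N hw]
    exact hu
  · intro hz
    refine ⟨N (R z), ?_, ?_⟩
    · show sP w (N (R z)) ≤ 0
      rw [sP_N hw, sP_R hw]; exact hz
    · rw [rot_eq, N_N, R_R_R]

theorem tile_reflection {w : ℂ ≃ₜ ℂ} (hw : Supp w UW) : HasReflection (Tile w) := by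
  refine ⟨0, Real.pi / 2, ?_⟩
  ext z
  constructor
  · rintro ⟨u, hu, rfl⟩
    show sP w (refl 0 (Real.pi / 2) u) ≤ 0
    rw [refl_eq, sP_M hw]
    exact hu
  · intro hz
    refine ⟨M z, ?_, ?_⟩
    · show sP w (M z) ≤ 0
      rw [sP_M hw]; exact hz
    · rw [refl_eq, M_M]

theorem Tp_image (w : ℂ ≃ₜ ℂ) (q : ℤ × ℤ) :
    (IsometryEquiv.addRight (Lat q)) '' Tile w = Tp w q := by
  ext z
  constructor
  · rintro ⟨u, hu, rfl⟩
    show u + Lat q - Lat q ∈ Tile w
    rwa [add_sub_cancel_right]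
  · intro hz
    exact ⟨z - Lat q, hz, sub_add_cancel z (Lat q)⟩

theorem IsPair.disj {a w : ℂ ≃ₜ ℂ} (p : IsPair a w) {q r : ℤ × ℤ} (hqr : q ≠ r) :
    Disjoint (interior (Tp w q)) (interior (Tp w r)) := by
  have h := p.disj0 (q := r - q) (sub_ne_zero.2 hqr.symm)
  rw [Set.disjoint_left] at h ⊢
  intro z hz1 hz2
  let τ : ℂ ≃ₜ ℂ := Homeomorph.addRight (Lat q)
  have e1 : τ ⁻¹' Tp w q = Tile w := by
    ext u
    show u + Lat q - Lat q ∈ Tile w ↔ _
    rw [add_sub_cancel_right]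
  have e2 : τ ⁻¹' Tp w r = Tp w (r - q) := by
    ext u
    show u + Lat q - Lat r ∈ Tile w ↔ u - Lat (r - q) ∈ Tile w
    have : Lat (r - q) = Lat r - Lat q := by rw [sub_eq_add_neg, Lat_add, Lat_neg, sub_eq_add_neg]
    rw [this, show u + Lat q - Lat r = u - (Lat r - Lat q) by ring]
  have hz : τ (z - Lat q) = z := sub_add_cancel z (Lat q)
  have k1 : z - Lat q ∈ interior (Tile w) := by
    rw [← e1, ← τ.preimage_interior, Set.mem_preimage, hz]
    exact hz1
  have k2 : z - Lat q ∈ interior (Tp w (r - q)) := by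
    rw [← e2, ← τ.preimage_interior, Set.mem_preimage, hz]
    exact hz2
  exact h k1 k2

theorem IsPair.tiles {a w : ℂ ≃ₜ ℂ} (p : IsPair a w) : TilesPlane (Tile w) := by
  let e : ℕ ≃ ℤ × ℤ := (Denumerable.eqv (ℤ × ℤ)).symm
  refine ⟨fun n => IsometryEquiv.addRight (Lat (e n)), ?_, ?_⟩
  · rw [Set.eq_univ_iff_forall]
    intro z
    have hz : z ∈ ZZ w univ := by rw [p.cover]; trivial
    obtain ⟨⟨q, hq⟩, hz⟩ := Set.mem_iUnion.1 hz
    refine Set.mem_iUnion.2 ⟨e.symm q, ?_⟩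
    rw [Tp_image, Equiv.apply_symm_apply]
    exact hz
  · intro i j hij
    rw [Tp_image, Tp_image]
    exact p.disj (fun h => hij (e.injective h))

/-- There is a tile with 6-fold rotational and reflective symmetry whose congruent copies tile the
plane and which is not a finite union of equal regular hexagons; indeed it is not even a finite
union of convex sets. -/
theorem result : ∃ T : Set ℂ, IsTile T ∧ HasSixfold T ∧ HasReflection T ∧ TilesPlane T ∧
    ¬ IsHexagonUnion T ∧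
    ∀ (m : ℕ) (H : Fin m → Set ℂ), (∀ i, Convex ℝ (H i)) → T ≠ ⋃ i, H i := by
  obtain ⟨a, w, p⟩ := exists_pair
  refine ⟨Tile w, tile_disk p.sw, tile_sixfold p.sw, tile_reflection p.sw, p.tiles, ?_,
    p.not_convex⟩
  rintro ⟨m, H, -, hH, -, -, hT⟩
  refine p.not_convex m H (fun i => ?_) hT
  obtain ⟨c, v, -, h⟩ := hH i
  rw [h]
  exact convex_convexHull ℝ _

end

end Pool.Agent.Results.MP_a14c6f_co.FractalTile
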